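import Mathlib

/-!
# Low out-degrees in bipartite oriented graphs without induced directed 4-cycle

If every vertex of `X` has out-weight at least `ξ` in `Y` and conversely, then there are many
defects: missing pairs between `X` and `Y` or adjacent pairs inside `X` or inside `Y`.
-/

namespace Pool.Agent.H5.Bip

open Finset

variable {V : Type*} [DecidableEq V]

/-- Weight of a set. -/
def mu (w : V → ℝ) (S : Finset V) : ℝ := ∑ v ∈ S, w v

theorem mu_nonneg {w : V → ℝ} (hw : ∀ v, 0 < w v) (S : Finset V) : 0 ≤ mu w S :=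
  sum_nonneg fun v _ => (hw v).le

theorem mu_mono {w : V → ℝ} (hw : ∀ v, 0 < w v) {S T : Finset V} (h : S ⊆ T) : mu w S ≤ mu w T :=
  sum_le_sum_of_subset_of_nonneg h fun v _ _ => (hw v).le

theorem mu_union {w : V → ℝ} {S T : Finset V} (h : Disjoint S T) :
    mu w (S ∪ T) = mu w S + mu w T := sum_union h

theorem mu_union_le {w : V → ℝ} (hw : ∀ v, 0 < w v) (S T : Finset V) :
    mu w (S ∪ T) ≤ mu w S + mu w T := by
  have h : mu w (S ∪ T) + mu w (S ∩ T) = mu w S + mu w T := sum_union_inter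
  have := mu_nonneg hw (S ∩ T)
  linarith

theorem mu_sdiff {w : V → ℝ} {S T : Finset V} (h : T ⊆ S) : mu w (S \ T) = mu w S - mu w T := by
  have := sum_sdiff (f := w) h
  unfold mu
  linarith

theorem mu_filter {w : V → ℝ} (S : Finset V) (p : V → Prop) [DecidablePred p] :
    mu w S = mu w (S.filter p) + mu w (S.filter fun v => ¬ p v) :=
  (sum_filter_add_sum_filter_not S p w).symm

open Classical in
/-- Ordered weight of the pairs of `S` in relation `E`. -/
noncomputable def pairW (w : V → ℝ) (E : V → V → Prop) (S : Finset V) : ℝ :=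
  ∑ x ∈ S, w x * mu w (S.filter fun y => E x y)

open Classical in
/-- Rank lemma: if the pairs of `S` in relation `E` have small weight, then some vertex `x₀` is a
maximum of `f` after removing a set `S \ S'` of small weight, and has few `E`-neighbours in `S'`. -/
theorem rank_lemma {w : V → ℝ} (hw : ∀ v, 0 < w v) (E : V → V → Prop)
    (hsymm : ∀ x y, E x y → E y x) (hirr : ∀ x, ¬ E x x) (f e : V → ℝ) (he : ∀ v, 0 ≤ e v) :
    ∀ (n : ℕ) (S : Finset V), S.card = n → ∀ τ : ℝ, 0 ≤ τ → S.Nonempty → τ ≤ mu w S →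
    pairW w E S + 2 * ∑ x ∈ S, w x * e x ≤ τ ^ 2 →
    ∃ x₀ ∈ S, ∃ S' ⊆ S, x₀ ∈ S' ∧ (∀ x ∈ S', f x ≤ f x₀) ∧
      mu w (S \ S') + mu w (S'.filter fun y => E x₀ y) + e x₀ ≤ τ := by
  intro n
  induction n with
  | zero =>
    intro S hS τ _ hne
    rw [card_eq_zero] at hS
    subst hS
    exact absurd hne (by simp)
  | succ n ih =>
    intro S hS τ hτ hne hmu hE
    obtain ⟨x₁, hx₁, hmax⟩ := exists_max_image S f hne
    by_cases hc : mu w (S.filter fun y => E x₁ y) + e x₁ ≤ τ
    · refine ⟨x₁, hx₁, S, subset_rfl, hx₁, hmax, ?_⟩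
      have : mu w (S \ S) = 0 := by simp [mu]
      rw [this]
      linarith
    · push Not at hc
      set S₁ := S.erase x₁ with hS₁
      have hins : S = insert x₁ S₁ := (insert_erase hx₁).symm
      have hnot : x₁ ∉ S₁ := notMem_erase x₁ S
      have hwx := hw x₁
      set K := mu w (S.filter fun y => E x₁ y) + e x₁ with hK
      -- decomposition of the pair weight
      have hd1 : ∑ x ∈ S, w x * e x = ∑ x ∈ S₁, w x * e x + w x₁ * e x₁ := by
        rw [hins, sum_insert hnot]; ring
      have hd2 : pairW w E S = pairW w E S₁ + 2 * (w x₁ * mu w (S.filter fun y => E x₁ y)) := by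
        unfold pairW
        have h1 : ∑ x ∈ S, w x * mu w (S.filter fun y => E x y)
            = w x₁ * mu w (S.filter fun y => E x₁ y)
              + ∑ x ∈ S₁, w x * mu w (S.filter fun y => E x y) := by
          conv_lhs => rw [hins]
          rw [sum_insert hnot, ← hins]
        have h2 : ∀ x ∈ S₁, w x * mu w (S.filter fun y => E x y)
            = w x * mu w (S₁.filter fun y => E x y) + w x * (if E x x₁ then w x₁ else 0) := by
          intro x _
          rw [hins, filter_insert]
          split_ifs with hh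
          · have : x₁ ∉ S₁.filter fun y => E x y := fun hm => hnot (mem_filter.mp hm).1
            unfold mu
            rw [sum_insert this]
            ring
          · ring
        rw [h1, sum_congr rfl h2, sum_add_distrib]
        have h3 : ∑ x ∈ S₁, w x * (if E x x₁ then w x₁ else 0)
            = w x₁ * mu w (S.filter fun y => E x₁ y) := by
          unfold mu
          rw [hins, filter_insert, if_neg (hirr x₁), sum_filter, mul_sum]
          refine sum_congr rfl fun x _ => ?_
          by_cases hh : E x x₁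
          · rw [if_pos hh, if_pos (hsymm _ _ hh)]; ring
          · rw [if_neg hh, if_neg (fun h' => hh (hsymm _ _ h'))]; ring
        rw [h3]
        ring
      have hp0 : 0 ≤ pairW w E S₁ :=
        sum_nonneg fun x _ => mul_nonneg (hw x).le (mu_nonneg hw _)
      have he0 : 0 ≤ ∑ x ∈ S₁, w x * e x := sum_nonneg fun x _ => mul_nonneg (hw x).le (he x)
      have htot : pairW w E S₁ + 2 * ∑ x ∈ S₁, w x * e x + 2 * (w x₁ * K) ≤ τ ^ 2 := by
        rw [hd1, hd2] at hE
        rw [hK]
        nlinarith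
      have hKτ : w x₁ * τ < w x₁ * K := mul_lt_mul_of_pos_left hc hwx
      have hlt : w x₁ < τ := by
        by_contra hge
        push Not at hge
        nlinarith
      have hmu1 : mu w S₁ = mu w S - w x₁ := by
        have : mu w S = w x₁ + mu w S₁ := by
          unfold mu
          rw [hins, sum_insert hnot]
        linarith
      have hne1 : S₁.Nonempty := by
        by_contra hne'
        rw [not_nonempty_iff_eq_empty] at hne'
        have : mu w S₁ = 0 := by rw [hne']; simp [mu]
        linarith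
      have hcard : S₁.card = n := by
        rw [hS₁, card_erase_of_mem hx₁, hS]; rfl
      obtain ⟨x₀, hx₀, S', hS', hx₀', hf, hfin⟩ := ih S₁ hcard (τ - w x₁) (by linarith) hne1
        (by linarith) (by nlinarith)
      refine ⟨x₀, (erase_subset _ _) hx₀, S', hS'.trans (erase_subset _ _), hx₀', hf, ?_⟩
      have hsd : mu w (S \ S') ≤ mu w (S₁ \ S') + w x₁ := by
        have hsub : S \ S' ⊆ insert x₁ (S₁ \ S') := by
          intro y hy
          rw [mem_sdiff] at hy
          rw [mem_insert, mem_sdiff, hS₁, mem_erase]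
          by_cases h : y = x₁
          · exact Or.inl h
          · exact Or.inr ⟨⟨h, hy.1⟩, hy.2⟩
        refine (mu_mono hw hsub).trans ?_
        have : x₁ ∉ S₁ \ S' := fun h => hnot (mem_sdiff.mp h).1
        unfold mu
        rw [sum_insert this]
        linarith
      linarith

section Dbl

variable {w : V → ℝ}

open Classical in
/-- Weight of the pairs `(x, y)` with `x ∈ A`, `y ∈ B` in relation `R`. -/
noncomputable def dbl (w : V → ℝ) (R : V → V → Prop) (A B : Finset V) : ℝ :=
  ∑ x ∈ A, w x * mu w (B.filter fun y => R x y)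

theorem dbl_nonneg (hw : ∀ v, 0 < w v) (R : V → V → Prop) (A B : Finset V) : 0 ≤ dbl w R A B :=
  sum_nonneg fun x _ => mul_nonneg (hw x).le (mu_nonneg hw _)

theorem dbl_swap (R : V → V → Prop) (A B : Finset V) :
    dbl w R A B = dbl w (fun x y => R y x) B A := by
  classical
  unfold dbl mu
  simp_rw [sum_filter, mul_sum]
  rw [sum_comm]
  refine sum_congr rfl fun y _ => sum_congr rfl fun x _ => ?_
  split_ifs <;> ring

theorem dbl_mono (hw : ∀ v, 0 < w v) {R R' : V → V → Prop} {A A' B B' : Finset V}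
    (hA : A ⊆ A') (hB : B ⊆ B') (hR : ∀ x ∈ A, ∀ y ∈ B, R x y → R' x y) :
    dbl w R A B ≤ dbl w R' A' B' := by
  classical
  unfold dbl
  calc ∑ x ∈ A, w x * mu w (B.filter fun y => R x y)
      ≤ ∑ x ∈ A, w x * mu w (B'.filter fun y => R' x y) := by
        refine sum_le_sum fun x hx => mul_le_mul_of_nonneg_left ?_ (hw x).le
        refine mu_mono hw fun y hy => ?_
        rw [mem_filter] at hy ⊢
        exact ⟨hB hy.1, hR x hx y hy.1 hy.2⟩
    _ ≤ ∑ x ∈ A', w x * mu w (B'.filter fun y => R' x y) :=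
        sum_le_sum_of_subset_of_nonneg hA fun x _ _ => mul_nonneg (hw x).le (mu_nonneg hw _)

theorem dbl_union_left (R : V → V → Prop) {A A' : Finset V} (B : Finset V) (h : Disjoint A A') :
    dbl w R (A ∪ A') B = dbl w R A B + dbl w R A' B := by
  classical
  unfold dbl
  rw [sum_union h]

theorem dbl_union_right (R : V → V → Prop) (A : Finset V) {B B' : Finset V} (h : Disjoint B B') :
    dbl w R A (B ∪ B') = dbl w R A B + dbl w R A B' := by
  rw [dbl_swap, dbl_union_left _ _ h, dbl_swap, dbl_swap _ B' A]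

theorem dbl_full (R : V → V → Prop) (A B : Finset V) (h : ∀ x ∈ A, ∀ y ∈ B, R x y) :
    dbl w R A B = mu w A * mu w B := by
  classical
  unfold dbl
  have : ∀ x ∈ A, w x * mu w (B.filter fun y => R x y) = w x * mu w B := by
    intro x hx
    congr 2
    exact filter_true_of_mem fun y hy => h x hx y hy
  rw [sum_congr rfl this, ← sum_mul]
  rfl

end Dbl

section Core

variable {w : V → ℝ} (hw : ∀ v, 0 < w v) (arc adj : V → V → Prop)
  (asymm : ∀ u v, arc u v → ¬ arc v u) (hadj : ∀ u v, adj u v ↔ arc u v ∨ arc v u)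
  (c4 : ∀ a b c d, arc a b → arc b c → arc c d → arc d a → adj a c ∨ adj b d)
  (non : V → V → Prop) (hnon : ∀ u v, non u v ↔ ¬ adj u v)

theorem mu_split3 (S : Finset V) (p q r : V → Prop) [DecidablePred p] [DecidablePred q]
    [DecidablePred r] (h : ∀ v ∈ S, p v ∨ q v ∨ r v) (hpq : ∀ v, p v → ¬ q v)
    (hpr : ∀ v, p v → ¬ r v) (hqr : ∀ v, q v → ¬ r v) :
    mu w S = mu w (S.filter p) + mu w (S.filter q) + mu w (S.filter r) := by
  unfold mu
  simp_rw [sum_filter, ← sum_add_distrib]
  refine sum_congr rfl fun v hv => ?_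
  rcases h v hv with h | h | h
  · simp [h, hpq v h, hpr v h]
  · have h1 : ¬ p v := fun h' => hpq v h' h
    simp [h, h1, hqr v h]
  · have h1 : ¬ p v := fun h' => hpr v h' h
    have h2 : ¬ q v := fun h' => hqr v h' h
    simp [h, h1, h2]

include hw asymm hadj c4 hnon in
open Classical in
/-- The two-step argument. -/
theorem bip_core (X Y : Finset V) (a b σ θ₁ θ₂ : ℝ) (ha : 0 ≤ a) (hb : 0 ≤ b)
    (hσ0 : 0 ≤ σ) (hσ : a ^ 2 ≤ 2 * σ ^ 2)
    (hpX : dbl w adj X X ≤ a ^ 2) (hpY : dbl w adj Y Y ≤ b ^ 2)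
    (h1 : ∀ y ∈ Y, θ₁ ≤ mu w (X.filter fun x => arc y x))
    (h2 : ∀ x ∈ X, θ₂ ≤ mu w (Y.filter fun y => arc x y))
    (hX : X.Nonempty) (hY : Y.Nonempty) (haθ : a ≤ θ₁) (hbθ : b ≤ θ₂) (hθ2 : 0 < θ₂) :
    ∃ μ ν : ℝ, θ₁ - a ≤ μ ∧ θ₂ ≤ ν ∧
      μ * (ν - b) - ν * σ ≤ dbl w non X Y := by
  have adj_symm : ∀ u v, adj u v → adj v u := by
    intro u v h
    rw [hadj] at h ⊢
    exact Or.symm h
  have adj_irr : ∀ u, ¬ adj u u := by
    intro u h
    rw [hadj] at h
    rcases h with h | h <;> exact asymm u u h h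
  have arc_adj : ∀ u v, arc u v → adj u v := fun u v h => (hadj u v).mpr (Or.inl h)
  have arc_adj' : ∀ u v, arc u v → adj v u := fun u v h => (hadj v u).mpr (Or.inr h)
  have hmuX : a ≤ mu w X := by
    obtain ⟨y, hy⟩ := hY
    exact haθ.trans ((h1 y hy).trans (mu_mono hw (filter_subset _ _)))
  -- step 1
  obtain ⟨x₀, hx₀, S', hS', hx₀', hmax, hsum⟩ := rank_lemma hw adj adj_symm adj_irr
    (fun x => mu w (Y.filter fun y => arc y x)) (fun _ => 0) (fun _ => le_refl _) X.card X rfl a ha
    hX hmuX (by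
      have : pairW w adj X = dbl w adj X X := rfl
      rw [this]
      simpa using hpX)
  have hsum' : mu w (X \ S') + mu w (S'.filter fun y => adj x₀ y) ≤ a := by
    simpa using hsum
  obtain ⟨X₂, hX₂⟩ : ∃ X₂, X₂ = S'.filter (fun x => ¬ adj x₀ x) := ⟨_, rfl⟩
  have hX₂S : X₂ ⊆ S' := by rw [hX₂]; exact filter_subset _ _
  have hX₂X : X₂ ⊆ X := hX₂S.trans hS'
  have hmuX₂ : mu w (X \ X₂) ≤ a := by
    have hsub : X \ X₂ ⊆ (X \ S') ∪ (S'.filter fun y => adj x₀ y) := by
      intro x hx
      rw [mem_sdiff, hX₂, mem_filter] at hx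
      rw [mem_union, mem_sdiff, mem_filter]
      by_cases hxs : x ∈ S'
      · right
        refine ⟨hxs, ?_⟩
        by_contra hn
        exact hx.2 ⟨hxs, hn⟩
      · exact Or.inl ⟨hx.1, hxs⟩
    have := (mu_mono hw hsub).trans (mu_union_le hw _ _)
    linarith
  obtain ⟨N, hN⟩ : ∃ N, N = Y.filter (fun y => arc x₀ y) := ⟨_, rfl⟩
  obtain ⟨Nb, hNb⟩ : ∃ Nb, Nb = Y.filter (fun y => arc y x₀) := ⟨_, rfl⟩
  have hNY : N ⊆ Y := by rw [hN]; exact filter_subset _ _
  have hNbY : Nb ⊆ Y := by rw [hNb]; exact filter_subset _ _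
  have hNarc : ∀ y ∈ N, arc x₀ y := fun y hy => by rw [hN, mem_filter] at hy; exact hy.2
  have hNbarc : ∀ y ∈ Nb, arc y x₀ := fun y hy => by rw [hNb, mem_filter] at hy; exact hy.2
  have hdisj : Disjoint N Nb := by
    rw [disjoint_left]
    intro y hy hy'
    exact asymm _ _ (hNarc y hy) (hNbarc y hy')
  have hν : θ₂ ≤ mu w N := by rw [hN]; exact h2 x₀ hx₀
  have hNne : N.Nonempty := by
    by_contra hne
    rw [not_nonempty_iff_eq_empty] at hne
    have : mu w N = 0 := by rw [hne]; simp [mu]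
    linarith
  -- step 2
  have hpN : dbl w adj N N + 2 * ∑ y ∈ N, w y * mu w (Nb.filter fun z => adj y z) ≤ b ^ 2 := by
    have e1 : ∑ y ∈ N, w y * mu w (Nb.filter fun z => adj y z) = dbl w adj N Nb := rfl
    have e2 : dbl w adj Nb N = dbl w adj N Nb := by
      rw [dbl_swap]
      congr 1
      funext x y
      exact propext ⟨adj_symm _ _, adj_symm _ _⟩
    have e3 : dbl w adj (N ∪ Nb) (N ∪ Nb) = dbl w adj N N + dbl w adj N Nb
        + (dbl w adj Nb N + dbl w adj Nb Nb) := by
      rw [dbl_union_left _ _ hdisj, dbl_union_right _ _ hdisj, dbl_union_right _ _ hdisj]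
    have e4 : dbl w adj (N ∪ Nb) (N ∪ Nb) ≤ dbl w adj Y Y :=
      dbl_mono hw (union_subset hNY hNbY) (union_subset hNY hNbY) (fun _ _ _ _ h => h)
    have e5 := dbl_nonneg hw adj Nb Nb
    rw [e1]
    linarith
  obtain ⟨y₀, hy₀, N', hN', hy₀', hmax2, hsum2⟩ := rank_lemma hw adj adj_symm adj_irr
    (fun y => mu w (X₂.filter fun x => arc x y)) (fun y => mu w (Nb.filter fun z => adj y z))
    (fun _ => mu_nonneg hw _) N.card N rfl b hb hNne (hbθ.trans hν) hpN
  obtain ⟨M₀, hM₀⟩ : ∃ M₀, M₀ = X₂.filter (fun x => arc y₀ x) := ⟨_, rfl⟩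
  obtain ⟨B₀, hB₀⟩ : ∃ B₀, B₀ = X₂.filter (fun x => arc x y₀) := ⟨_, rfl⟩
  have hM₀X₂ : M₀ ⊆ X₂ := by rw [hM₀]; exact filter_subset _ _
  have hB₀X₂ : B₀ ⊆ X₂ := by rw [hB₀]; exact filter_subset _ _
  have hM₀arc : ∀ x ∈ M₀, arc y₀ x := fun x hx => by rw [hM₀, mem_filter] at hx; exact hx.2
  have hB₀arc : ∀ x ∈ B₀, arc x y₀ := fun x hx => by rw [hB₀, mem_filter] at hx; exact hx.2
  have hMB : Disjoint M₀ B₀ := by
    rw [disjoint_left]
    intro x hx hx'
    exact asymm _ _ (hM₀arc x hx) (hB₀arc x hx')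
  have hμ : θ₁ - a ≤ mu w M₀ := by
    have hsub : X.filter (fun x => arc y₀ x) ⊆ M₀ ∪ (X \ X₂) := by
      intro x hx
      rw [mem_filter] at hx
      rw [mem_union, hM₀, mem_filter, mem_sdiff]
      by_cases hx2 : x ∈ X₂
      · exact Or.inl ⟨hx2, hx.2⟩
      · exact Or.inr ⟨hx.1, hx2⟩
    have := h1 y₀ (hNY hy₀)
    have h3 := (mu_mono hw hsub).trans (mu_union_le hw _ _)
    linarith
  set e₀ := mu w (Nb.filter fun z => adj y₀ z) with he₀
  -- lower bound for the arcs from `M₀` to `N`
  have hlow : ∀ x ∈ M₀, mu w N - e₀ - mu w (Y.filter fun y => non x y)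
      ≤ mu w (N.filter fun y => arc x y) := by
    intro x hx
    have hxX₂ := hM₀X₂ hx
    have hxS := hX₂S hxX₂
    have hxadj : ¬ adj x₀ x := by rw [hX₂, mem_filter] at hxX₂; exact hxX₂.2
    have hι : mu w (Y.filter fun y => arc y x) ≤ mu w Nb := by rw [hNb]; exact hmax x hxS
    have s1 : mu w N = mu w (N.filter fun y => arc x y) + mu w (N.filter fun y => arc y x)
        + mu w (N.filter fun y => non x y) :=
      mu_split3 N _ _ _ (fun v _ => by have := hadj x v; have := hnon x v; tauto)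
        (fun v h h' => asymm _ _ h h') (fun v h h' => (hnon _ _).mp h' (arc_adj _ _ h))
        (fun v h h' => (hnon _ _).mp h' (arc_adj' _ _ h))
    have s2 : mu w Nb = mu w (Nb.filter fun y => arc x y) + mu w (Nb.filter fun y => arc y x)
        + mu w (Nb.filter fun y => non x y) :=
      mu_split3 Nb _ _ _ (fun v _ => by have := hadj x v; have := hnon x v; tauto)
        (fun v h h' => asymm _ _ h h') (fun v h h' => (hnon _ _).mp h' (arc_adj _ _ h))
        (fun v h h' => (hnon _ _).mp h' (arc_adj' _ _ h))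
    have s3 : mu w (N.filter fun y => arc y x) + mu w (Nb.filter fun y => arc y x)
        ≤ mu w (Y.filter fun y => arc y x) := by
      rw [← mu_union (disjoint_filter_filter hdisj)]
      refine mu_mono hw ?_
      rw [← filter_union]
      exact filter_subset_filter _ (union_subset hNY hNbY)
    have s4 : mu w (Nb.filter fun y => arc x y) ≤ e₀ := by
      refine mu_mono hw ?_
      intro y hy
      rw [mem_filter] at hy ⊢
      refine ⟨hy.1, ?_⟩
      rcases c4 x₀ y₀ x y (hNarc y₀ hy₀) (hM₀arc x hx) hy.2 (hNbarc y hy.1) with h | h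
      · exact absurd h hxadj
      · exact h
    have s5 : mu w (N.filter fun y => non x y) + mu w (Nb.filter fun y => non x y)
        ≤ mu w (Y.filter fun y => non x y) := by
      rw [← mu_union (disjoint_filter_filter hdisj)]
      refine mu_mono hw ?_
      rw [← filter_union]
      exact filter_subset_filter _ (union_subset hNY hNbY)
    linarith
  -- upper bound for the arcs from `M₀` to a vertex of `N'`
  have hup : ∀ y ∈ N', ¬ adj y₀ y → mu w (M₀.filter fun x => arc x y)
      ≤ σ + mu w (B₀.filter fun x => non y x) := by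
    intro y hy hyadj
    have hι := hmax2 y hy
    have hP : mu w (M₀.filter fun x => arc x y) ≤ mu w (B₀.filter fun x => arc y x)
        + mu w (B₀.filter fun x => non y x) := by
      have s2 : mu w B₀ = mu w (B₀.filter fun x => arc y x) + mu w (B₀.filter fun x => arc x y)
          + mu w (B₀.filter fun x => non y x) :=
        mu_split3 B₀ _ _ _ (fun v _ => by have := hadj y v; have := hnon y v; tauto)
          (fun v h h' => asymm _ _ h h') (fun v h h' => (hnon _ _).mp h' (arc_adj _ _ h))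
          (fun v h h' => (hnon _ _).mp h' (arc_adj' _ _ h))
      have s3 : mu w (M₀.filter fun x => arc x y) + mu w (B₀.filter fun x => arc x y)
          ≤ mu w (X₂.filter fun x => arc x y) := by
        rw [← mu_union (disjoint_filter_filter hMB)]
        refine mu_mono hw ?_
        rw [← filter_union]
        exact filter_subset_filter _ (union_subset hM₀X₂ hB₀X₂)
      have s4 : mu w (X₂.filter fun x => arc x y₀) = mu w B₀ := by rw [hB₀]
      linarith
    have hprod : 2 * (mu w (M₀.filter fun x => arc x y) * mu w (B₀.filter fun x => arc y x))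
        ≤ a ^ 2 := by
      obtain ⟨P, hPd⟩ : ∃ P, P = M₀.filter (fun x => arc x y) := ⟨_, rfl⟩
      obtain ⟨Q, hQd⟩ : ∃ Q, Q = B₀.filter (fun x => arc y x) := ⟨_, rfl⟩
      rw [← hPd, ← hQd]
      have hPM : P ⊆ M₀ := by rw [hPd]; exact filter_subset _ _
      have hQB : Q ⊆ B₀ := by rw [hQd]; exact filter_subset _ _
      have hPQ : Disjoint P Q := disjoint_of_subset_left hPM (disjoint_of_subset_right hQB hMB)
      have hall : ∀ x ∈ P, ∀ z ∈ Q, adj x z := by
        intro x hx z hz
        have hx1 := hM₀arc x (hPM hx)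
        have hz1 := hB₀arc z (hQB hz)
        rw [hPd, mem_filter] at hx
        rw [hQd, mem_filter] at hz
        rcases c4 y₀ x y z hx1 hx.2 hz.2 hz1 with h | h
        · exact absurd h hyadj
        · exact h
      have hall' : ∀ z ∈ Q, ∀ x ∈ P, adj z x := fun z hz x hx => adj_symm _ _ (hall x hx z hz)
      have e1 : dbl w adj P Q = mu w P * mu w Q := dbl_full adj P Q hall
      have e2 : dbl w adj Q P = mu w Q * mu w P := dbl_full adj Q P hall'
      have e3 : dbl w adj (P ∪ Q) (P ∪ Q) = dbl w adj P P + dbl w adj P Q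
          + (dbl w adj Q P + dbl w adj Q Q) := by
        rw [dbl_union_left _ _ hPQ, dbl_union_right _ _ hPQ, dbl_union_right _ _ hPQ]
      have e4 : dbl w adj (P ∪ Q) (P ∪ Q) ≤ dbl w adj X X := by
        have hs : P ∪ Q ⊆ X := union_subset (hPM.trans (hM₀X₂.trans hX₂X))
          (hQB.trans (hB₀X₂.trans hX₂X))
        exact dbl_mono hw hs hs (fun _ _ _ _ h => h)
      have e5 := dbl_nonneg hw adj P P
      have e6 := dbl_nonneg hw adj Q Q
      nlinarith
    have p0 := mu_nonneg hw (M₀.filter fun x => arc x y)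
    have q0 := mu_nonneg hw (B₀.filter fun x => arc y x)
    have m0 := mu_nonneg hw (B₀.filter fun x => non y x)
    by_contra hcon
    push Not at hcon
    have hq : σ < mu w (B₀.filter fun x => arc y x) := by linarith
    have hp : σ < mu w (M₀.filter fun x => arc x y) := by linarith
    nlinarith
  -- double counting
  have hA : dbl w arc M₀ N = dbl w (fun y x => arc x y) N M₀ := dbl_swap _ _ _
  have hAlow : mu w M₀ * (mu w N - e₀) - dbl w non M₀ Y ≤ dbl w arc M₀ N := by
    unfold dbl
    have : mu w M₀ * (mu w N - e₀) = ∑ x ∈ M₀, w x * (mu w N - e₀) := by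
      rw [← sum_mul]; rfl
    rw [this, ← sum_sub_distrib]
    refine sum_le_sum fun x hx => ?_
    have := mul_le_mul_of_nonneg_left (hlow x hx) (hw x).le
    linarith
  have hAup : dbl w (fun y x => arc x y) N M₀ ≤ mu w M₀ * (b - e₀) + mu w N * σ
      + dbl w non N B₀ := by
    have hpoint : ∀ y ∈ N, w y * mu w (M₀.filter fun x => arc x y) ≤
        (if y ∈ N' ∧ ¬ adj y₀ y then 0 else w y * mu w M₀)
        + w y * σ + w y * mu w (B₀.filter fun x => non y x) := by
      intro y _
      have m0 := mu_nonneg hw (B₀.filter fun x => non y x)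
      have hwy := (hw y).le
      by_cases hc : y ∈ N' ∧ ¬ adj y₀ y
      · rw [if_pos hc]
        have := mul_le_mul_of_nonneg_left (hup y hc.1 hc.2) hwy
        linarith
      · rw [if_neg hc]
        have h3 : mu w (M₀.filter fun x => arc x y) ≤ mu w M₀ := mu_mono hw (filter_subset _ _)
        have h4 := mul_le_mul_of_nonneg_left h3 hwy
        have h5 := mul_nonneg hwy hσ0
        have h6 := mul_nonneg hwy m0
        linarith
    have hs := sum_le_sum hpoint
    rw [sum_add_distrib, sum_add_distrib] at hs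
    have e1 : ∑ y ∈ N, w y * σ = mu w N * σ := by rw [← sum_mul]; rfl
    have e2 : ∑ y ∈ N, (if y ∈ N' ∧ ¬ adj y₀ y then 0 else w y * mu w M₀)
        ≤ mu w M₀ * (b - e₀) := by
      have e3 : ∑ y ∈ N, (if y ∈ N' ∧ ¬ adj y₀ y then 0 else w y * mu w M₀)
          = mu w (N.filter fun y => ¬ (y ∈ N' ∧ ¬ adj y₀ y)) * mu w M₀ := by
        unfold mu
        rw [sum_mul, sum_filter]
        refine sum_congr rfl fun y _ => ?_
        by_cases hc : y ∈ N' ∧ ¬ adj y₀ y
        · simp [hc]
        · simp [hc]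
      have e4 : mu w (N.filter fun y => ¬ (y ∈ N' ∧ ¬ adj y₀ y)) ≤ b - e₀ := by
        have hsub : (N.filter fun y => ¬ (y ∈ N' ∧ ¬ adj y₀ y)) ⊆
            (N \ N') ∪ (N'.filter fun y => adj y₀ y) := by
          intro y hy
          rw [mem_filter] at hy
          rw [mem_union, mem_sdiff, mem_filter]
          by_cases hyN : y ∈ N'
          · right
            refine ⟨hyN, ?_⟩
            by_contra hn
            exact hy.2 ⟨hyN, hn⟩
          · exact Or.inl ⟨hy.1, hyN⟩
        have := (mu_mono hw hsub).trans (mu_union_le hw _ _)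
        linarith
      rw [e3]
      have := mul_le_mul_of_nonneg_right e4 (mu_nonneg hw M₀)
      linarith
    have e5 : dbl w (fun y x => arc x y) N M₀ = ∑ y ∈ N, w y * mu w (M₀.filter fun x => arc x y) := rfl
    have e6 : dbl w non N B₀
        = ∑ y ∈ N, w y * mu w (B₀.filter fun x => non y x) := rfl
    rw [e5, e6]
    linarith
  have hM : dbl w non M₀ Y + dbl w non N B₀
      ≤ dbl w non X Y := by
    have e1 : dbl w non N B₀ = dbl w non B₀ N := by
      rw [dbl_swap]
      congr 1
      funext x y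
      rw [hnon, hnon]
      exact propext (not_congr ⟨adj_symm _ _, adj_symm _ _⟩)
    have e2 : dbl w non B₀ N ≤ dbl w non B₀ Y :=
      dbl_mono hw subset_rfl hNY (fun _ _ _ _ h => h)
    have e3 : dbl w non (M₀ ∪ B₀) Y = dbl w non M₀ Y
        + dbl w non B₀ Y := dbl_union_left _ _ hMB
    have e4 : dbl w non (M₀ ∪ B₀) Y ≤ dbl w non X Y :=
      dbl_mono hw (union_subset (hM₀X₂.trans hX₂X) (hB₀X₂.trans hX₂X)) subset_rfl
        (fun _ _ _ _ h => h)
    linarith
  refine ⟨mu w M₀, mu w N, hμ, hν, ?_⟩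
  rw [hA] at hAlow
  nlinarith

theorem poly_ineq (ξ a b : ℝ) (ha : 0 ≤ a) (hab : a ≤ b) (hb : b ≤ ξ) :
    7 / 18 * ξ ^ 2 ≤ (ξ - a) * (ξ - b) - ξ * (0.7072 * a) + a ^ 2 + b ^ 2 := by
  obtain ⟨r, rfl⟩ : ∃ r, b = a + r := ⟨b - a, by ring⟩
  have hr : 0 ≤ r := by linarith
  have hξ : 0 ≤ ξ := by linarith
  by_cases h : ξ ≤ 3 * a
  · nlinarith [mul_nonneg hr (by linarith : 0 ≤ 3 * a - ξ), sq_nonneg r,
      sq_nonneg (ξ - 2.215 * a), mul_nonneg ha hξ]
  · push Not at h
    nlinarith [sq_nonneg (2 * r - (ξ - 3 * a)), mul_nonneg ha (by linarith : 0 ≤ ξ - 3 * a),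
      mul_nonneg hξ (by linarith : 0 ≤ ξ - 3 * a), sq_nonneg (ξ - 3 * a)]

include hw asymm hadj c4 hnon in
open Classical in
/-- Many defects. -/
theorem defect_bound (X Y : Finset V) (ξ : ℝ) (hξ : 0 < ξ)
    (h1 : ∀ y ∈ Y, ξ ≤ mu w (X.filter fun x => arc y x))
    (h2 : ∀ x ∈ X, ξ ≤ mu w (Y.filter fun y => arc x y))
    (hX : X.Nonempty) (hY : Y.Nonempty) :
    7 / 18 * ξ ^ 2 ≤ dbl w non X Y + dbl w adj X X + dbl w adj Y Y := by
  have hpX := dbl_nonneg hw adj X X
  have hpY := dbl_nonneg hw adj Y Y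
  have hM := dbl_nonneg hw non X Y
  have a0 := Real.sqrt_nonneg (dbl w adj X X)
  have b0 := Real.sqrt_nonneg (dbl w adj Y Y)
  have a2 := Real.sq_sqrt hpX
  have b2 := Real.sq_sqrt hpY
  set a := Real.sqrt (dbl w adj X X) with ha
  set b := Real.sqrt (dbl w adj Y Y) with hb
  by_cases hca : ξ < a
  · nlinarith
  by_cases hcb : ξ < b
  · nlinarith
  push Not at hca hcb
  rcases le_total a b with hab | hab
  · obtain ⟨μ, ν, hμ, hν, h⟩ := bip_core hw arc adj asymm hadj c4 non hnon X Y a b (0.7072 * a) ξ ξ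
      a0 b0 (by positivity) (by nlinarith) (by rw [a2]) (by rw [b2]) h1 h2 hX hY hca hcb hξ
    by_cases hc : 1.7072 * a ≤ ξ
    · have e1 : (ξ - a) * (ν - b) ≤ μ * (ν - b) :=
        mul_le_mul_of_nonneg_right hμ (by linarith)
      have e2 : ξ * (ξ - a - 0.7072 * a) ≤ ν * (ξ - a - 0.7072 * a) :=
        mul_le_mul_of_nonneg_right hν (by linarith)
      have e3 := poly_ineq ξ a b a0 hab hcb
      nlinarith
    · push Not at hc
      nlinarith
  · have h1' : ∀ x ∈ X, ξ ≤ mu w (Y.filter fun y => arc x y) := h2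
    obtain ⟨μ, ν, hμ, hν, h⟩ := bip_core hw arc adj asymm hadj c4 non hnon Y X b a (0.7072 * b) ξ ξ
      b0 a0 (by positivity) (by nlinarith) (by rw [b2]) (by rw [a2]) h2 h1 hY hX hcb hca hξ
    have hsw : dbl w non Y X = dbl w non X Y := by
      rw [dbl_swap]
      congr 1
      funext x y
      have adj_symm : ∀ u v, adj u v → adj v u := by
        intro u v h
        rw [hadj] at h ⊢
        exact Or.symm h
      rw [hnon, hnon]
      exact propext (not_congr ⟨adj_symm _ _, adj_symm _ _⟩)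
    rw [hsw] at h
    by_cases hc : 1.7072 * b ≤ ξ
    · have e1 : (ξ - b) * (ν - a) ≤ μ * (ν - a) :=
        mul_le_mul_of_nonneg_right hμ (by linarith)
      have e2 : ξ * (ξ - b - 0.7072 * b) ≤ ν * (ξ - b - 0.7072 * b) :=
        mul_le_mul_of_nonneg_right hν (by linarith)
      have e3 := poly_ineq ξ b a b0 hab hca
      nlinarith
    · push Not at hc
      nlinarith

end Core

end Pool.Agent.H5.Bip
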