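import Pool.Agent.H5.FDFCount

/-!
# Exact number of ordered triples with repetitions
-/

namespace Pool.Agent.H5

open Finset

theorem hv_aac : ∀ x < 3, hv 0 x x ≠ 0 → x ≠ 1 := by decide
theorem hv_aba : ∀ x < 3, hv x 0 (flip3 x) ≠ 0 → x ≠ 1 := by decide
theorem hv_abb : ∀ x < 3, hv x x 0 ≠ 0 → x ≠ 2 := by decide

namespace Orgraph

variable {n : ℕ} (Γ : Orgraph n)

theorem code_self (a : Fin n) : Γ.code a a = 0 := by
  rw [code_eq_zero]
  unfold Adj
  rw [or_self]
  exact fun h => Γ.asymm a a h h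

theorem distinct_le : (Γ.triples.filter fun p => p.1 ≠ p.2.1 ∧ p.1 ≠ p.2.2 ∧ p.2.1 ≠ p.2.2).card
    ≤ 6 * Γ.fdf.card := by
  classical
  set D : Finset (Fin n × Fin n × Fin n) :=
    Γ.triples.filter fun p => p.1 ≠ p.2.1 ∧ p.1 ≠ p.2.2 ∧ p.2.1 ≠ p.2.2 with hD
  have hmap : ∀ p ∈ D, under p ∈ Γ.fdf := by
    intro p hp
    rw [hD, mem_filter] at hp
    have h1 := hp.1
    unfold triples at h1
    rw [mem_filter] at h1
    exact Γ.mem_fdf_of_hval hp.2.1 hp.2.2.1 hp.2.2.2 h1.2
  refine card_le_mul_card_image_of_maps_to hmap 6 ?_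
  intro s hs
  have hcard : s.card = 3 := by
    unfold fdf at hs
    rw [mem_filter] at hs
    obtain ⟨u, v, w, h1, h2, h3, rfl, _⟩ := hs.2
    exact card_eq_three.mpr ⟨u, v, w, h1, h2, h3, rfl⟩
  refine le_trans (card_le_card ?_) (fiber_le s hcard)
  intro p hp
  rw [mem_filter] at hp ⊢
  exact ⟨mem_univ _, hp.2⟩

open Classical in
theorem nonarcs_card : (univ.filter fun p : Fin n × Fin n => ¬ Γ.arc p.1 p.2).card + Γ.arcs.card
    = n ^ 2 := by
  unfold arcs
  have h := card_filter_add_card_filter_not (s := (univ : Finset (Fin n × Fin n)))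
    (fun p => Γ.arc p.1 p.2)
  rw [card_univ, Fintype.card_prod, Fintype.card_fin] at h
  rw [add_comm, pow_two]
  exact h

open Classical in
theorem nonarcs_card' :
    (univ.filter fun p : Fin n × Fin n => p.1 ≠ p.2 ∧ ¬ Γ.arc p.1 p.2).card + n + Γ.arcs.card
    = n ^ 2 := by
  rw [← Γ.nonarcs_card]
  congr 1
  have h1 : (univ.filter fun p : Fin n × Fin n => ¬ Γ.arc p.1 p.2)
      = (univ.filter fun p : Fin n × Fin n => p.1 ≠ p.2 ∧ ¬ Γ.arc p.1 p.2)
        ∪ (univ.filter fun p : Fin n × Fin n => p.1 = p.2) := by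
    ext p
    simp only [mem_filter, mem_univ, true_and, mem_union]
    constructor
    · intro h
      by_cases h2 : p.1 = p.2
      · exact Or.inr h2
      · exact Or.inl ⟨h2, h⟩
    · rintro (h | h)
      · exact h.2
      · rw [h]
        exact fun h' => Γ.asymm _ _ h' h'
  rw [h1, card_union_of_disjoint]
  · congr 1
    have : (univ.filter fun p : Fin n × Fin n => p.1 = p.2)
        = (univ : Finset (Fin n)).image fun a => (a, a) := by
      ext p
      simp only [mem_filter, mem_univ, true_and, mem_image]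
      constructor
      · intro h
        exact ⟨p.1, by ext <;> simp [h]⟩
      · rintro ⟨a, rfl⟩
        rfl
    rw [this, card_image_of_injective, card_univ, Fintype.card_fin]
    intro a b h
    exact (Prod.mk.inj h).1
  · rw [disjoint_left]
    intro p hp hp'
    rw [mem_filter] at hp hp'
    exact hp.2.1 hp'.2

/-- Exact form of the comparison between ordered triples and edges. -/
theorem triples_le_exact : Γ.triples.card + 3 * Γ.arcs.card + 2 * n ≤ 6 * Γ.fdf.card + 3 * n ^ 2 := by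
  classical
  set D : Finset (Fin n × Fin n × Fin n) :=
    Γ.triples.filter fun p => p.1 ≠ p.2.1 ∧ p.1 ≠ p.2.2 ∧ p.2.1 ≠ p.2.2 with hD
  set N1 : Finset (Fin n × Fin n × Fin n) := Γ.triples.filter fun p => p.1 = p.2.1 with hN1
  set N2 : Finset (Fin n × Fin n × Fin n) :=
    Γ.triples.filter fun p => p.1 ≠ p.2.1 ∧ p.1 = p.2.2 with hN2
  set N3 : Finset (Fin n × Fin n × Fin n) :=
    Γ.triples.filter fun p => p.1 ≠ p.2.1 ∧ p.2.1 = p.2.2 with hN3
  have hsub : Γ.triples ⊆ D ∪ (N1 ∪ (N2 ∪ N3)) := by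
    intro p hp
    simp only [mem_union, hD, hN1, hN2, hN3, mem_filter, hp, true_and]
    tauto
  have hmem : ∀ p ∈ Γ.triples, Γ.hval p.1 p.2.1 p.2.2 ≠ 0 := by
    intro p hp
    unfold triples at hp
    exact (mem_filter.mp hp).2
  have c1 : N1.card ≤ (univ.filter fun p : Fin n × Fin n => ¬ Γ.arc p.1 p.2).card := by
    refine card_le_card_of_injOn (fun p => (p.1, p.2.2)) ?_ ?_
    · rintro ⟨a, b, c⟩ hp
      rw [hN1, coe_filter] at hp
      obtain ⟨h1, h2⟩ := hp
      have h3 := hmem _ h1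
      simp only at h2 h3
      subst h2
      rw [coe_filter]
      refine ⟨mem_univ _, ?_⟩
      change ¬ Γ.arc a c
      unfold hval at h3
      rw [Γ.code_self] at h3
      have := hv_aac _ (Γ.code_lt a c) h3
      rw [← Γ.code_eq_one]
      exact this
    · rintro ⟨a, b, c⟩ hp ⟨a', b', c'⟩ hp' h
      rw [hN1, coe_filter] at hp hp'
      have h2 := hp.2
      have h2' := hp'.2
      simp only [Prod.mk.injEq] at h h2 h2' ⊢
      exact ⟨h.1, by rw [← h2, ← h2', h.1], h.2⟩
  have c2 : N2.card ≤ (univ.filter fun p : Fin n × Fin n => p.1 ≠ p.2 ∧ ¬ Γ.arc p.1 p.2).card := by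
    refine card_le_card_of_injOn (fun p => (p.1, p.2.1)) ?_ ?_
    · rintro ⟨a, b, c⟩ hp
      rw [hN2, coe_filter] at hp
      obtain ⟨h1, h4, h2⟩ := hp
      have h3 := hmem _ h1
      simp only at h2 h3 h4
      subst h2
      rw [coe_filter]
      refine ⟨mem_univ _, h4, ?_⟩
      change ¬ Γ.arc a b
      unfold hval at h3
      rw [Γ.code_self, Γ.code_flip a b] at h3
      have := hv_aba _ (Γ.code_lt a b) h3
      rw [← Γ.code_eq_one]
      exact this
    · rintro ⟨a, b, c⟩ hp ⟨a', b', c'⟩ hp' h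
      rw [hN2, coe_filter] at hp hp'
      have h2 := hp.2.2
      have h2' := hp'.2.2
      simp only [Prod.mk.injEq] at h h2 h2' ⊢
      exact ⟨h.1, h.2, by rw [← h2, ← h2', h.1]⟩
  have c3 : N3.card ≤ (univ.filter fun p : Fin n × Fin n => p.1 ≠ p.2 ∧ ¬ Γ.arc p.1 p.2).card := by
    refine card_le_card_of_injOn (fun p => (p.2.1, p.1)) ?_ ?_
    · rintro ⟨a, b, c⟩ hp
      rw [hN3, coe_filter] at hp
      obtain ⟨h1, h4, h2⟩ := hp
      have h3 := hmem _ h1
      simp only at h2 h3 h4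
      subst h2
      rw [coe_filter]
      refine ⟨mem_univ _, Ne.symm h4, ?_⟩
      change ¬ Γ.arc b a
      unfold hval at h3
      rw [Γ.code_self] at h3
      have := hv_abb _ (Γ.code_lt a b) h3
      rw [← Γ.code_eq_two]
      exact this
    · rintro ⟨a, b, c⟩ hp ⟨a', b', c'⟩ hp' h
      rw [hN3, coe_filter] at hp hp'
      have h2 := hp.2.2
      have h2' := hp'.2.2
      simp only [Prod.mk.injEq] at h h2 h2' ⊢
      exact ⟨h.2, h.1, by rw [← h2, ← h2', h.1]⟩
  have h1 := card_le_card hsub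
  have h2 := card_union_le D (N1 ∪ (N2 ∪ N3))
  have h3 := card_union_le N1 (N2 ∪ N3)
  have h4 := card_union_le N2 N3
  have h5 : D.card ≤ 6 * Γ.fdf.card := by
    rw [hD]
    convert Γ.distinct_le
  have h6 := Γ.nonarcs_card
  have h7 := Γ.nonarcs_card'
  omega

end Orgraph

end Pool.Agent.H5
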