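import Pool.Agent.H5.FlagBase

/-!
# The Fon-Der-Flaass 3-graph of an oriented graph
-/

namespace Pool.Agent.H5

open Finset

/-- An oriented graph on `n` vertices: no loops and no pair of opposite arcs. -/
structure Orgraph (n : ℕ) where
  /-- `arc u v` says that there is an arc from `u` to `v`. -/
  arc : Fin n → Fin n → Prop
  /-- There are no loops and no pairs of opposite arcs. -/
  asymm : ∀ u v, arc u v → ¬ arc v u

namespace Orgraph

variable {n : ℕ} (Γ : Orgraph n)

/-- Two vertices are adjacent when there is an arc between them in one of the two directions. -/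
def Adj (u v : Fin n) : Prop := Γ.arc u v ∨ Γ.arc v u

/-- No induced directed 4-cycle: in a directed cycle `a → b → c → d → a` one of the two pairs of
opposite vertices is adjacent. -/
def NoInducedC4 : Prop :=
  ∀ a b c d, Γ.arc a b → Γ.arc b c → Γ.arc c d → Γ.arc d a → Γ.Adj a c ∨ Γ.Adj b d

/-- Edges of the Fon-Der-Flaass 3-graph: triples of vertices with a vertex that is adjacent to
neither of the other two, or a vertex with arcs to both of the other two. -/
def IsFdfEdge (s : Finset (Fin n)) : Prop :=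
  ∃ u v w, u ≠ v ∧ u ≠ w ∧ v ≠ w ∧ s = {u, v, w} ∧
    ((¬ Γ.Adj u v ∧ ¬ Γ.Adj u w) ∨ (Γ.arc u v ∧ Γ.arc u w))

open Classical in
/-- The Fon-Der-Flaass 3-graph. -/
noncomputable def fdf : Finset (Finset (Fin n)) := univ.filter Γ.IsFdfEdge

open Classical in
/-- The arcs of `Γ`; their number is the number of edges of the underlying undirected graph. -/
noncomputable def arcs : Finset (Fin n × Fin n) := univ.filter fun p => Γ.arc p.1 p.2

open Classical in
/-- Relation codes. -/
noncomputable def code (u v : Fin n) : ℕ := if Γ.arc u v then 1 else if Γ.arc v u then 2 else 0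

theorem code_lt (u v : Fin n) : Γ.code u v < 3 := by
  unfold code; split_ifs <;> norm_num

theorem code_flip (u v : Fin n) : Γ.code v u = flip3 (Γ.code u v) := by
  unfold code
  by_cases h1 : Γ.arc u v
  · have := Γ.asymm u v h1
    simp [h1, this, flip3]
  · by_cases h2 : Γ.arc v u
    · simp [h1, h2, flip3]
    · simp [h1, h2, flip3]

theorem code_eq_one (u v : Fin n) : Γ.code u v = 1 ↔ Γ.arc u v := by
  unfold code
  by_cases h1 : Γ.arc u v
  · simp [h1]
  · by_cases h2 : Γ.arc v u <;> simp [h1, h2]

theorem code_eq_two (u v : Fin n) : Γ.code u v = 2 ↔ Γ.arc v u := by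
  unfold code
  by_cases h1 : Γ.arc u v
  · have := Γ.asymm u v h1
    simp [h1, this]
  · by_cases h2 : Γ.arc v u <;> simp [h1, h2]

theorem code_eq_zero (u v : Fin n) : Γ.code u v = 0 ↔ ¬ Γ.Adj u v := by
  unfold code Adj
  by_cases h1 : Γ.arc u v
  · simp [h1]
  · by_cases h2 : Γ.arc v u <;> simp [h1, h2]

theorem noC4 (h : Γ.NoInducedC4) : NoC4 Γ.code := by
  intro a b c d h1 h2 h3 h4 h5 h6
  rw [code_eq_one] at h1 h2 h3 h4
  rw [code_eq_zero] at h5 h6
  rcases h a b c d h1 h2 h3 h4 with h | h
  · exact h5 h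
  · exact h6 h

/-- Pattern value of an ordered triple. -/
noncomputable def hval (a b c : Fin n) : ℕ := hv (Γ.code a b) (Γ.code a c) (Γ.code b c)

/-- A triple of distinct vertices whose pattern is an edge pattern is an edge of the 3-graph. -/
theorem mem_fdf_of_hval {a b c : Fin n} (hab : a ≠ b) (hac : a ≠ c) (hbc : b ≠ c)
    (h : Γ.hval a b c ≠ 0) : ({a, b, c} : Finset (Fin n)) ∈ Γ.fdf := by
  classical
  unfold fdf
  rw [mem_filter]
  refine ⟨mem_univ _, ?_⟩
  unfold hval hv at h
  have h' : (Γ.code a b = 0 ∧ Γ.code a c = 0) ∨ (Γ.code a b = 0 ∧ Γ.code b c = 0) ∨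
      (Γ.code a c = 0 ∧ Γ.code b c = 0) ∨ (Γ.code a b = 1 ∧ Γ.code a c = 1) ∨
      (Γ.code a b = 2 ∧ Γ.code b c = 1) ∨ (Γ.code a c = 2 ∧ Γ.code b c = 2) := by
    by_contra hc
    rw [if_neg hc] at h
    exact h rfl
  simp only [code_eq_zero, code_eq_one, code_eq_two] at h'
  have e1 : ({a, b, c} : Finset (Fin n)) = {b, a, c} := by
    ext x; simp only [mem_insert, mem_singleton]; tauto
  have e2 : ({a, b, c} : Finset (Fin n)) = {c, a, b} := by
    ext x; simp only [mem_insert, mem_singleton]; tauto
  have sym : ∀ x y, Γ.Adj x y ↔ Γ.Adj y x := fun x y => or_comm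
  rcases h' with h | h | h | h | h | h
  · exact ⟨a, b, c, hab, hac, hbc, rfl, Or.inl h⟩
  · exact ⟨b, a, c, hab.symm, hbc, hac, e1, Or.inl ⟨by rw [sym]; exact h.1, h.2⟩⟩
  · exact ⟨c, a, b, hac.symm, hbc.symm, hab, e2, Or.inl ⟨by rw [sym]; exact h.1, by rw [sym]; exact h.2⟩⟩
  · exact ⟨a, b, c, hab, hac, hbc, rfl, Or.inr h⟩
  · exact ⟨b, a, c, hab.symm, hbc, hac, e1, Or.inr h⟩
  · exact ⟨c, a, b, hac.symm, hbc.symm, hab, e2, Or.inr h⟩

theorem hval_le_one (a b c : Fin n) : Γ.hval a b c ≤ 1 := by
  unfold hval hv; split_ifs <;> norm_num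

/-- Ordered triples (with repetitions) of edge pattern. -/
noncomputable def triples : Finset (Fin n × Fin n × Fin n) :=
  univ.filter fun p => Γ.hval p.1 p.2.1 p.2.2 ≠ 0

theorem triples_card : (Γ.triples.card : ℤ) = ∑ a, ∑ b, ∑ c, (Γ.hval a b c : ℤ) := by
  unfold triples
  rw [card_filter]
  push_cast
  rw [Fintype.sum_prod_type]
  refine sum_congr rfl fun a _ => ?_
  rw [Fintype.sum_prod_type]
  refine sum_congr rfl fun b _ => ?_
  refine sum_congr rfl fun c _ => ?_
  have := Γ.hval_le_one a b c
  by_cases h : Γ.hval a b c = 0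
  · simp [h]
  · have : Γ.hval a b c = 1 := by omega
    simp [this]

/-- The set underlying an ordered triple. -/
def under (p : Fin n × Fin n × Fin n) : Finset (Fin n) := {p.1, p.2.1, p.2.2}

theorem fiber_le (s : Finset (Fin n)) (hs : s.card = 3) :
    (univ.filter fun p : Fin n × Fin n × Fin n => under p = s).card ≤ 6 := by
  classical
  obtain ⟨x, y, z, hxy, hxz, hyz, rfl⟩ := card_eq_three.mp hs
  have : (univ.filter fun p : Fin n × Fin n × Fin n => under p = {x, y, z}) ⊆
      {(x, y, z), (x, z, y), (y, x, z), (y, z, x), (z, x, y), (z, y, x)} := by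
    rintro ⟨a, b, c⟩ h
    rw [mem_filter] at h
    have h2 : ({a, b, c} : Finset (Fin n)) = {x, y, z} := h.2
    have ha : a ∈ ({x, y, z} : Finset (Fin n)) := by rw [← h2]; simp
    have hb : b ∈ ({x, y, z} : Finset (Fin n)) := by rw [← h2]; simp
    have hc : c ∈ ({x, y, z} : Finset (Fin n)) := by rw [← h2]; simp
    have hcard : ({a, b, c} : Finset (Fin n)).card = 3 := by rw [h2]; exact hs
    have hab : a ≠ b := by
      rintro rfl
      have : ({a, a, c} : Finset (Fin n)).card ≤ 2 := by
        rw [Finset.insert_idem]; exact card_le_two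
      omega
    have hac : a ≠ c := by
      rintro rfl
      have : ({a, b, a} : Finset (Fin n)).card ≤ 2 := by
        rw [Finset.insert_comm, Finset.insert_eq_of_mem (mem_singleton_self a)]; exact card_le_two
      omega
    have hbc : b ≠ c := by
      rintro rfl
      have : ({a, b, b} : Finset (Fin n)).card ≤ 2 := by
        rw [Finset.insert_eq_of_mem (mem_singleton_self b)]; exact card_le_two
      omega
    clear h h2 hcard hs
    simp only [mem_insert, mem_singleton, Prod.mk.injEq] at ha hb hc ⊢
    rcases ha with rfl | rfl | rfl <;> rcases hb with rfl | rfl | rfl <;>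
      rcases hc with rfl | rfl | rfl <;> simp_all
  exact (card_le_card this).trans (card_le_six)

/-- The number of ordered triples of edge pattern is at most six times the number of edges plus
a quadratic term for triples with repetitions. -/
theorem triples_le : Γ.triples.card ≤ 6 * Γ.fdf.card + 3 * n ^ 2 := by
  classical
  set D : Finset (Fin n × Fin n × Fin n) :=
    Γ.triples.filter fun p => p.1 ≠ p.2.1 ∧ p.1 ≠ p.2.2 ∧ p.2.1 ≠ p.2.2 with hD
  have hsub : Γ.triples ⊆ D ∪ ((univ.filter fun p : Fin n × Fin n × Fin n => p.1 = p.2.1) ∪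
      ((univ.filter fun p : Fin n × Fin n × Fin n => p.1 = p.2.2) ∪
      (univ.filter fun p : Fin n × Fin n × Fin n => p.2.1 = p.2.2))) := by
    intro p hp
    simp only [mem_union, hD, mem_filter, mem_univ, true_and]
    by_cases h1 : p.1 = p.2.1
    · tauto
    · by_cases h2 : p.1 = p.2.2
      · tauto
      · by_cases h3 : p.2.1 = p.2.2
        · tauto
        · tauto
  have c1 : (univ.filter fun p : Fin n × Fin n × Fin n => p.1 = p.2.1).card = n ^ 2 := by
    have : ∀ a b : Fin n, (∑ _c : Fin n, if a = b then 1 else 0) = if a = b then n else 0 := by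
      intro a b; split_ifs <;> simp
    rw [card_filter, Fintype.sum_prod_type]
    simp_rw [Fintype.sum_prod_type, this]
    simp [pow_two]
  have c2 : (univ.filter fun p : Fin n × Fin n × Fin n => p.1 = p.2.2).card = n ^ 2 := by
    rw [card_filter, Fintype.sum_prod_type]
    simp_rw [Fintype.sum_prod_type]
    simp [pow_two]
  have c3 : (univ.filter fun p : Fin n × Fin n × Fin n => p.2.1 = p.2.2).card = n ^ 2 := by
    rw [card_filter, Fintype.sum_prod_type]
    simp_rw [Fintype.sum_prod_type]
    simp [pow_two]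
  have hDle : D.card ≤ 6 * Γ.fdf.card := by
    have hmap : ∀ p ∈ D, under p ∈ Γ.fdf := by
      intro p hp
      rw [hD, mem_filter] at hp
      have h1 := hp.1
      unfold triples at h1
      rw [mem_filter] at h1
      exact Γ.mem_fdf_of_hval hp.2.1 hp.2.2.1 hp.2.2.2 h1.2
    refine card_le_mul_card_image_of_maps_to hmap 6 ?_
    intro s hs
    have hcard : s.card = 3 := by
      unfold fdf at hs
      rw [mem_filter] at hs
      obtain ⟨u, v, w, h1, h2, h3, rfl, _⟩ := hs.2
      exact card_eq_three.mpr ⟨u, v, w, h1, h2, h3, rfl⟩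
    refine le_trans (card_le_card ?_) (fiber_le s hcard)
    intro p hp
    rw [mem_filter] at hp ⊢
    exact ⟨mem_univ _, hp.2⟩
  have h1 := card_le_card hsub
  have h2 := card_union_le D ((univ.filter fun p : Fin n × Fin n × Fin n => p.1 = p.2.1) ∪
      ((univ.filter fun p : Fin n × Fin n × Fin n => p.1 = p.2.2) ∪
      (univ.filter fun p : Fin n × Fin n × Fin n => p.2.1 = p.2.2)))
  have h3 := card_union_le (univ.filter fun p : Fin n × Fin n × Fin n => p.1 = p.2.1)
      ((univ.filter fun p : Fin n × Fin n × Fin n => p.1 = p.2.2) ∪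
      (univ.filter fun p : Fin n × Fin n × Fin n => p.2.1 = p.2.2))
  have h4 := card_union_le (univ.filter fun p : Fin n × Fin n × Fin n => p.1 = p.2.2)
      (univ.filter fun p : Fin n × Fin n × Fin n => p.2.1 = p.2.2)
  omega

end Orgraph

end Pool.Agent.H5
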