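import Pool.Agent.H5.FDF

/-!
# Counting lemmas for the Fon-Der-Flaass 3-graph
-/

namespace Pool.Agent.H5

open Finset

namespace Orgraph

variable {n : ℕ} (Γ : Orgraph n)

theorem choose_two_real (n : ℕ) : ((n.choose 2 : ℕ) : ℝ) = n * (n - 1) / 2 := by
  exact Nat.cast_choose_two ℝ n

theorem choose_three_le (n : ℕ) : 6 * ((n.choose 3 : ℕ) : ℝ) ≤ n ^ 3 := by
  have h := Nat.choose_le_pow_div (α := ℝ) 3 n
  have : ((3 : ℕ).factorial : ℝ) = 6 := by norm_num [Nat.factorial]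
  rw [this] at h
  linarith

theorem choose_three_ge (n : ℕ) (hn : 4 ≤ n) : (n : ℝ) ^ 3 ≤ 24 * ((n.choose 3 : ℕ) : ℝ) := by
  obtain ⟨m, rfl⟩ : ∃ m, n = m + 2 := ⟨n - 2, by omega⟩
  have h1 : 6 * (m + 2).choose 3 = (m + 2) * (m + 1) * m := by
    have h := Nat.descFactorial_eq_factorial_mul_choose (m + 2) 3
    have h2 : (3 : ℕ).factorial = 6 := rfl
    rw [h2] at h
    rw [← h]
    simp only [Nat.descFactorial_succ, Nat.descFactorial_zero]
    have e1 : m + 2 - 2 = m := by omega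
    have e2 : m + 2 - 1 = m + 1 := by omega
    rw [e1, e2, Nat.sub_zero]
    ring
  have h2 : (6 : ℝ) * (((m + 2).choose 3 : ℕ) : ℝ) = (m + 2) * (m + 1) * m := by
    exact_mod_cast h1
  have hm : (2 : ℝ) ≤ m := by
    have : 2 ≤ m := by omega
    exact_mod_cast this
  push_cast
  nlinarith [mul_nonneg (sub_nonneg.mpr hm) (sub_nonneg.mpr hm), h2,
    mul_nonneg (mul_nonneg (sub_nonneg.mpr hm) (sub_nonneg.mpr hm)) (by linarith : (0 : ℝ) ≤ m)]

/-- From ordered triples with repetitions to edges. -/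
theorem edges_of_triples (c : ℝ) (hc0 : 0 ≤ c) (ε : ℝ) (hε : 0 < ε) :
    ∃ N : ℕ, ∀ n : ℕ, N ≤ n → ∀ Γ : Orgraph n,
      c * (n : ℝ) ^ 3 - (n : ℝ) ^ 2 ≤ (Γ.triples.card : ℝ) →
      (c - ε) * ((n.choose 3 : ℕ) : ℝ) ≤ (Γ.fdf.card : ℝ) := by
  obtain ⟨M, hM⟩ := exists_nat_gt (16 / ε)
  refine ⟨max 4 M, fun n hn Γ hT => ?_⟩
  have hn4 : 4 ≤ n := le_trans (le_max_left _ _) hn
  have hnM : (M : ℝ) ≤ n := by exact_mod_cast le_trans (le_max_right _ _) hn
  have h1 := Γ.triples_le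
  have h1' : (Γ.triples.card : ℝ) ≤ 6 * Γ.fdf.card + 3 * (n : ℝ) ^ 2 := by exact_mod_cast h1
  have h2 := choose_three_le n
  have h3 := choose_three_ge n hn4
  have hn0 : (0 : ℝ) < n := by
    have : 0 < n := by omega
    exact_mod_cast this
  have h4 : 16 ≤ ε * n := by
    have : 16 / ε < n := lt_of_lt_of_le hM hnM
    rw [div_lt_iff₀ hε] at this
    linarith
  have h5 : 16 * (n : ℝ) ^ 2 ≤ ε * (n : ℝ) ^ 3 := by
    have : (0 : ℝ) ≤ (n : ℝ) ^ 2 := by positivity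
    nlinarith
  have h6 : ε * (n : ℝ) ^ 3 ≤ ε * (24 * ((n.choose 3 : ℕ) : ℝ)) :=
    mul_le_mul_of_nonneg_left h3 hε.le
  have h7 : c * (6 * ((n.choose 3 : ℕ) : ℝ)) ≤ c * (n : ℝ) ^ 3 := mul_le_mul_of_nonneg_left h2 hc0
  linarith

open Classical in
theorem sum_adj : (∑ a, ∑ b, (if Γ.code a b = 0 then (0 : ℤ) else 1)) = 2 * Γ.arcs.card := by
  have h1 : ∀ a b, (if Γ.code a b = 0 then (0 : ℤ) else 1) =
      (if Γ.arc a b then 1 else 0) + (if Γ.arc b a then 1 else 0) := by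
    intro a b
    unfold code
    by_cases h1 : Γ.arc a b
    · have := Γ.asymm a b h1
      simp [h1, this]
    · by_cases h2 : Γ.arc b a <;> simp [h1, h2]
  simp_rw [h1, sum_add_distrib]
  have h2 : (∑ a, ∑ b, (if Γ.arc a b then (1 : ℤ) else 0)) = Γ.arcs.card := by
    unfold arcs
    rw [card_filter]
    push_cast
    rw [Fintype.sum_prod_type]
  rw [h2, sum_comm, h2]
  ring

/-- The certificate inequality in terms of ordered triples and arcs. -/
theorem linear_bound (D c2 c3 : ℤ)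
    (h : 0 ≤ ∑ a, ∑ b, ∑ c, (D * (Γ.hval a b c : ℤ) + (if Γ.code a b = 0 then 0 else c2) - c3)) :
    c3 * (n : ℤ) ^ 3 ≤ D * Γ.triples.card + 2 * c2 * n * Γ.arcs.card := by
  have e1 : ∑ a, ∑ b, ∑ c, (D * (Γ.hval a b c : ℤ) + (if Γ.code a b = 0 then 0 else c2) - c3)
      = D * Γ.triples.card + c2 * n * (2 * Γ.arcs.card) - c3 * (n : ℤ) ^ 3 := by
    rw [Γ.triples_card, ← Γ.sum_adj]
    simp_rw [sum_sub_distrib, sum_add_distrib, mul_sum]
    congr 1
    · congr 1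
      refine sum_congr rfl fun a _ => sum_congr rfl fun b _ => ?_
      rw [sum_const, card_univ, Fintype.card_fin, nsmul_eq_mul]
      split_ifs <;> ring
    · simp only [sum_const, card_univ, Fintype.card_fin, nsmul_eq_mul]
      ring
  rw [e1] at h
  linarith

end Orgraph

end Pool.Agent.H5
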