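import Pool.Agent.H5.FDF

/-!
# Fon-Der-Flaass: every four vertices span an edge
-/

namespace Pool.Agent.H5

open Finset

/-- Every pattern on four vertices has an edge pattern or an induced directed 4-cycle. -/
def FourProp (ab ac ad bc bd cd : ℕ) : Prop :=
    hv ab ac bc ≠ 0 ∨ hv ab ad bd ≠ 0 ∨ hv ac ad cd ≠ 0 ∨ hv bc bd cd ≠ 0 ∨
    (ab = 1 ∧ bc = 1 ∧ cd = 1 ∧ ad = 2 ∧ ac = 0 ∧ bd = 0) ∨
    (ab = 2 ∧ bc = 2 ∧ cd = 2 ∧ ad = 1 ∧ ac = 0 ∧ bd = 0) ∨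
    (ab = 1 ∧ bd = 1 ∧ cd = 2 ∧ ac = 2 ∧ ad = 0 ∧ bc = 0) ∨
    (ab = 2 ∧ bd = 2 ∧ cd = 1 ∧ ac = 1 ∧ ad = 0 ∧ bc = 0) ∨
    (ac = 1 ∧ bc = 2 ∧ bd = 1 ∧ ad = 2 ∧ ab = 0 ∧ cd = 0) ∨
    (ac = 2 ∧ bc = 1 ∧ bd = 2 ∧ ad = 1 ∧ ab = 0 ∧ cd = 0)

instance (ab ac ad bc bd cd : ℕ) : Decidable (FourProp ab ac ad bc bd cd) := by
  unfold FourProp; infer_instance

theorem four_check (ab ac ad bc bd cd : ℕ) (h1 : ab < 3) (h2 : ac < 3) (h3 : ad < 3) (h4 : bc < 3)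
    (h5 : bd < 3) (h6 : cd < 3) : FourProp ab ac ad bc bd cd := by
  have h : ∀ a b c d e f : Fin 3, FourProp a b c d e f := by decide +kernel
  exact h ⟨ab, h1⟩ ⟨ac, h2⟩ ⟨ad, h3⟩ ⟨bc, h4⟩ ⟨bd, h5⟩ ⟨cd, h6⟩

namespace Orgraph

variable {n : ℕ} (Γ : Orgraph n)

/-- If `Γ` has no induced directed 4-cycle, every four vertices contain an edge of the
Fon-Der-Flaass 3-graph (Fon-Der-Flaass 1988). -/
theorem fdf_turan (hC : Γ.NoInducedC4) (S : Finset (Fin n)) (hS : S.card = 4) :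
    ∃ e ∈ Γ.fdf, e ⊆ S := by
  classical
  obtain ⟨a, b, c, d, hab, hac, had, hbc, hbd, hcd, rfl⟩ := card_eq_four.mp hS
  have hadj : ∀ x y, Γ.code x y = 0 → ¬ Γ.Adj y x := by
    intro x y h
    rw [code_eq_zero] at h
    exact fun h' => h (Or.symm h')
  have hadj' : ∀ x y, Γ.code x y = 0 → ¬ Γ.Adj x y := fun x y h => (Γ.code_eq_zero x y).mp h
  have a1 : ∀ x y, Γ.code x y = 1 → Γ.arc x y := fun x y h => (Γ.code_eq_one x y).mp h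
  have a2 : ∀ x y, Γ.code x y = 2 → Γ.arc y x := fun x y h => (Γ.code_eq_two x y).mp h
  have sub : ∀ x y z : Fin n, x ∈ ({a, b, c, d} : Finset (Fin n)) → y ∈ ({a, b, c, d} : Finset (Fin n)) →
      z ∈ ({a, b, c, d} : Finset (Fin n)) → ({x, y, z} : Finset (Fin n)) ⊆ {a, b, c, d} := by
    intro x y z hx hy hz w hw
    simp only [mem_insert, mem_singleton] at hw
    rcases hw with rfl | rfl | rfl <;> assumption
  rcases four_check _ _ _ _ _ _ (Γ.code_lt a b) (Γ.code_lt a c) (Γ.code_lt a d) (Γ.code_lt b c)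
    (Γ.code_lt b d) (Γ.code_lt c d) with h | h | h | h | h | h | h | h | h | h
  · exact ⟨{a, b, c}, Γ.mem_fdf_of_hval hab hac hbc h, sub _ _ _ (by simp) (by simp) (by simp)⟩
  · exact ⟨{a, b, d}, Γ.mem_fdf_of_hval hab had hbd h, sub _ _ _ (by simp) (by simp) (by simp)⟩
  · exact ⟨{a, c, d}, Γ.mem_fdf_of_hval hac had hcd h, sub _ _ _ (by simp) (by simp) (by simp)⟩
  · exact ⟨{b, c, d}, Γ.mem_fdf_of_hval hbc hbd hcd h, sub _ _ _ (by simp) (by simp) (by simp)⟩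
  · exfalso
    obtain ⟨h1, h2, h3, h4, h5, h6⟩ := h
    rcases hC a b c d (a1 _ _ h1) (a1 _ _ h2) (a1 _ _ h3) (a2 _ _ h4) with h | h
    · exact hadj' _ _ h5 h
    · exact hadj' _ _ h6 h
  · exfalso
    obtain ⟨h1, h2, h3, h4, h5, h6⟩ := h
    rcases hC d c b a (a2 _ _ h3) (a2 _ _ h2) (a2 _ _ h1) (a1 _ _ h4) with h | h
    · exact hadj _ _ h6 h
    · exact hadj _ _ h5 h
  · exfalso
    obtain ⟨h1, h2, h3, h4, h5, h6⟩ := h
    rcases hC a b d c (a1 _ _ h1) (a1 _ _ h2) (a2 _ _ h3) (a2 _ _ h4) with h | h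
    · exact hadj' _ _ h5 h
    · exact hadj' _ _ h6 h
  · exfalso
    obtain ⟨h1, h2, h3, h4, h5, h6⟩ := h
    rcases hC c d b a (a1 _ _ h3) (a2 _ _ h2) (a2 _ _ h1) (a1 _ _ h4) with h | h
    · exact hadj _ _ h6 h
    · exact hadj _ _ h5 h
  · exfalso
    obtain ⟨h1, h2, h3, h4, h5, h6⟩ := h
    rcases hC a c b d (a1 _ _ h1) (a2 _ _ h2) (a1 _ _ h3) (a2 _ _ h4) with h | h
    · exact hadj' _ _ h5 h
    · exact hadj' _ _ h6 h
  · exfalso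
    obtain ⟨h1, h2, h3, h4, h5, h6⟩ := h
    rcases hC d b c a (a2 _ _ h3) (a1 _ _ h2) (a2 _ _ h1) (a1 _ _ h4) with h | h
    · exact hadj _ _ h6 h
    · exact hadj _ _ h5 h

end Orgraph

end Pool.Agent.H5
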