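import Pool.Agent.H5.FlagLink

/-!
# The three-vertex patterns that are edges of the Fon-Der-Flaass 3-graph
-/

namespace Pool.Agent.H5

/-- `hv a b c = 1` when the pattern with relation codes `a, b, c` of the pairs `(x,y)`, `(x,z)`,
`(y,z)` has a vertex with no arcs to or from the other two, or a vertex with arcs to both. -/
def hv (a b c : ℕ) : ℕ :=
  if (a = 0 ∧ b = 0) ∨ (a = 0 ∧ c = 0) ∨ (b = 0 ∧ c = 0) ∨ (a = 1 ∧ b = 1) ∨ (a = 2 ∧ c = 1)
    ∨ (b = 2 ∧ c = 2) then 1 else 0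

end Pool.Agent.H5
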