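import Pool.Agent.H5.FlagSum

/-!
# Order-five flag certificates for oriented graphs

`t u v` is the relation code of the ordered pair `(u,v)`: `0` no arc, `1` arc `u → v`,
`2` arc `v → u`.  A certificate consists of a linear functional `base` of the induced pattern on
three vertices and integer vectors `rows3`, `rows1`; if the symmetrised local expression is
nonnegative on every pattern of five vertices, then the sum of `base` over all triples is
nonnegative.
-/

namespace Pool.Agent.H5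

open Finset

/-- Code of the reversed pair. -/
def flip3 (t : ℕ) : ℕ := Nat.mod (Nat.sub 3 t) 3

/-- Code of a triple of relation codes. -/
def code3 (a b c : ℕ) : ℕ := Nat.add (Nat.add (Nat.mul 9 a) (Nat.mul 3 b)) c

/-- Inner product of integer lists. -/
def dot : List ℤ → List ℤ → ℤ
  | a :: u, b :: v => a * b + dot u v
  | _, _ => 0

theorem dot_comm : ∀ u v : List ℤ, dot u v = dot v u
  | [], [] => rfl
  | [], _ :: _ => rfl
  | _ :: _, [] => rfl
  | a :: u, b :: v => by simp only [dot]; rw [dot_comm u v, mul_comm]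

theorem dot_eq_sum : ∀ (N : ℕ) (u v : List ℤ), u.length ≤ N →
    dot u v = ∑ k ∈ range N, u.getD k 0 * v.getD k 0
  | N, [], v, _ => by simp [dot]
  | N, a :: u, [], _ => by simp [dot]
  | 0, a :: u, b :: v, h => by simp at h
  | N + 1, a :: u, b :: v, h => by
    have h' : u.length ≤ N := by simpa using h
    rw [Finset.sum_range_succ']
    simp only [dot, List.getD_cons_succ, List.getD_cons_zero]
    rw [dot_eq_sum N u v h', add_comm]

theorem dot_sum_nonneg {V : Type*} [Fintype V] (r : V → List ℤ) :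
    0 ≤ ∑ y, ∑ z, dot (r y) (r z) := by
  classical
  obtain ⟨N, hN⟩ : ∃ N, ∀ y, (r y).length ≤ N :=
    ⟨Finset.univ.sup (fun y => (r y).length), fun y => Finset.le_sup (f := fun y => (r y).length) (Finset.mem_univ y)⟩
  have h1 : ∑ y, ∑ z, dot (r y) (r z)
      = ∑ k ∈ range N, (∑ y, (r y).getD k 0) * (∑ z, (r z).getD k 0) := by
    simp_rw [fun y z => dot_eq_sum N (r y) (r z) (hN y)]
    have : ∀ y, ∑ z, ∑ k ∈ range N, (r y).getD k 0 * (r z).getD k 0
        = ∑ k ∈ range N, (r y).getD k 0 * ∑ z, (r z).getD k 0 := by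
      intro y
      rw [Finset.sum_comm]
      simp_rw [Finset.mul_sum]
    simp_rw [this]
    rw [Finset.sum_comm]
    simp_rw [Finset.sum_mul]
  rw [h1]
  exact Finset.sum_nonneg fun k _ => mul_self_nonneg _

section Main

variable {V : Type*} [Fintype V]

/-- Functions on five positions as nested tuples. -/
def fiveEquiv (V : Type*) : (V × V × V × V × V) ≃ (Fin 5 → V) where
  toFun p := ![p.1, p.2.1, p.2.2.1, p.2.2.2.1, p.2.2.2.2]
  invFun x := (x 0, x 1, x 2, x 3, x 4)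
  left_inv p := rfl
  right_inv x := by
    funext i
    fin_cases i <;> rfl

theorem sum_five (G : (Fin 5 → V) → ℤ) :
    ∑ x : Fin 5 → V, G x = ∑ a, ∑ b, ∑ c, ∑ d, ∑ e, G ![a, b, c, d, e] := by
  rw [← Equiv.sum_comp (fiveEquiv V) G]
  simp only [Fintype.sum_prod_type]
  rfl

variable (t : V → V → ℕ) (base : ℕ → ℤ) (rows3 : ℕ → ℕ → List ℤ) (rows1 : ℕ → List ℤ)

/-- Type-3 part of the local expression. -/
def F60 {V : Type*} (t : V → V → ℕ) (base : ℕ → ℤ) (rows3 : ℕ → ℕ → List ℤ)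
    (x : Fin 5 → V) : ℤ :=
  base (code3 (t (x 0) (x 1)) (t (x 0) (x 2)) (t (x 1) (x 2)))
    - dot (rows3 (code3 (t (x 0) (x 1)) (t (x 0) (x 2)) (t (x 1) (x 2)))
            (code3 (t (x 0) (x 3)) (t (x 1) (x 3)) (t (x 2) (x 3))))
          (rows3 (code3 (t (x 0) (x 1)) (t (x 0) (x 2)) (t (x 1) (x 2)))
            (code3 (t (x 0) (x 4)) (t (x 1) (x 4)) (t (x 2) (x 4))))

/-- Type-1 part of the local expression. -/
def F15 {V : Type*} (t : V → V → ℕ) (rows1 : ℕ → List ℤ) (x : Fin 5 → V) : ℤ :=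
  dot (rows1 (code3 (t (x 0) (x 1)) (t (x 0) (x 2)) (t (x 1) (x 2))))
      (rows1 (code3 (t (x 0) (x 3)) (t (x 0) (x 4)) (t (x 3) (x 4))))

theorem sum_F60_le :
    ∑ x : Fin 5 → V, F60 t base rows3 x ≤
      (Fintype.card V : ℤ) ^ 2 *
        ∑ a, ∑ b, ∑ c, base (code3 (t a b) (t a c) (t b c)) := by
  rw [sum_five]
  simp only [F60]
  have h0 : ∀ a b c : V,
      ∑ d, ∑ e, (base (code3 (t a b) (t a c) (t b c))
        - dot (rows3 (code3 (t a b) (t a c) (t b c)) (code3 (t a d) (t b d) (t c d)))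
          (rows3 (code3 (t a b) (t a c) (t b c)) (code3 (t a e) (t b e) (t c e))))
      ≤ (Fintype.card V : ℤ) ^ 2 * base (code3 (t a b) (t a c) (t b c)) := by
    intro a b c
    have hn := dot_sum_nonneg (fun d => rows3 (code3 (t a b) (t a c) (t b c)) (code3 (t a d) (t b d) (t c d)))
    simp only [Finset.sum_sub_distrib, Finset.sum_const, Finset.card_univ, nsmul_eq_mul]
    nlinarith [hn]
  calc _ ≤ ∑ a, ∑ b, ∑ c, (Fintype.card V : ℤ) ^ 2 * base (code3 (t a b) (t a c) (t b c)) := by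
        refine Finset.sum_le_sum fun a _ => Finset.sum_le_sum fun b _ => Finset.sum_le_sum fun c _ => ?_
        exact h0 a b c
    _ = _ := by
        simp_rw [Finset.mul_sum]

theorem sum_F15_nonneg : 0 ≤ ∑ x : Fin 5 → V, F15 t rows1 x := by
  rw [sum_five]
  simp only [F15]
  refine Finset.sum_nonneg fun a _ => ?_
  have := dot_sum_nonneg (fun p : V × V => rows1 (code3 (t a p.1) (t a p.2) (t p.1 p.2)))
  simp only [Fintype.sum_prod_type] at this
  exact this

/-- The basic positivity conclusion. -/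
theorem base_sum_nonneg
    (h : ∀ x : Fin 5 → V, 0 ≤ symF (fun y => F60 t base rows3 y - F15 t rows1 y) x) :
    0 ≤ ∑ a : V, ∑ b : V, ∑ c : V, base (code3 (t a b) (t a c) (t b c)) := by
  have h1 := sum_nonneg_of_symF _ h
  rw [Finset.sum_sub_distrib] at h1
  have h2 := sum_F60_le t base rows3
  have h3 := sum_F15_nonneg t rows1
  have h4 : 0 ≤ (Fintype.card V : ℤ) ^ 2 *
        ∑ a, ∑ b, ∑ c, base (code3 (t a b) (t a c) (t b c)) := by linarith
  rcases Nat.eq_zero_or_pos (Fintype.card V) with h5 | h5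
  · haveI : IsEmpty V := Fintype.card_eq_zero_iff.mp h5
    simp
  · have : (0 : ℤ) < (Fintype.card V : ℤ) ^ 2 := by positivity
    exact nonneg_of_mul_nonneg_right h4 this

end Main

section Local

variable {V : Type*} (t : V → V → ℕ) (base : ℕ → ℤ) (rows3 : ℕ → ℕ → List ℤ)
  (rows1 : ℕ → List ℤ)

/-- Local type-3 term in terms of a digit function `T`. -/
def w60 (base : ℕ → ℤ) (rows3 : ℕ → ℕ → List ℤ) (T : ℕ → ℕ → ℕ) (p : ℕ × ℕ × ℕ × ℕ × ℕ) : ℤ :=
  base (code3 (T p.1 p.2.1) (T p.1 p.2.2.1) (T p.2.1 p.2.2.1))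
    - dot (rows3 (code3 (T p.1 p.2.1) (T p.1 p.2.2.1) (T p.2.1 p.2.2.1))
            (code3 (T p.1 p.2.2.2.1) (T p.2.1 p.2.2.2.1) (T p.2.2.1 p.2.2.2.1)))
          (rows3 (code3 (T p.1 p.2.1) (T p.1 p.2.2.1) (T p.2.1 p.2.2.1))
            (code3 (T p.1 p.2.2.2.2) (T p.2.1 p.2.2.2.2) (T p.2.2.1 p.2.2.2.2)))

/-- Local type-1 term in terms of a digit function `T`. -/
def w15 (rows1 : ℕ → List ℤ) (T : ℕ → ℕ → ℕ) (p : ℕ × ℕ × ℕ × ℕ × ℕ) : ℤ :=
  dot (rows1 (code3 (T p.1 p.2.1) (T p.1 p.2.2.1) (T p.2.1 p.2.2.1)))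
      (rows1 (code3 (T p.1 p.2.2.2.1) (T p.1 p.2.2.2.2) (T p.2.2.2.1 p.2.2.2.2)))

/-- The digit function of a 5-tuple. -/
def digs {V : Type*} (t : V → V → ℕ) (x : Fin 5 → V) (i j : ℕ) : ℕ :=
  t (x (Fin.ofNat 5 i)) (x (Fin.ofNat 5 j))

theorem F60_toFn (x : Fin 5 → V) (p : ℕ × ℕ × ℕ × ℕ × ℕ) :
    F60 t base rows3 (x ∘ toFn p) = w60 base rows3 (digs t x) p := rfl

theorem F15_toFn (x : Fin 5 → V) (p : ℕ × ℕ × ℕ × ℕ × ℕ) :
    F15 t rows1 (x ∘ toFn p) = w15 rows1 (digs t x) p := rfl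

theorem F60_s34 (y : Fin 5 → V) : F60 t base rows3 (y ∘ s34) = F60 t base rows3 y := by
  simp only [F60, s34, toFn, Function.comp]
  congr 1
  exact dot_comm _ _

theorem F15_K8 (hflip : ∀ u v, t v u = flip3 (t u v)) (hlt : ∀ u v, t u v < 3)
    (hsym : ∀ a < 3, ∀ b < 3, ∀ c < 3, rows1 (code3 a b c) = rows1 (code3 b a (flip3 c)))
    (κ : Fin 5 → Fin 5) (hκ : κ ∈ K8) (y : Fin 5 → V) :
    F15 t rows1 (y ∘ κ) = F15 t rows1 y := by
  have hs : ∀ u v w, rows1 (code3 (t u w) (t u v) (t w v)) = rows1 (code3 (t u v) (t u w) (t v w)) := by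
    intro u v w
    rw [hsym _ (hlt u v) _ (hlt u w) _ (hlt v w), ← hflip]
  simp only [K8, K8t, List.map_cons, List.map_nil, List.mem_cons, List.not_mem_nil, or_false] at hκ
  rcases hκ with rfl | rfl | rfl | rfl | rfl | rfl | rfl | rfl
  · rfl
  · change dot (rows1 (code3 (t (y 0) (y 2)) (t (y 0) (y 1)) (t (y 2) (y 1))))
      (rows1 (code3 (t (y 0) (y 3)) (t (y 0) (y 4)) (t (y 3) (y 4)))) = _
    rw [hs]; rfl
  · change dot (rows1 (code3 (t (y 0) (y 1)) (t (y 0) (y 2)) (t (y 1) (y 2))))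
      (rows1 (code3 (t (y 0) (y 4)) (t (y 0) (y 3)) (t (y 4) (y 3)))) = _
    rw [hs (y 0) (y 3) (y 4)]; rfl
  · change dot (rows1 (code3 (t (y 0) (y 2)) (t (y 0) (y 1)) (t (y 2) (y 1))))
      (rows1 (code3 (t (y 0) (y 4)) (t (y 0) (y 3)) (t (y 4) (y 3)))) = _
    rw [hs (y 0) (y 3) (y 4), hs (y 0) (y 1) (y 2)]; rfl
  · change dot (rows1 (code3 (t (y 0) (y 3)) (t (y 0) (y 4)) (t (y 3) (y 4))))
      (rows1 (code3 (t (y 0) (y 1)) (t (y 0) (y 2)) (t (y 1) (y 2)))) = _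
    rw [dot_comm]; rfl
  · change dot (rows1 (code3 (t (y 0) (y 4)) (t (y 0) (y 3)) (t (y 4) (y 3))))
      (rows1 (code3 (t (y 0) (y 1)) (t (y 0) (y 2)) (t (y 1) (y 2)))) = _
    rw [hs (y 0) (y 3) (y 4), dot_comm]; rfl
  · change dot (rows1 (code3 (t (y 0) (y 3)) (t (y 0) (y 4)) (t (y 3) (y 4))))
      (rows1 (code3 (t (y 0) (y 2)) (t (y 0) (y 1)) (t (y 2) (y 1)))) = _
    rw [hs (y 0) (y 1) (y 2), dot_comm]; rfl
  · change dot (rows1 (code3 (t (y 0) (y 4)) (t (y 0) (y 3)) (t (y 4) (y 3))))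
      (rows1 (code3 (t (y 0) (y 2)) (t (y 0) (y 1)) (t (y 2) (y 1)))) = _
    rw [hs (y 0) (y 3) (y 4), hs (y 0) (y 1) (y 2), dot_comm]; rfl

/-- Evaluation of the symmetrised local expression. -/
theorem symF_eval (hflip : ∀ u v, t v u = flip3 (t u v)) (hlt : ∀ u v, t u v < 3)
    (hsym : ∀ a < 3, ∀ b < 3, ∀ c < 3, rows1 (code3 a b c) = rows1 (code3 b a (flip3 c)))
    (x : Fin 5 → V) :
    symF (fun y => F60 t base rows3 y - F15 t rows1 y) x =
      2 * (N60.map (w60 base rows3 (digs t x))).sum - 8 * (N15.map (w15 rows1 (digs t x))).sum := by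
  rw [symF_sub, symF_60 _ (F60_s34 t base rows3),
    symF_15 _ (fun κ hκ y => F15_K8 t rows1 hflip hlt hsym κ hκ y)]
  rfl

end Local

end Pool.Agent.H5
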