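import Pool.Agent.H5.FlagCert

/-!
# Enumeration of patterns on five vertices

Patterns are packed in base 4 (digit `5*i+j` is the relation code of the pair `(i,j)`).
Up to a permutation of the first four positions a pattern without induced directed 4-cycle is
one of 41 patterns on the first four vertices together with an arbitrary fifth vertex.
-/

namespace Pool.Agent.H5

open Finset

/-! ### Kernel-friendly loops -/

noncomputable def sumL {α : Type} (f : α → ℕ) (l : List α) : ℕ :=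
  List.rec (motive := fun _ => ℕ) 0 (fun a _ ih => Nat.add (f a) ih) l

noncomputable def allL {α : Type} (f : α → Bool) (l : List α) : Bool :=
  List.rec (motive := fun _ => Bool) true
    (fun a _ ih => Bool.rec (motive := fun _ => Bool) false ih (f a)) l

noncomputable def anyL {α : Type} (f : α → Bool) (l : List α) : Bool :=
  List.rec (motive := fun _ => Bool) false
    (fun a _ ih => Bool.rec (motive := fun _ => Bool) ih true (f a)) l

noncomputable def orB (a b : Bool) : Bool := Bool.rec (motive := fun _ => Bool) b true a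
noncomputable def andB (a b : Bool) : Bool := Bool.rec (motive := fun _ => Bool) false b a
noncomputable def iteN (a : Bool) (x y : ℕ) : ℕ := Bool.rec (motive := fun _ => ℕ) y x a

/-- Evaluate the number first, then apply the function. -/
noncomputable def forceN {β : Type} (n : ℕ) (k : ℕ → β) : β :=
  Nat.rec (motive := fun _ => β) (k 0) (fun m _ => k (Nat.succ m)) n

theorem forceN_eq {β : Type} (n : ℕ) (k : ℕ → β) : forceN n k = k n := by
  cases n <;> rfl

theorem sumL_eq {α : Type} (f : α → ℕ) (l : List α) : sumL f l = (l.map f).sum := by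
  induction l with
  | nil => rfl
  | cons a l ih =>
    rw [List.map_cons, List.sum_cons, ← ih]
    rfl

theorem allL_iff {α : Type} (f : α → Bool) (l : List α) :
    allL f l = true ↔ ∀ a ∈ l, f a = true := by
  induction l with
  | nil => simp [allL]
  | cons a l ih =>
    have h : allL f (a :: l) = Bool.rec (motive := fun _ => Bool) false (allL f l) (f a) := rfl
    rw [h, List.forall_mem_cons, ← ih]
    cases f a <;> simp

theorem anyL_iff {α : Type} (f : α → Bool) (l : List α) :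
    anyL f l = true ↔ ∃ a ∈ l, f a = true := by
  induction l with
  | nil => simp [anyL]
  | cons a l ih =>
    have h : anyL f (a :: l) = Bool.rec (motive := fun _ => Bool) (anyL f l) true (f a) := rfl
    rw [h, List.exists_mem_cons_iff, ← ih]
    cases f a <;> simp

theorem orB_iff (a b : Bool) : orB a b = true ↔ a = true ∨ b = true := by
  cases a <;> simp [orB]

theorem andB_iff (a b : Bool) : andB a b = true ↔ a = true ∧ b = true := by
  cases a <;> simp [andB]

theorem iteN_eq (a : Bool) (x y : ℕ) : iteN a x y = if a = true then x else y := by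
  cases a <;> simp [iteN]

/-! ### Packed digits -/

def dg (T i j : ℕ) : ℕ := Nat.mod (Nat.div T (Nat.pow 4 (Nat.add (Nat.mul 5 i) j))) 4

/-- Base-4 packing of 25 digits. -/
def pack (g : ℕ → ℕ) : ℕ := ∑ k ∈ range 25, g k * 4 ^ k

theorem digit_sum (n : ℕ) : ∀ (m : ℕ) (g : ℕ → ℕ), (∀ k, g k < 4) → m < n →
    (∑ k ∈ range n, g k * 4 ^ k) / 4 ^ m % 4 = g m := by
  induction n with
  | zero => intro m g _ h; omega
  | succ n ih =>
    intro m g hg hm
    rw [Finset.sum_range_succ']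
    have h1 : ∑ k ∈ range n, g (k + 1) * 4 ^ (k + 1)
        = 4 * ∑ k ∈ range n, g (k + 1) * 4 ^ k := by
      rw [Finset.mul_sum]
      refine Finset.sum_congr rfl fun k _ => ?_
      ring
    rw [h1]
    cases m with
    | zero =>
      have := hg 0
      simp
      omega
    | succ m =>
      have h2 : (4 * ∑ k ∈ range n, g (k + 1) * 4 ^ k + g 0 * 4 ^ 0) / 4 ^ (m + 1)
          = (∑ k ∈ range n, g (k + 1) * 4 ^ k) / 4 ^ m := by
        rw [pow_succ', ← Nat.div_div_eq_div_mul]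
        congr 1
        have := hg 0
        omega
      rw [h2]
      exact ih m (fun k => g (k + 1)) (fun k => hg (k + 1)) (by omega)

theorem dg_pack (g : ℕ → ℕ) (hg : ∀ k, g k < 4) (i j : ℕ) (hi : i < 5) (hj : j < 5) :
    dg (pack g) i j = g (5 * i + j) :=
  digit_sum 25 (5 * i + j) g hg (by omega)

/-! ### Enumeration data -/

/-- All 4-tuples of distinct positions starting with the smallest one. -/
def C30 : List ((ℕ → ℕ → ℕ → ℕ → Bool) → Bool) :=
  [
   fun k => k 0 1 2 3, fun k => k 0 1 2 4, fun k => k 0 1 3 2, fun k => k 0 1 3 4, fun k => k 0 1 4 2,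
   fun k => k 0 1 4 3, fun k => k 0 2 1 3, fun k => k 0 2 1 4, fun k => k 0 2 3 1, fun k => k 0 2 3 4,
   fun k => k 0 2 4 1, fun k => k 0 2 4 3, fun k => k 0 3 1 2, fun k => k 0 3 1 4, fun k => k 0 3 2 1,
   fun k => k 0 3 2 4, fun k => k 0 3 4 1, fun k => k 0 3 4 2, fun k => k 0 4 1 2, fun k => k 0 4 1 3,
   fun k => k 0 4 2 1, fun k => k 0 4 2 3, fun k => k 0 4 3 1, fun k => k 0 4 3 2, fun k => k 1 2 3 4,
   fun k => k 1 2 4 3, fun k => k 1 3 2 4, fun k => k 1 3 4 2, fun k => k 1 4 2 3, fun k => k 1 4 3 2]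

def C30t : List (ℕ × ℕ × ℕ × ℕ) :=
  [
   (0, 1, 2, 3), (0, 1, 2, 4), (0, 1, 3, 2), (0, 1, 3, 4), (0, 1, 4, 2), (0, 1, 4, 3),
   (0, 2, 1, 3), (0, 2, 1, 4), (0, 2, 3, 1), (0, 2, 3, 4), (0, 2, 4, 1), (0, 2, 4, 3),
   (0, 3, 1, 2), (0, 3, 1, 4), (0, 3, 2, 1), (0, 3, 2, 4), (0, 3, 4, 1), (0, 3, 4, 2),
   (0, 4, 1, 2), (0, 4, 1, 3), (0, 4, 2, 1), (0, 4, 2, 3), (0, 4, 3, 1), (0, 4, 3, 2),
   (1, 2, 3, 4), (1, 2, 4, 3), (1, 3, 2, 4), (1, 3, 4, 2), (1, 4, 2, 3), (1, 4, 3, 2)]

/-- The permutations of four positions. -/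
def P24 : List ((ℕ → ℕ → ℕ → ℕ → Bool) → Bool) :=
  [
   fun k => k 0 1 2 3, fun k => k 0 1 3 2, fun k => k 0 2 1 3, fun k => k 0 2 3 1, fun k => k 0 3 1 2,
   fun k => k 0 3 2 1, fun k => k 1 0 2 3, fun k => k 1 0 3 2, fun k => k 1 2 0 3, fun k => k 1 2 3 0,
   fun k => k 1 3 0 2, fun k => k 1 3 2 0, fun k => k 2 0 1 3, fun k => k 2 0 3 1, fun k => k 2 1 0 3,
   fun k => k 2 1 3 0, fun k => k 2 3 0 1, fun k => k 2 3 1 0, fun k => k 3 0 1 2, fun k => k 3 0 2 1,
   fun k => k 3 1 0 2, fun k => k 3 1 2 0, fun k => k 3 2 0 1, fun k => k 3 2 1 0]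

def P24t : List (ℕ × ℕ × ℕ × ℕ) :=
  [
   (0, 1, 2, 3), (0, 1, 3, 2), (0, 2, 1, 3), (0, 2, 3, 1), (0, 3, 1, 2), (0, 3, 2, 1),
   (1, 0, 2, 3), (1, 0, 3, 2), (1, 2, 0, 3), (1, 2, 3, 0), (1, 3, 0, 2), (1, 3, 2, 0),
   (2, 0, 1, 3), (2, 0, 3, 1), (2, 1, 0, 3), (2, 1, 3, 0), (2, 3, 0, 1), (2, 3, 1, 0),
   (3, 0, 1, 2), (3, 0, 2, 1), (3, 1, 0, 2), (3, 1, 2, 0), (3, 2, 0, 1), (3, 2, 1, 0)]

def N60c : List ((ℕ → ℕ → ℕ → ℕ → ℕ → ℕ) → ℕ) :=
  [
   fun k => k 0 1 2 3 4, fun k => k 0 1 3 2 4, fun k => k 0 1 4 2 3, fun k => k 0 2 1 3 4,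
   fun k => k 0 2 3 1 4, fun k => k 0 2 4 1 3, fun k => k 0 3 1 2 4, fun k => k 0 3 2 1 4,
   fun k => k 0 3 4 1 2, fun k => k 0 4 1 2 3, fun k => k 0 4 2 1 3, fun k => k 0 4 3 1 2,
   fun k => k 1 0 2 3 4, fun k => k 1 0 3 2 4, fun k => k 1 0 4 2 3, fun k => k 1 2 0 3 4,
   fun k => k 1 2 3 0 4, fun k => k 1 2 4 0 3, fun k => k 1 3 0 2 4, fun k => k 1 3 2 0 4,
   fun k => k 1 3 4 0 2, fun k => k 1 4 0 2 3, fun k => k 1 4 2 0 3, fun k => k 1 4 3 0 2,
   fun k => k 2 0 1 3 4, fun k => k 2 0 3 1 4, fun k => k 2 0 4 1 3, fun k => k 2 1 0 3 4,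
   fun k => k 2 1 3 0 4, fun k => k 2 1 4 0 3, fun k => k 2 3 0 1 4, fun k => k 2 3 1 0 4,
   fun k => k 2 3 4 0 1, fun k => k 2 4 0 1 3, fun k => k 2 4 1 0 3, fun k => k 2 4 3 0 1,
   fun k => k 3 0 1 2 4, fun k => k 3 0 2 1 4, fun k => k 3 0 4 1 2, fun k => k 3 1 0 2 4,
   fun k => k 3 1 2 0 4, fun k => k 3 1 4 0 2, fun k => k 3 2 0 1 4, fun k => k 3 2 1 0 4,
   fun k => k 3 2 4 0 1, fun k => k 3 4 0 1 2, fun k => k 3 4 1 0 2, fun k => k 3 4 2 0 1,
   fun k => k 4 0 1 2 3, fun k => k 4 0 2 1 3, fun k => k 4 0 3 1 2, fun k => k 4 1 0 2 3,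
   fun k => k 4 1 2 0 3, fun k => k 4 1 3 0 2, fun k => k 4 2 0 1 3, fun k => k 4 2 1 0 3,
   fun k => k 4 2 3 0 1, fun k => k 4 3 0 1 2, fun k => k 4 3 1 0 2, fun k => k 4 3 2 0 1]

def N15c : List ((ℕ → ℕ → ℕ → ℕ → ℕ → ℕ) → ℕ) :=
  [
   fun k => k 0 1 2 3 4, fun k => k 0 1 3 2 4, fun k => k 0 1 4 2 3, fun k => k 1 0 2 3 4,
   fun k => k 1 0 3 2 4, fun k => k 1 0 4 2 3, fun k => k 2 0 1 3 4, fun k => k 2 0 3 1 4,
   fun k => k 2 0 4 1 3, fun k => k 3 0 1 2 4, fun k => k 3 0 2 1 4, fun k => k 3 0 4 1 2,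
   fun k => k 4 0 1 2 3, fun k => k 4 0 2 1 3, fun k => k 4 0 3 1 2]

/-- Packed representatives of the patterns on the first four positions. -/
def reps : List ℕ :=
  [
   0, 34426847232, 43016847360, 25904087040, 21609185280, 43025252352,
   38730350592, 45164331072, 28051570752, 23756668992, 2155888704, 36582735936,
   10745888832, 45172736064, 28059975744, 6450987072, 40877834304, 23765073984,
   22682927232, 9672147072, 44098994304, 26986233984, 39804092544, 22691332224,
   10747986000, 45174833232, 6453084240, 40879931472, 23767171152, 6448906320,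
   40875753552, 39806189712, 22693429392, 44096913552, 39802011792, 22689251472,
   39800963232, 45174835284, 40879933524, 44101093524, 26988333204]

/-- Packed extensions by the fifth position. -/
def exts : List ℕ :=
  [
   0, 141012366262272, 70918499991552, 35184640524288, 176197006786560, 106103140515840,
   17592722915328, 158605089177600, 88511222906880, 8796093284352, 149808459546624, 79714593275904,
   43980733808640, 184993100070912, 114899233800192, 26388816199680, 167401182461952, 97307316191232,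
   4398047035392, 145410413297664, 75316547026944, 39582687559680, 180595053821952, 110501187551232,
   21990769950720, 163003136212992, 92909269942272, 2199023255808, 143211389518080, 73117523247360,
   37383663780096, 178396030042368, 108302163771648, 19791746171136, 160804112433408, 90710246162688,
   10995116540160, 152007482802432, 81913616531712, 46179757064448, 187192123326720, 117098257056000,
   28587839455488, 169600205717760, 99506339447040, 6597070291200, 147609436553472, 77515570282752,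
   41781710815488, 182794077077760, 112700210807040, 24189793206528, 165202159468800, 95108293198080,
   1099511628288, 142111877890560, 72018011619840, 36284152152576, 177296518414848, 107202652144128,
   18692234543616, 159704600805888, 89610734535168, 9895604912640, 150907971174912, 80814104904192,
   45080245436928, 186092611699200, 115998745428480, 27488327827968, 168500694090240, 98406827819520,
   5497558663680, 146509924925952, 76416058655232, 40682199187968, 181694565450240, 111600699179520,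
   23090281579008, 164102647841280, 94008781570560]

theorem C30_eq : C30 = C30t.map (fun p k => k p.1 p.2.1 p.2.2.1 p.2.2.2) := rfl
theorem P24_eq : P24 = P24t.map (fun p k => k p.1 p.2.1 p.2.2.1 p.2.2.2) := rfl
theorem N60c_eq : N60c = N60.map (fun p k => k p.1 p.2.1 p.2.2.1 p.2.2.2.1 p.2.2.2.2) := rfl
theorem N15c_eq : N15c = N15.map (fun p k => k p.1 p.2.1 p.2.2.1 p.2.2.2.1 p.2.2.2.2) := rfl

/-- Test for an induced directed 4-cycle. -/
noncomputable def hasC4 (T : ℕ) : Bool :=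
  anyL (fun p => p (fun i j k l =>
    andB (Nat.beq (dg T i j) 1) (andB (Nat.beq (dg T j k) 1) (andB (Nat.beq (dg T k l) 1)
      (andB (Nat.beq (dg T l i) 1) (andB (Nat.beq (dg T i k) 0) (Nat.beq (dg T j l) 0))))))) C30

theorem hasC4_iff (T : ℕ) : hasC4 T = true →
    ∃ i < 5, ∃ j < 5, ∃ k < 5, ∃ l < 5,
      dg T i j = 1 ∧ dg T j k = 1 ∧ dg T k l = 1 ∧ dg T l i = 1 ∧ dg T i k = 0 ∧ dg T j l = 0 := by
  intro h
  unfold hasC4 at h
  rw [C30_eq, anyL_iff] at h
  obtain ⟨a, ha, h⟩ := h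
  rw [List.mem_map] at ha
  obtain ⟨p, hp, rfl⟩ := ha
  simp only [andB_iff, Nat.beq_eq] at h
  have hlt : ∀ p ∈ C30t, p.1 < 5 ∧ p.2.1 < 5 ∧ p.2.2.1 < 5 ∧ p.2.2.2 < 5 := by decide +kernel
  obtain ⟨h1, h2, h3, h4⟩ := hlt p hp
  exact ⟨p.1, h1, p.2.1, h2, p.2.2.1, h3, p.2.2.2, h4, h⟩

/-- Packing of a pattern on the first four positions. -/
def R6 (a01 a02 a03 a12 a13 a23 : ℕ) : ℕ :=
  Nat.add (Nat.add (Nat.add (Nat.mul a01 4) (Nat.mul (flip3 a01) 1024))
   (Nat.add (Nat.mul a02 16) (Nat.mul (flip3 a02) 1048576)))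
   (Nat.add (Nat.add (Nat.add (Nat.mul a03 64) (Nat.mul (flip3 a03) 1073741824))
     (Nat.add (Nat.mul a12 16384) (Nat.mul (flip3 a12) 4194304)))
     (Nat.add (Nat.add (Nat.mul a13 65536) (Nat.mul (flip3 a13) 4294967296))
      (Nat.add (Nat.mul a23 67108864) (Nat.mul (flip3 a23) 17179869184))))

/-- Packing of an extension. -/
def E4 (e0 e1 e2 e3 : ℕ) : ℕ :=
  e0 * 4 ^ 4 + flip3 e0 * 4 ^ 20 + (e1 * 4 ^ 9 + flip3 e1 * 4 ^ 21)
    + (e2 * 4 ^ 14 + flip3 e2 * 4 ^ 22) + (e3 * 4 ^ 19 + flip3 e3 * 4 ^ 23)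

theorem E4_mem : ∀ e0 < 3, ∀ e1 < 3, ∀ e2 < 3, ∀ e3 < 3, E4 e0 e1 e2 e3 ∈ exts := by
  decide +kernel

noncomputable def test4 (T : ℕ) : Bool :=
  orB (hasC4 T) (anyL (fun p => p (fun i j k l =>
    forceN (R6 (dg T i j) (dg T i k) (dg T i l) (dg T j k) (dg T j l) (dg T k l))
      (fun P => anyL (fun r => Nat.beq P r) reps))) P24)

noncomputable def test4all : Bool :=
  allL (fun a => allL (fun b => allL (fun c => allL (fun d => allL (fun e => allL (fun f =>
    forceN (R6 a b c d e f) test4) [0, 1, 2]) [0, 1, 2]) [0, 1, 2]) [0, 1, 2]) [0, 1, 2]) [0, 1, 2]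

theorem test4all_true : test4all = true := by decide +kernel

theorem test4_all (a b c d e f : ℕ) (ha : a < 3) (hb : b < 3) (hc : c < 3) (hd : d < 3)
    (he : e < 3) (hf : f < 3) : test4 (R6 a b c d e f) = true := by
  have h := test4all_true
  unfold test4all at h
  have m : ∀ n, n < 3 → n ∈ [0, 1, 2] := by
    intro n hn
    interval_cases n <;> simp
  rw [allL_iff] at h
  have h1 := h a (m a ha)
  rw [allL_iff] at h1
  have h2 := h1 b (m b hb)
  rw [allL_iff] at h2
  have h3 := h2 c (m c hc)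
  rw [allL_iff] at h3
  have h4 := h3 d (m d hd)
  rw [allL_iff] at h4
  have h5 := h4 e (m e he)
  rw [allL_iff] at h5
  have h6 := h5 f (m f hf)
  rw [forceN_eq] at h6
  exact h6

end Pool.Agent.H5
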