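import Pool.Agent.H5.FlagMain

/-!
# Linking kernel-checked tables with certificates
-/

namespace Pool.Agent.H5

open Finset

/-- Kernel-friendly inner product. -/
noncomputable def zdot (u : List ℤ) : List ℤ → ℤ :=
  List.rec (motive := fun _ => List ℤ → ℤ) (fun _ => 0)
    (fun a _ ih v => List.rec (motive := fun _ => ℤ) 0 (fun b w _ => Int.add (Int.mul a b) (ih w)) v) u

theorem zdot_eq : ∀ u v : List ℤ, zdot u v = dot u v
  | [], v => by cases v <;> rfl
  | _ :: _, [] => rfl
  | a :: u, b :: v => by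
    change a * b + zdot u v = a * b + dot u v
    rw [zdot_eq u v]

/-- `rowT l n f`: `f` holds at all indexed elements of `l`, indices starting at `n`. -/
noncomputable def rowT (l : List (List ℤ)) (n : ℕ) (f : ℕ → List ℤ → Bool) : Bool :=
  List.rec (motive := fun _ => ℕ → Bool) (fun _ => true)
    (fun a _ ih n => andB (f n a) (ih (Nat.succ n))) l n

theorem rowT_spec (f : ℕ → List ℤ → Bool) : ∀ (l : List (List ℤ)) (n : ℕ), rowT l n f = true →
    ∀ i < l.length, f (n + i) (l.getD i []) = true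
  | [], _, _, i, hi => by simp at hi
  | a :: l, n, h, i, hi => by
    have h' : andB (f n a) (rowT l (n + 1) f) = true := h
    rw [andB_iff] at h'
    cases i with
    | zero => exact h'.1
    | succ i =>
      have := rowT_spec f l (n + 1) h'.2 i (by simpa using hi)
      rw [List.getD_cons_succ]
      rw [← this]
      congr 1
      omega

section

variable (bt ctab : ℕ → ℕ) (zlook : ℕ → ℕ → ℕ → ℕ) (rlook : ℕ → ℕ → ℕ) (OFF OFFR C3 : ℕ)
  (rowsTab : List (List (List ℤ))) (rows1Tab : List (List ℤ))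

noncomputable def qterm (T τ i j k l m : ℕ) : ℕ :=
  forceN (ctab τ) (fun c => Nat.add (bt τ) (iteN (Nat.beq c 7) OFF
    (zlook c (code3 (dg T i l) (dg T j l) (dg T k l)) (code3 (dg T i m) (dg T j m) (dg T k m)))))

noncomputable def qsum (T : ℕ) : ℕ :=
  sumL (fun p => p (fun i j k l m =>
    forceN (code3 (dg T i j) (dg T i k) (dg T j k))
      (fun τ => qterm bt ctab zlook OFF T τ i j k l m))) N60c

noncomputable def rsum (T : ℕ) : ℕ :=
  sumL (fun p => p (fun i j k l m =>
    rlook (code3 (dg T i j) (dg T i k) (dg T j k)) (code3 (dg T i l) (dg T i m) (dg T l m)))) N15c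

noncomputable def patOK (T : ℕ) : Bool :=
  orB (hasC4 T) (Nat.ble (Nat.add (Nat.mul 60 (Nat.add C3 OFF)) (Nat.mul 4 (rsum rlook T)))
    (Nat.add (qsum bt ctab zlook OFF T) (Nat.mul 60 OFFR)))

noncomputable def repOK (r : ℕ) : Bool :=
  allL (fun e => forceN (Nat.add r e) (patOK bt ctab zlook rlook OFF OFFR C3)) exts

/-- Table check for one type. -/
noncomputable def zOK (l : List (List ℤ)) (c : ℕ) : Bool :=
  rowT l 0 (fun f u => rowT l 0 (fun g v =>
    decide (Int.add (zdot u v) (Int.ofNat (zlook c f g)) = Int.ofNat OFF)))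

/-- Table check for the one-vertex type. -/
noncomputable def rOK (l : List (List ℤ)) : Bool :=
  rowT l 0 (fun f u => rowT l 0 (fun g v =>
    decide (Int.add (zdot u v) (Int.ofNat OFFR) = Int.ofNat (rlook f g))))

theorem zOK_spec (l : List (List ℤ)) (c : ℕ) (hl : l.length = 27) (h : zOK zlook OFF l c = true)
    (f g : ℕ) (hf : f < 27) (hg : g < 27) :
    (zlook c f g : ℤ) = OFF - dot (l.getD f []) (l.getD g []) := by
  unfold zOK at h
  have h1 := rowT_spec _ l 0 h f (by omega)
  have h2 := rowT_spec _ l 0 h1 g (by omega)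
  rw [decide_eq_true_eq] at h2
  simp only [Nat.zero_add] at h2
  rw [zdot_eq] at h2
  change dot (l.getD f []) (l.getD g []) + (zlook c f g : ℤ) = (OFF : ℤ) at h2
  linarith

theorem rOK_spec (l : List (List ℤ)) (hl : l.length = 27) (h : rOK rlook OFFR l = true)
    (f g : ℕ) (hf : f < 27) (hg : g < 27) :
    (rlook f g : ℤ) = OFFR + dot (l.getD f []) (l.getD g []) := by
  unfold rOK at h
  have h1 := rowT_spec _ l 0 h f (by omega)
  have h2 := rowT_spec _ l 0 h1 g (by omega)
  rw [decide_eq_true_eq] at h2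
  simp only [Nat.zero_add] at h2
  rw [zdot_eq] at h2
  change dot (l.getD f []) (l.getD g []) + (OFFR : ℤ) = (rlook f g : ℤ) at h2
  linarith

/-- The rows of a certificate. -/
def rows3Of (τ f : ℕ) : List ℤ := (rowsTab.getD (ctab τ) []).getD f []

def rows1Of (f : ℕ) : List ℤ := rows1Tab.getD f []

def baseOf (τ : ℕ) : ℤ := (bt τ : ℤ) - C3

theorem code3_lt {a b c : ℕ} (ha : a < 3) (hb : b < 3) (hc : c < 3) : code3 a b c < 27 := by
  change 9 * a + 3 * b + c < 27
  omega

theorem cast_list_sum {α : Type} (l : List α) (f : α → ℕ) :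
    (((l.map f).sum : ℕ) : ℤ) = (l.map (fun p => (f p : ℤ))).sum := by
  induction l with
  | nil => rfl
  | cons a l ih => simp [ih]

theorem patOK_spec (hlen : rowsTab.length = 7)
    (hz : ∀ c < 7, ∀ f < 27, ∀ g < 27, (zlook c f g : ℤ) =
      OFF - dot ((rowsTab.getD c []).getD f []) ((rowsTab.getD c []).getD g []))
    (hct : ∀ τ < 27, ctab τ < 8)
    (hr : ∀ f < 27, ∀ g < 27, (rlook f g : ℤ) = OFFR + dot (rows1Tab.getD f []) (rows1Tab.getD g []))
    (T : ℕ) (hT : ∀ i j, i < 5 → j < 5 → dg T i j < 3)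
    (h : patOK bt ctab zlook rlook OFF OFFR C3 T = true) :
    hasC4 T = true ∨
      4 * (N15.map (w15 (rows1Of rows1Tab) (dg T))).sum ≤
        (N60.map (w60 (baseOf bt C3) (rows3Of ctab rowsTab) (dg T))).sum := by
  unfold patOK at h
  rw [orB_iff] at h
  rcases h with h | h
  · exact Or.inl h
  right
  have h' : 60 * (C3 + OFF) + 4 * rsum rlook T ≤ qsum bt ctab zlook OFF T + 60 * OFFR :=
    Nat.le_of_ble_eq_true h
  have e1 : (rsum rlook T : ℤ) = (N15.map (w15 (rows1Of rows1Tab) (dg T))).sum + 15 * OFFR := by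
    unfold rsum
    rw [sumL_eq, N15c_eq, List.map_map, cast_list_sum]
    have : ∀ p ∈ N15, (((((fun p => p (fun i j k l m =>
        rlook (code3 (dg T i j) (dg T i k) (dg T j k)) (code3 (dg T i l) (dg T i m) (dg T l m)))) ∘
        (fun (p : ℕ × ℕ × ℕ × ℕ × ℕ) (k : ℕ → ℕ → ℕ → ℕ → ℕ → ℕ) =>
          k p.1 p.2.1 p.2.2.1 p.2.2.2.1 p.2.2.2.2)) p : ℕ) : ℤ))
        = w15 (rows1Of rows1Tab) (dg T) p + OFFR := by
      intro p hp
      obtain ⟨p1, p2, p3, p4, p5⟩ := N15_lt p hp
      simp only [Function.comp]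
      rw [hr _ (code3_lt (hT _ _ p1 p2) (hT _ _ p1 p3) (hT _ _ p2 p3)) _
        (code3_lt (hT _ _ p1 p4) (hT _ _ p1 p5) (hT _ _ p4 p5))]
      unfold w15 rows1Of
      ring
    rw [List.map_congr_left this, List.sum_map_add]
    have hl : N15.length = 15 := by decide +kernel
    rw [List.map_const', List.sum_replicate, hl]
    ring
  have e2 : (qsum bt ctab zlook OFF T : ℤ) =
      (N60.map (w60 (baseOf bt C3) (rows3Of ctab rowsTab) (dg T))).sum + 60 * (C3 + OFF) := by
    unfold qsum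
    rw [sumL_eq, N60c_eq, List.map_map, cast_list_sum]
    have : ∀ p ∈ N60, (((((fun p => p (fun i j k l m =>
        forceN (code3 (dg T i j) (dg T i k) (dg T j k))
          (fun τ => qterm bt ctab zlook OFF T τ i j k l m))) ∘
        (fun (p : ℕ × ℕ × ℕ × ℕ × ℕ) (k : ℕ → ℕ → ℕ → ℕ → ℕ → ℕ) =>
          k p.1 p.2.1 p.2.2.1 p.2.2.2.1 p.2.2.2.2)) p : ℕ) : ℤ))
        = w60 (baseOf bt C3) (rows3Of ctab rowsTab) (dg T) p + (C3 + OFF) := by
      intro p hp
      obtain ⟨p1, p2, p3, p4, p5⟩ := N60_lt p hp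
      simp only [Function.comp]
      rw [forceN_eq]
      have hτ := code3_lt (hT _ _ p1 p2) (hT _ _ p1 p3) (hT _ _ p2 p3)
      have hf := code3_lt (hT _ _ p1 p4) (hT _ _ p2 p4) (hT _ _ p3 p4)
      have hg := code3_lt (hT _ _ p1 p5) (hT _ _ p2 p5) (hT _ _ p3 p5)
      unfold w60
      generalize code3 (dg T p.1 p.2.1) (dg T p.1 p.2.2.1) (dg T p.2.1 p.2.2.1) = τ at hτ
      unfold qterm
      generalize code3 (dg T p.1 p.2.2.2.1) (dg T p.2.1 p.2.2.2.1) (dg T p.2.2.1 p.2.2.2.1) = f at hf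
      generalize code3 (dg T p.1 p.2.2.2.2) (dg T p.2.1 p.2.2.2.2) (dg T p.2.2.1 p.2.2.2.2) = g at hg
      rw [forceN_eq, iteN_eq]
      have hc := hct τ hτ
      unfold baseOf rows3Of
      by_cases h7 : ctab τ = 7
      · have hn : rowsTab.getD 7 [] = [] := List.getD_eq_default _ _ (by omega)
        rw [h7, hn]
        rw [if_pos (by rfl)]
        have : dot (([] : List (List ℤ)).getD f []) (([] : List (List ℤ)).getD g []) = 0 := by
          simp [dot]
        rw [this]
        change ((bt τ + OFF : ℕ) : ℤ) = _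
        push_cast
        ring
      · rw [if_neg (by intro hh; exact h7 (Nat.eq_of_beq_eq_true hh))]
        change ((bt τ + zlook (ctab τ) f g : ℕ) : ℤ) = _
        push_cast
        rw [hz _ (by omega) f hf g hg]
        ring
    rw [List.map_congr_left this, List.sum_map_add]
    have hl : N60.length = 60 := by decide +kernel
    rw [List.map_const', List.sum_replicate, hl]
    ring
  have h'' : (60 * (C3 + OFF) + 4 * (rsum rlook T : ℤ)) ≤ qsum bt ctab zlook OFF T + 60 * OFFR := by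
    exact_mod_cast h'
  rw [e1, e2] at h''
  linarith

theorem dg_lt_check : (allL (fun r => allL (fun e => forceN (Nat.add r e) (fun T =>
    allL (fun i => allL (fun j => Nat.ble (dg T i j) 2) [0, 1, 2, 3, 4]) [0, 1, 2, 3, 4])) exts) reps)
    = true := by decide +kernel

theorem dg_lt_of_mem (r : ℕ) (hr : r ∈ reps) (e : ℕ) (he : e ∈ exts) (i j : ℕ) (hi : i < 5)
    (hj : j < 5) : dg (r + e) i j < 3 := by
  have h := dg_lt_check
  rw [allL_iff] at h
  have h1 := h r hr
  rw [allL_iff] at h1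
  have h2 := h1 e he
  rw [forceN_eq, allL_iff] at h2
  have h3 := h2 i (by interval_cases i <;> simp)
  rw [allL_iff] at h3
  have h4 := Nat.le_of_ble_eq_true (h3 j (by interval_cases j <;> simp))
  exact Nat.lt_succ_of_le h4

theorem cert_main {V : Type*} [Fintype V] (t : V → V → ℕ)
    (hlt : ∀ u v, t u v < 3) (hflip : ∀ u v, t v u = flip3 (t u v)) (hC : NoC4 t)
    (hlen : rowsTab.length = 7)
    (hz : ∀ c < 7, ∀ f < 27, ∀ g < 27, (zlook c f g : ℤ) =
      OFF - dot ((rowsTab.getD c []).getD f []) ((rowsTab.getD c []).getD g []))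
    (hct : ∀ τ < 27, ctab τ < 8)
    (hr : ∀ f < 27, ∀ g < 27, (rlook f g : ℤ) = OFFR + dot (rows1Tab.getD f []) (rows1Tab.getD g []))
    (hsym : ∀ a < 3, ∀ b < 3, ∀ c < 3,
      rows1Of rows1Tab (code3 a b c) = rows1Of rows1Tab (code3 b a (flip3 c)))
    (hall : allL (repOK bt ctab zlook rlook OFF OFFR C3) reps = true) :
    0 ≤ ∑ a : V, ∑ b : V, ∑ c : V, baseOf bt C3 (code3 (t a b) (t a c) (t b c)) := by
  refine certificate_sound t hlt hflip hC _ (rows3Of ctab rowsTab) (rows1Of rows1Tab) hsym ?_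
  intro r hr' e he
  rw [allL_iff] at hall
  have h1 := hall r hr'
  unfold repOK at h1
  rw [allL_iff] at h1
  have h2 := h1 e he
  rw [forceN_eq] at h2
  exact patOK_spec bt ctab zlook rlook OFF OFFR C3 rowsTab rows1Tab hlen hz hct hr _
    (fun i j hi hj => dg_lt_of_mem r hr' e he i j hi hj) h2

end

end Pool.Agent.H5
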