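import Pool.Agent.H5.FlagEnum

/-!
# From checked patterns to an inequality for all oriented graphs
-/

namespace Pool.Agent.H5

open Finset

section

variable {V : Type*} (t : V → V → ℕ)

/-- Digits of the pattern of a 5-tuple. -/
def gx {V : Type*} (t : V → V → ℕ) (x : Fin 5 → V) (k : ℕ) : ℕ := digs t x (k / 5) (k % 5)

/-- Digits of the pattern restricted to the first four positions. -/
def g4 {V : Type*} (t : V → V → ℕ) (x : Fin 5 → V) (k : ℕ) : ℕ :=
  if k / 5 < 4 ∧ k % 5 < 4 then digs t x (k / 5) (k % 5) else 0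

variable (hlt : ∀ u v, t u v < 3) (hflip : ∀ u v, t v u = flip3 (t u v))

include hlt hflip in
theorem t_self (u : V) : t u u = 0 := by
  have h1 := hlt u u
  have h2 := hflip u u
  have key : ∀ a < 3, a = flip3 a → a = 0 := by decide
  exact key _ h1 h2

include hlt in
theorem digs_lt (x : Fin 5 → V) (i j : ℕ) : digs t x i j < 3 := hlt _ _

include hflip in
theorem digs_flip (x : Fin 5 → V) (i j : ℕ) : digs t x j i = flip3 (digs t x i j) := hflip _ _

include hlt hflip in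
theorem digs_self (x : Fin 5 → V) (i : ℕ) : digs t x i i = 0 := t_self t hlt hflip _

include hlt in
theorem dg_gx (x : Fin 5 → V) (i j : ℕ) (hi : i < 5) (hj : j < 5) :
    dg (pack (gx t x)) i j = digs t x i j := by
  rw [dg_pack (gx t x) (fun k => lt_of_lt_of_le (hlt _ _) (by norm_num)) i j hi hj]
  unfold gx
  congr 1 <;> omega

include hlt in
theorem dg_g4 (x : Fin 5 → V) (i j : ℕ) (hi : i < 5) (hj : j < 5) :
    dg (pack (g4 t x)) i j = if i < 4 ∧ j < 4 then digs t x i j else 0 := by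
  rw [dg_pack (g4 t x) (fun k => by
    unfold g4
    split_ifs
    · exact lt_of_lt_of_le (hlt _ _) (by norm_num)
    · norm_num) i j hi hj]
  unfold g4
  have h1 : (5 * i + j) / 5 = i := by omega
  have h2 : (5 * i + j) % 5 = j := by omega
  rw [h1, h2]

include hlt hflip in
theorem pack_g4 (x : Fin 5 → V) :
    pack (g4 t x) = R6 (digs t x 0 1) (digs t x 0 2) (digs t x 0 3) (digs t x 1 2)
      (digs t x 1 3) (digs t x 2 3) := by
  unfold pack g4 R6
  simp only [Finset.sum_range_succ, Finset.sum_range_zero]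
  norm_num
  rw [digs_self t hlt hflip x 0, digs_self t hlt hflip x 1, digs_self t hlt hflip x 2,
    digs_self t hlt hflip x 3, digs_flip t hflip x 0 1, digs_flip t hflip x 0 2,
    digs_flip t hflip x 0 3, digs_flip t hflip x 1 2, digs_flip t hflip x 1 3,
    digs_flip t hflip x 2 3]
  omega

include hlt hflip in
theorem pack_gx (x : Fin 5 → V) :
    pack (gx t x) = R6 (digs t x 0 1) (digs t x 0 2) (digs t x 0 3) (digs t x 1 2)
      (digs t x 1 3) (digs t x 2 3)
      + E4 (digs t x 0 4) (digs t x 1 4) (digs t x 2 4) (digs t x 3 4) := by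
  unfold pack gx R6 E4
  simp only [Finset.sum_range_succ, Finset.sum_range_zero]
  norm_num
  rw [digs_self t hlt hflip x 0, digs_self t hlt hflip x 1, digs_self t hlt hflip x 2,
    digs_self t hlt hflip x 3, digs_self t hlt hflip x 4, digs_flip t hflip x 0 1,
    digs_flip t hflip x 0 2,
    digs_flip t hflip x 0 3, digs_flip t hflip x 1 2, digs_flip t hflip x 1 3,
    digs_flip t hflip x 2 3, digs_flip t hflip x 0 4, digs_flip t hflip x 1 4,
    digs_flip t hflip x 2 4, digs_flip t hflip x 3 4]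
  omega

/-- No induced directed 4-cycle, in terms of relation codes. -/
def NoC4 {V : Type*} (t : V → V → ℕ) : Prop :=
  ∀ a b c d : V, t a b = 1 → t b c = 1 → t c d = 1 → t d a = 1 → t a c = 0 → t b d = 0 → False

theorem P24_ok : ∀ p ∈ P24t, okTuple (p.1, p.2.1, p.2.2.1, p.2.2.2, 4) = true := by
  decide +kernel

theorem P24_lt : ∀ p ∈ P24t, p.1 < 4 ∧ p.2.1 < 4 ∧ p.2.2.1 < 4 ∧ p.2.2.2 < 4 := by
  decide +kernel

include hlt hflip in
/-- Every 5-tuple can be permuted so that the first four positions show a representative. -/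
theorem exists_perm (hC : NoC4 t) (x : Fin 5 → V) :
    ∃ σ : Equiv.Perm (Fin 5),
      R6 (digs t (x ∘ σ) 0 1) (digs t (x ∘ σ) 0 2) (digs t (x ∘ σ) 0 3) (digs t (x ∘ σ) 1 2)
      (digs t (x ∘ σ) 1 3) (digs t (x ∘ σ) 2 3) ∈ reps := by
  have hT := test4_all (digs t x 0 1) (digs t x 0 2) (digs t x 0 3) (digs t x 1 2)
      (digs t x 1 3) (digs t x 2 3) (hlt _ _) (hlt _ _) (hlt _ _) (hlt _ _) (hlt _ _) (hlt _ _)
  rw [← pack_g4 t hlt hflip x] at hT
  unfold test4 at hT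
  rw [orB_iff] at hT
  rcases hT with hT | hT
  · exfalso
    obtain ⟨i, hi, j, hj, k, hk, l, hl, h1, h2, h3, h4, h5, h6⟩ := hasC4_iff _ hT
    rw [dg_g4 t hlt x _ _ hi hj] at h1
    rw [dg_g4 t hlt x _ _ hj hk] at h2
    rw [dg_g4 t hlt x _ _ hk hl] at h3
    rw [dg_g4 t hlt x _ _ hl hi] at h4
    rw [dg_g4 t hlt x _ _ hi hk] at h5
    rw [dg_g4 t hlt x _ _ hj hl] at h6
    by_cases c1 : i < 4 ∧ j < 4
    · by_cases c2 : k < 4 ∧ l < 4
      · rw [if_pos c1] at h1
        rw [if_pos ⟨c1.2, c2.1⟩] at h2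
        rw [if_pos c2] at h3
        rw [if_pos ⟨c2.2, c1.1⟩] at h4
        rw [if_pos ⟨c1.1, c2.1⟩] at h5
        rw [if_pos ⟨c1.2, c2.2⟩] at h6
        exact hC _ _ _ _ h1 h2 h3 h4 h5 h6
      · rw [if_neg c2] at h3
        omega
    · rw [if_neg c1] at h1
      omega
  · rw [P24_eq, anyL_iff] at hT
    obtain ⟨a, ha, hT⟩ := hT
    rw [List.mem_map] at ha
    obtain ⟨p, hp, rfl⟩ := ha
    simp only [forceN_eq, anyL_iff] at hT
    obtain ⟨r, hr, hT⟩ := hT
    rw [Nat.beq_eq] at hT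
    obtain ⟨q1, q2, q3, q4⟩ := P24_lt p hp
    have hinj := toFn_inj _ (P24_ok p hp)
    refine ⟨Equiv.ofBijective _ (Finite.injective_iff_bijective.mp hinj), ?_⟩
    rw [← hT] at hr
    rw [dg_g4 t hlt x _ _ (by omega) (by omega), dg_g4 t hlt x _ _ (by omega) (by omega),
      dg_g4 t hlt x _ _ (by omega) (by omega), dg_g4 t hlt x _ _ (by omega) (by omega),
      dg_g4 t hlt x _ _ (by omega) (by omega), dg_g4 t hlt x _ _ (by omega) (by omega),
      if_pos ⟨q1, q2⟩, if_pos ⟨q1, q3⟩, if_pos ⟨q1, q4⟩, if_pos ⟨q2, q3⟩, if_pos ⟨q2, q4⟩,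
      if_pos ⟨q3, q4⟩] at hr
    exact hr

theorem N60_lt : ∀ p ∈ N60, p.1 < 5 ∧ p.2.1 < 5 ∧ p.2.2.1 < 5 ∧ p.2.2.2.1 < 5 ∧ p.2.2.2.2 < 5 := by
  decide +kernel

theorem N15_lt : ∀ p ∈ N15, p.1 < 5 ∧ p.2.1 < 5 ∧ p.2.2.1 < 5 ∧ p.2.2.2.1 < 5 ∧ p.2.2.2.2 < 5 := by
  decide +kernel

variable (base : ℕ → ℤ) (rows3 : ℕ → ℕ → List ℤ) (rows1 : ℕ → List ℤ)

include hlt hflip in
theorem symF_nonneg (hC : NoC4 t)
    (hsym : ∀ a < 3, ∀ b < 3, ∀ c < 3, rows1 (code3 a b c) = rows1 (code3 b a (flip3 c)))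
    (hchk : ∀ r ∈ reps, ∀ e ∈ exts, hasC4 (r + e) = true ∨
      4 * (N15.map (w15 rows1 (dg (r + e)))).sum ≤ (N60.map (w60 base rows3 (dg (r + e)))).sum)
    (x : Fin 5 → V) :
    0 ≤ symF (fun y => F60 t base rows3 y - F15 t rows1 y) x := by
  obtain ⟨σ, hσ⟩ := exists_perm t hlt hflip hC x
  rw [← symF_comp _ x σ]
  generalize x ∘ σ = y at hσ
  rw [symF_eval t base rows3 rows1 hflip hlt hsym]
  have hy := pack_gx t hlt hflip y
  have he := E4_mem _ (digs_lt t hlt y 0 4) _ (digs_lt t hlt y 1 4) _ (digs_lt t hlt y 2 4) _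
    (digs_lt t hlt y 3 4)
  have h := hchk _ hσ _ he
  rw [← hy] at h
  rcases h with h | h
  · exfalso
    obtain ⟨i, hi, j, hj, k, hk, l, hl, h1, h2, h3, h4, h5, h6⟩ := hasC4_iff _ h
    rw [dg_gx t hlt y _ _ (by assumption) (by assumption)] at h1 h2 h3 h4 h5 h6
    exact hC _ _ _ _ h1 h2 h3 h4 h5 h6
  · have e1 : N60.map (w60 base rows3 (dg (pack (gx t y)))) = N60.map (w60 base rows3 (digs t y)) := by
      apply List.map_congr_left
      intro p hp
      obtain ⟨p1, p2, p3, p4, p5⟩ := N60_lt p hp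
      unfold w60
      rw [dg_gx t hlt y _ _ p1 p2, dg_gx t hlt y _ _ p1 p3, dg_gx t hlt y _ _ p2 p3,
        dg_gx t hlt y _ _ p1 p4, dg_gx t hlt y _ _ p2 p4, dg_gx t hlt y _ _ p3 p4,
        dg_gx t hlt y _ _ p1 p5, dg_gx t hlt y _ _ p2 p5, dg_gx t hlt y _ _ p3 p5]
    have e2 : N15.map (w15 rows1 (dg (pack (gx t y)))) = N15.map (w15 rows1 (digs t y)) := by
      apply List.map_congr_left
      intro p hp
      obtain ⟨p1, p2, p3, p4, p5⟩ := N15_lt p hp
      unfold w15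
      rw [dg_gx t hlt y _ _ p1 p2, dg_gx t hlt y _ _ p1 p3, dg_gx t hlt y _ _ p2 p3,
        dg_gx t hlt y _ _ p1 p4, dg_gx t hlt y _ _ p1 p5, dg_gx t hlt y _ _ p4 p5]
    rw [e1, e2] at h
    linarith

end

/-- Main conclusion: a checked certificate gives a linear inequality for the densities of
three-vertex patterns in every finite oriented graph without induced directed 4-cycle. -/
theorem certificate_sound {V : Type*} [Fintype V] (t : V → V → ℕ)
    (hlt : ∀ u v, t u v < 3) (hflip : ∀ u v, t v u = flip3 (t u v)) (hC : NoC4 t)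
    (base : ℕ → ℤ) (rows3 : ℕ → ℕ → List ℤ) (rows1 : ℕ → List ℤ)
    (hsym : ∀ a < 3, ∀ b < 3, ∀ c < 3, rows1 (code3 a b c) = rows1 (code3 b a (flip3 c)))
    (hchk : ∀ r ∈ reps, ∀ e ∈ exts, hasC4 (r + e) = true ∨
      4 * (N15.map (w15 rows1 (dg (r + e)))).sum ≤ (N60.map (w60 base rows3 (dg (r + e)))).sum) :
    0 ≤ ∑ a : V, ∑ b : V, ∑ c : V, base (code3 (t a b) (t a c) (t b c)) :=
  base_sum_nonneg t base rows3 rows1
    (symF_nonneg t hlt hflip base rows3 rows1 hC hsym hchk)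

end Pool.Agent.H5
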