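import Mathlib

/-!
# Summing a local function over all 5-tuples of vertices

Elementary tools for a flag-algebra style argument over a finite type `V`:
reindexing of sums over `Fin 5 → V`, sums over all permutations of the five positions,
and positivity of the quadratic forms.
-/

namespace Pool.Agent.H5

open Finset

section Perm

variable {V : Type*} [Fintype V]

/-- Reindexing a sum over 5-tuples by a permutation of the positions. -/
theorem sum_comp_perm (F : (Fin 5 → V) → ℤ) (σ : Equiv.Perm (Fin 5)) :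
    ∑ x : Fin 5 → V, F (x ∘ σ) = ∑ x : Fin 5 → V, F x :=
  Equiv.sum_comp (Equiv.arrowCongr σ.symm (Equiv.refl V)) F

/-- The full symmetrisation of `F`. -/
def symF {V : Type*} (F : (Fin 5 → V) → ℤ) (x : Fin 5 → V) : ℤ :=
  ∑ σ : Equiv.Perm (Fin 5), F (x ∘ σ)

theorem symF_comp {V : Type*} (F : (Fin 5 → V) → ℤ) (x : Fin 5 → V)
    (τ : Equiv.Perm (Fin 5)) :
    symF F (x ∘ τ) = symF F x := by
  unfold symF
  have := Equiv.sum_comp (Equiv.mulLeft τ) (fun σ : Equiv.Perm (Fin 5) => F (x ∘ σ))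
  rw [← this]
  rfl

theorem symF_sub {V : Type*} (F G : (Fin 5 → V) → ℤ) (x : Fin 5 → V) :
    symF (fun y => F y - G y) x = symF F x - symF G x := by
  unfold symF
  rw [Finset.sum_sub_distrib]

theorem sum_symF (F : (Fin 5 → V) → ℤ) :
    ∑ x : Fin 5 → V, symF F x = 120 * ∑ x : Fin 5 → V, F x := by
  classical
  unfold symF
  rw [Finset.sum_comm]
  simp only [sum_comp_perm]
  rw [Finset.sum_const, Finset.card_univ, Fintype.card_perm, Fintype.card_fin]
  simp [Nat.factorial]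

/-- If the symmetrisation is pointwise nonnegative then the sum is nonnegative. -/
theorem sum_nonneg_of_symF (F : (Fin 5 → V) → ℤ) (h : ∀ x, 0 ≤ symF F x) :
    0 ≤ ∑ x : Fin 5 → V, F x := by
  have := Finset.sum_nonneg (fun x (_ : x ∈ (Finset.univ : Finset (Fin 5 → V))) => h x)
  rw [sum_symF] at this
  linarith

end Perm

section Lists

/-- A 5-tuple of numbers read as a self-map of `Fin 5`. -/
def toFn (p : ℕ × ℕ × ℕ × ℕ × ℕ) : Fin 5 → Fin 5 :=
  ![Fin.ofNat 5 p.1, Fin.ofNat 5 p.2.1, Fin.ofNat 5 p.2.2.1, Fin.ofNat 5 p.2.2.2.1,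
    Fin.ofNat 5 p.2.2.2.2]

/-- Numerical key of a self-map of `Fin 5`. -/
def keyFn (p : Fin 5 → Fin 5) : ℕ :=
  (p 0).val + 5 * (p 1).val + 25 * (p 2).val + 125 * (p 3).val + 625 * (p 4).val

theorem sum_perm_list (L : List (Fin 5 → Fin 5)) (hlen : L.length = 120)
    (hnd : (L.map keyFn).Nodup) (hinj : ∀ p ∈ L, Function.Injective p)
    (G : (Fin 5 → Fin 5) → ℤ) :
    ∑ σ : Equiv.Perm (Fin 5), G σ = (L.map G).sum := by
  classical
  have hnd' : L.Nodup := List.Nodup.of_map _ hnd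
  rw [← List.sum_toFinset G hnd']
  have himg : L.toFinset = (Finset.univ : Finset (Equiv.Perm (Fin 5))).image
      (fun σ : Equiv.Perm (Fin 5) => (σ : Fin 5 → Fin 5)) := by
    apply Finset.eq_of_subset_of_card_le
    · intro p hp
      rw [List.mem_toFinset] at hp
      rw [Finset.mem_image]
      have hb : Function.Bijective p := Finite.injective_iff_bijective.mp (hinj p hp)
      exact ⟨Equiv.ofBijective p hb, Finset.mem_univ _, rfl⟩
    · rw [List.toFinset_card_of_nodup hnd', hlen]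
      refine le_trans Finset.card_image_le ?_
      rw [Finset.card_univ, Fintype.card_perm, Fintype.card_fin]
      decide
  rw [himg, Finset.sum_image]
  intro a _ b _ hab
  exact DFunLike.coe_injective hab

/-- Representatives of the permutations of five positions modulo exchanging the last two. -/
def N60 : List (ℕ × ℕ × ℕ × ℕ × ℕ) :=
  [
   (0, 1, 2, 3, 4), (0, 1, 3, 2, 4), (0, 1, 4, 2, 3), (0, 2, 1, 3, 4), (0, 2, 3, 1, 4), (0, 2, 4, 1, 3),
   (0, 3, 1, 2, 4), (0, 3, 2, 1, 4), (0, 3, 4, 1, 2), (0, 4, 1, 2, 3), (0, 4, 2, 1, 3), (0, 4, 3, 1, 2),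
   (1, 0, 2, 3, 4), (1, 0, 3, 2, 4), (1, 0, 4, 2, 3), (1, 2, 0, 3, 4), (1, 2, 3, 0, 4), (1, 2, 4, 0, 3),
   (1, 3, 0, 2, 4), (1, 3, 2, 0, 4), (1, 3, 4, 0, 2), (1, 4, 0, 2, 3), (1, 4, 2, 0, 3), (1, 4, 3, 0, 2),
   (2, 0, 1, 3, 4), (2, 0, 3, 1, 4), (2, 0, 4, 1, 3), (2, 1, 0, 3, 4), (2, 1, 3, 0, 4), (2, 1, 4, 0, 3),
   (2, 3, 0, 1, 4), (2, 3, 1, 0, 4), (2, 3, 4, 0, 1), (2, 4, 0, 1, 3), (2, 4, 1, 0, 3), (2, 4, 3, 0, 1),
   (3, 0, 1, 2, 4), (3, 0, 2, 1, 4), (3, 0, 4, 1, 2), (3, 1, 0, 2, 4), (3, 1, 2, 0, 4), (3, 1, 4, 0, 2),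
   (3, 2, 0, 1, 4), (3, 2, 1, 0, 4), (3, 2, 4, 0, 1), (3, 4, 0, 1, 2), (3, 4, 1, 0, 2), (3, 4, 2, 0, 1),
   (4, 0, 1, 2, 3), (4, 0, 2, 1, 3), (4, 0, 3, 1, 2), (4, 1, 0, 2, 3), (4, 1, 2, 0, 3), (4, 1, 3, 0, 2),
   (4, 2, 0, 1, 3), (4, 2, 1, 0, 3), (4, 2, 3, 0, 1), (4, 3, 0, 1, 2), (4, 3, 1, 0, 2), (4, 3, 2, 0, 1)]

/-- Representatives modulo the group of order 8 preserving the two pairs `{1,2}`, `{3,4}`. -/
def N15 : List (ℕ × ℕ × ℕ × ℕ × ℕ) :=
  [
   (0, 1, 2, 3, 4), (0, 1, 3, 2, 4), (0, 1, 4, 2, 3), (1, 0, 2, 3, 4), (1, 0, 3, 2, 4), (1, 0, 4, 2, 3),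
   (2, 0, 1, 3, 4), (2, 0, 3, 1, 4), (2, 0, 4, 1, 3), (3, 0, 1, 2, 4), (3, 0, 2, 1, 4), (3, 0, 4, 1, 2),
   (4, 0, 1, 2, 3), (4, 0, 2, 1, 3), (4, 0, 3, 1, 2)]

def s34 : Fin 5 → Fin 5 := toFn (0, 1, 2, 4, 3)

def K8t : List (ℕ × ℕ × ℕ × ℕ × ℕ) :=
  [(0, 1, 2, 3, 4), (0, 2, 1, 3, 4), (0, 1, 2, 4, 3), (0, 2, 1, 4, 3),
   (0, 3, 4, 1, 2), (0, 4, 3, 1, 2), (0, 3, 4, 2, 1), (0, 4, 3, 2, 1)]

def K8 : List (Fin 5 → Fin 5) := K8t.map toFn

def P60 : List (Fin 5 → Fin 5) :=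
  N60.map toFn ++ (N60.map toFn).map (fun p => p ∘ s34)

def P15 : List (Fin 5 → Fin 5) :=
  (N15.map toFn).flatMap (fun p => K8.map (fun κ => p ∘ κ))

def keys60 : List ℕ :=
  [
   2930, 2830, 2230, 2910, 2710, 2110, 2790, 2690, 1490, 2170, 2070, 1470, 2926, 2826, 2226, 2886,
   2586, 1986, 2766, 2566, 1366, 2146, 1946, 1346, 2902, 2702, 2102, 2882, 2582, 1982, 2642, 2542,
   742, 2022, 1922, 722, 2778, 2678, 1478, 2758, 2558, 1358, 2638, 2538, 738, 1398, 1298, 698,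
   2154, 2054, 1454, 2134, 1934, 1334, 2014, 1914, 714, 1394, 1294, 694, 2430, 1830, 1730, 2410,
   1210, 1110, 1790, 1190, 990, 1670, 1070, 970, 2426, 1826, 1726, 2386, 586, 486, 1766, 566,
   366, 1646, 446, 346, 2402, 1202, 1102, 2382, 582, 482, 1142, 542, 242, 1022, 422, 222,
   1778, 1178, 978, 1758, 558, 358, 1138, 538, 238, 898, 298, 198, 1654, 1054, 954, 1634,
   434, 334, 1014, 414, 214, 894, 294, 194]

def keys15 : List ℕ :=
  [
   2930, 2910, 2430, 2410, 1490, 1470, 990, 970, 2830, 2790, 1830, 1790, 2110, 2070, 1110, 1070,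
   2230, 2170, 1730, 1670, 2710, 2690, 1210, 1190, 2926, 2886, 2426, 2386, 1366, 1346, 366, 346,
   2826, 2766, 1826, 1766, 1986, 1946, 486, 446, 2226, 2146, 1726, 1646, 2586, 2566, 586, 566,
   2902, 2882, 2402, 2382, 742, 722, 242, 222, 2702, 2642, 1202, 1142, 1982, 1922, 482, 422,
   2102, 2022, 1102, 1022, 2582, 2542, 582, 542, 2778, 2758, 1778, 1758, 738, 698, 238, 198,
   2678, 2638, 1178, 1138, 1358, 1298, 358, 298, 1478, 1398, 978, 898, 2558, 2538, 558, 538,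
   2154, 2134, 1654, 1634, 714, 694, 214, 194, 2054, 2014, 1054, 1014, 1334, 1294, 334, 294,
   1454, 1394, 954, 894, 1934, 1914, 434, 414]

theorem P60_len : P60.length = 120 := by decide +kernel
theorem P15_len : P15.length = 120 := by decide +kernel
theorem P60_keys : P60.map keyFn = keys60 := by decide +kernel
theorem P15_keys : P15.map keyFn = keys15 := by decide +kernel
theorem keys60_nd : keys60.Nodup := by decide +kernel
theorem keys15_nd : keys15.Nodup := by decide +kernel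
theorem P60_nd : (P60.map keyFn).Nodup := by rw [P60_keys]; exact keys60_nd
theorem P15_nd : (P15.map keyFn).Nodup := by rw [P15_keys]; exact keys15_nd
/-- Boolean test that a tuple consists of five distinct numbers below five. -/
def okTuple (p : ℕ × ℕ × ℕ × ℕ × ℕ) : Bool :=
  let a := p.1
  let b := p.2.1
  let c := p.2.2.1
  let d := p.2.2.2.1
  let e := p.2.2.2.2
  decide (a < 5 ∧ b < 5 ∧ c < 5 ∧ d < 5 ∧ e < 5 ∧ a ≠ b ∧ a ≠ c ∧ a ≠ d ∧ a ≠ e ∧ b ≠ c ∧ b ≠ d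
    ∧ b ≠ e ∧ c ≠ d ∧ c ≠ e ∧ d ≠ e)

theorem N60_ok : N60.all okTuple = true := by decide +kernel
theorem N15_ok : N15.all okTuple = true := by decide +kernel

theorem toFn_inj (p : ℕ × ℕ × ℕ × ℕ × ℕ) (h : okTuple p = true) :
    Function.Injective (toFn p) := by
  obtain ⟨a, b, c, d, e⟩ := p
  simp only [okTuple, decide_eq_true_eq] at h
  obtain ⟨ha, hb, hc, hd, he, h1, h2, h3, h4, h5, h6, h7, h8, h9, h10⟩ := h
  intro i j hij
  have hv : (toFn (a, b, c, d, e) i).val = (toFn (a, b, c, d, e) j).val := by rw [hij]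
  have va : a % 5 = a := Nat.mod_eq_of_lt ha
  have vb : b % 5 = b := Nat.mod_eq_of_lt hb
  have vc : c % 5 = c := Nat.mod_eq_of_lt hc
  have vd : d % 5 = d := Nat.mod_eq_of_lt hd
  have ve : e % 5 = e := Nat.mod_eq_of_lt he
  fin_cases i <;> fin_cases j <;> simp [toFn, Fin.ofNat, va, vb, vc, vd, ve] at hv ⊢ <;> omega

theorem K8t_ok : K8t.all okTuple = true := by decide +kernel
theorem s34_inj : Function.Injective s34 := toFn_inj _ (by decide +kernel)
theorem K8_inj : ∀ p ∈ K8, Function.Injective p := by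
  intro p hp
  unfold K8 at hp
  rw [List.mem_map] at hp
  obtain ⟨q, hq, rfl⟩ := hp
  have hok := K8t_ok
  rw [List.all_eq_true] at hok
  exact toFn_inj q (hok q hq)

theorem P60_inj : ∀ p ∈ P60, Function.Injective p := by
  intro p hp
  unfold P60 at hp
  rw [List.mem_append] at hp
  have hok := N60_ok
  rw [List.all_eq_true] at hok
  rcases hp with hp | hp
  · rw [List.mem_map] at hp
    obtain ⟨q, hq, rfl⟩ := hp
    exact toFn_inj q (hok q hq)
  · rw [List.mem_map] at hp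
    obtain ⟨r, hr, rfl⟩ := hp
    rw [List.mem_map] at hr
    obtain ⟨q, hq, rfl⟩ := hr
    exact (toFn_inj q (hok q hq)).comp s34_inj

theorem P15_inj : ∀ p ∈ P15, Function.Injective p := by
  intro p hp
  unfold P15 at hp
  rw [List.mem_flatMap] at hp
  obtain ⟨r, hr, hp⟩ := hp
  rw [List.mem_map] at hp hr
  obtain ⟨κ, hκ, rfl⟩ := hp
  obtain ⟨q, hq, rfl⟩ := hr
  have hok := N15_ok
  rw [List.all_eq_true] at hok
  exact (toFn_inj q (hok q hq)).comp (K8_inj κ hκ)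

theorem symF_60 {V : Type*} (F : (Fin 5 → V) → ℤ) (hF : ∀ y, F (y ∘ s34) = F y)
    (x : Fin 5 → V) :
    symF F x = 2 * (N60.map (fun p => F (x ∘ toFn p))).sum := by
  unfold symF
  rw [sum_perm_list P60 P60_len P60_nd P60_inj (fun p => F (x ∘ p))]
  unfold P60
  rw [List.map_append, List.sum_append, List.map_map, List.map_map, List.map_map]
  have : ((fun p => F (x ∘ p)) ∘ (fun p : Fin 5 → Fin 5 => p ∘ s34) ∘ toFn)
      = ((fun p => F (x ∘ p)) ∘ toFn) := by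
    funext p
    simp only [Function.comp]
    exact hF (x ∘ toFn p)
  rw [Function.comp_assoc] 
  rw [this]
  simp only [Function.comp_def]
  ring

theorem symF_15 {V : Type*} (F : (Fin 5 → V) → ℤ) (hF : ∀ κ ∈ K8, ∀ y, F (y ∘ κ) = F y)
    (x : Fin 5 → V) :
    symF F x = 8 * (N15.map (fun p => F (x ∘ toFn p))).sum := by
  unfold symF
  rw [sum_perm_list P15 P15_len P15_nd P15_inj (fun p => F (x ∘ p))]
  unfold P15
  rw [List.map_flatMap]
  have key : ∀ L : List (Fin 5 → Fin 5),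
      (L.flatMap (fun p => (K8.map (fun κ => p ∘ κ)).map (fun p => F (x ∘ p)))).sum
        = 8 * (L.map (fun p => F (x ∘ p))).sum := by
    intro L
    induction L with
    | nil => simp
    | cons p L ih =>
      rw [List.flatMap_cons, List.sum_append, ih, List.map_cons, List.sum_cons, List.map_map]
      have : (K8.map ((fun p => F (x ∘ p)) ∘ fun κ => p ∘ κ)) = K8.map (fun _ => F (x ∘ p)) := by
        apply List.map_congr_left
        intro κ hκ
        exact hF κ hκ (x ∘ p)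
      rw [this]
      simp [K8, K8t]
      ring
  rw [key, List.map_map]
  rfl

end Lists

end Pool.Agent.H5
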