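import Pool.Agent.H5.FlagLink
import Pool.Agent.H5.FlagBase

/-!
# Order-five flag certificates with vertex weights and a linear four-vertex term
-/

namespace Pool.Agent.H5.W

open Finset Pool.Agent.H5

section Weights

variable {V : Type*} [Fintype V] (w : V → ℝ)

theorem wsum_comp_perm (F : (Fin 5 → V) → ℝ) (σ : Equiv.Perm (Fin 5)) :
    ∑ x : Fin 5 → V, (∏ i, w (x i)) * F (x ∘ σ) = ∑ x : Fin 5 → V, (∏ i, w (x i)) * F x := by
  rw [← Equiv.sum_comp (Equiv.arrowCongr σ.symm (Equiv.refl V))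
    (fun x => (∏ i, w (x i)) * F x)]
  refine sum_congr rfl fun x _ => ?_
  have h : (Equiv.arrowCongr σ.symm (Equiv.refl V)) x = x ∘ σ := rfl
  rw [h]
  congr 1
  exact (Equiv.prod_comp σ (fun i => w (x i))).symm

theorem wsum_nonneg_of_symF (hw : ∀ v, 0 ≤ w v) (F : (Fin 5 → V) → ℤ)
    (h : ∀ x, 0 ≤ symF F x) :
    0 ≤ ∑ x : Fin 5 → V, (∏ i, w (x i)) * (F x : ℝ) := by
  have h1 : 0 ≤ ∑ x : Fin 5 → V, (∏ i, w (x i)) * (symF F x : ℝ) :=
    sum_nonneg fun x _ => mul_nonneg (prod_nonneg fun i _ => hw _) (by exact_mod_cast h x)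
  have h2 : ∑ x : Fin 5 → V, (∏ i, w (x i)) * (symF F x : ℝ)
      = 120 * ∑ x : Fin 5 → V, (∏ i, w (x i)) * (F x : ℝ) := by
    unfold symF
    push_cast
    simp_rw [mul_sum]
    rw [sum_comm]
    have : ∀ σ : Equiv.Perm (Fin 5), ∑ x : Fin 5 → V, (∏ i, w (x i)) * (F (x ∘ σ) : ℝ)
        = ∑ x : Fin 5 → V, (∏ i, w (x i)) * (F x : ℝ) :=
      fun σ => wsum_comp_perm w (fun x => (F x : ℝ)) σ
    simp_rw [this]
    rw [sum_const, card_univ, Fintype.card_perm, Fintype.card_fin, ← mul_sum]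
    simp [Nat.factorial]
  rw [h2] at h1
  linarith

theorem wsum_five (G : (Fin 5 → V) → ℝ) :
    ∑ x : Fin 5 → V, (∏ i, w (x i)) * G x
      = ∑ a, ∑ b, ∑ c, ∑ d, ∑ e, w a * w b * w c * w d * w e * G ![a, b, c, d, e] := by
  rw [← Equiv.sum_comp (fiveEquiv V) (fun x => (∏ i, w (x i)) * G x)]
  simp only [Fintype.sum_prod_type]
  refine sum_congr rfl fun a _ => sum_congr rfl fun b _ => sum_congr rfl fun c _ =>
    sum_congr rfl fun d _ => sum_congr rfl fun e _ => ?_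
  have : (fiveEquiv V) (a, b, c, d, e) = ![a, b, c, d, e] := rfl
  rw [this]
  congr 1
  simp [Fin.prod_univ_succ]
  ring

theorem wdot_nonneg {U : Type*} [Fintype U] (ω : U → ℝ) (r : U → List ℤ) :
    0 ≤ ∑ y, ∑ z, ω y * ω z * (dot (r y) (r z) : ℝ) := by
  classical
  obtain ⟨N, hN⟩ : ∃ N, ∀ y, (r y).length ≤ N :=
    ⟨Finset.univ.sup (fun y => (r y).length),
      fun y => Finset.le_sup (f := fun y => (r y).length) (Finset.mem_univ y)⟩
  have h1 : ∑ y, ∑ z, ω y * ω z * (dot (r y) (r z) : ℝ)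
      = ∑ k ∈ range N, (∑ y, ω y * ((r y).getD k 0 : ℝ)) * (∑ z, ω z * ((r z).getD k 0 : ℝ)) := by
    simp_rw [fun y z => dot_eq_sum N (r y) (r z) (hN y)]
    push_cast
    simp_rw [sum_mul_sum, mul_sum]
    have : ∀ y, ∑ z, ∑ k ∈ range N, ω y * ω z * (((r y).getD k 0 : ℝ) * ((r z).getD k 0 : ℝ))
        = ∑ k ∈ range N, ∑ z, ω y * ω z * (((r y).getD k 0 : ℝ) * ((r z).getD k 0 : ℝ)) :=
      fun y => sum_comm
    simp_rw [this]
    rw [sum_comm]
    refine sum_congr rfl fun k _ => sum_congr rfl fun y _ => sum_congr rfl fun z _ => ?_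
    ring
  rw [h1]
  exact sum_nonneg fun k _ => mul_self_nonneg _

end Weights

section Main

variable {V : Type*} [Fintype V]

/-- Type-3 part of the local expression, with a linear four-vertex term. -/
def G60 {V : Type*} (t : V → V → ℕ) (base : ℕ → ℤ) (rows3 : ℕ → ℕ → List ℤ) (lin : ℕ → ℕ → ℤ)
    (x : Fin 5 → V) : ℤ :=
  F60 t base rows3 x
    - lin (code3 (t (x 0) (x 1)) (t (x 0) (x 2)) (t (x 1) (x 2)))
        (code3 (t (x 0) (x 3)) (t (x 1) (x 3)) (t (x 2) (x 3)))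
    - lin (code3 (t (x 0) (x 1)) (t (x 0) (x 2)) (t (x 1) (x 2)))
        (code3 (t (x 0) (x 4)) (t (x 1) (x 4)) (t (x 2) (x 4)))

variable (w : V → ℝ) (t : V → V → ℕ) (base : ℕ → ℤ) (rows3 : ℕ → ℕ → List ℤ)
  (rows1 : ℕ → List ℤ) (lin : ℕ → ℕ → ℤ)

theorem wsum_G60_le (hw : ∀ v, 0 ≤ w v) (h1 : ∑ v, w v = 1) :
    ∑ x : Fin 5 → V, (∏ i, w (x i)) * (G60 t base rows3 lin x : ℝ) ≤
      ∑ a, ∑ b, ∑ c, w a * w b * w c * (base (code3 (t a b) (t a c) (t b c)) : ℝ)
      - 2 * ∑ a, ∑ b, ∑ c, ∑ d, w a * w b * w c * w d *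
        (lin (code3 (t a b) (t a c) (t b c)) (code3 (t a d) (t b d) (t c d)) : ℝ) := by
  rw [wsum_five]
  have key : ∀ a b c : V,
      ∑ d, ∑ e, w a * w b * w c * w d * w e * (G60 t base rows3 lin ![a, b, c, d, e] : ℝ)
      ≤ w a * w b * w c * (base (code3 (t a b) (t a c) (t b c)) : ℝ)
        - 2 * ∑ d, w a * w b * w c * w d *
        (lin (code3 (t a b) (t a c) (t b c)) (code3 (t a d) (t b d) (t c d)) : ℝ) := by
    intro a b c
    have hn := wdot_nonneg w (fun d => rows3 (code3 (t a b) (t a c) (t b c))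
      (code3 (t a d) (t b d) (t c d)))
    set τ := code3 (t a b) (t a c) (t b c) with hτ
    set f : V → ℕ := fun d => code3 (t a d) (t b d) (t c d) with hf
    have e1 : ∀ d e, w a * w b * w c * w d * w e * (G60 t base rows3 lin ![a, b, c, d, e] : ℝ)
        = w a * w b * w c * ((w d * w e) * (base τ : ℝ) - w d * w e * (dot (rows3 τ (f d)) (rows3 τ (f e)) : ℝ)
          - (w d * (lin τ (f d) : ℝ)) * w e - w d * (w e * (lin τ (f e) : ℝ))) := by
      intro d e
      have : G60 t base rows3 lin ![a, b, c, d, e] = base τ - dot (rows3 τ (f d)) (rows3 τ (f e))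
          - lin τ (f d) - lin τ (f e) := rfl
      rw [this]
      push_cast
      ring
    simp_rw [e1, ← mul_sum]
    have e2 : ∑ d, ∑ e, ((w d * w e) * (base τ : ℝ) - w d * w e * (dot (rows3 τ (f d)) (rows3 τ (f e)) : ℝ)
          - (w d * (lin τ (f d) : ℝ)) * w e - w d * (w e * (lin τ (f e) : ℝ)))
        = (base τ : ℝ) - ∑ d, ∑ e, w d * w e * (dot (rows3 τ (f d)) (rows3 τ (f e)) : ℝ)
          - 2 * ∑ d, w d * (lin τ (f d) : ℝ) := by
      simp only [sum_sub_distrib]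
      have s1 : ∑ d, ∑ e, (w d * w e) * (base τ : ℝ) = (base τ : ℝ) := by
        simp_rw [← sum_mul, ← mul_sum, h1]
        simp [h1]
      have s2 : ∑ d, ∑ e, (w d * (lin τ (f d) : ℝ)) * w e = ∑ d, w d * (lin τ (f d) : ℝ) := by
        simp_rw [← mul_sum, h1]
        simp
      have s3 : ∑ d, ∑ e, w d * (w e * (lin τ (f e) : ℝ)) = ∑ d, w d * (lin τ (f d) : ℝ) := by
        simp_rw [← mul_sum, ← sum_mul, h1]
        simp
      rw [s1, s2, s3]
      ring
    rw [e2]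
    have hw3 : 0 ≤ w a * w b * w c := mul_nonneg (mul_nonneg (hw a) (hw b)) (hw c)
    have e3 : ∑ d, w a * w b * w c * w d * (lin τ (f d) : ℝ)
        = w a * w b * w c * ∑ d, w d * (lin τ (f d) : ℝ) := by
      rw [mul_sum]
      refine sum_congr rfl fun d _ => ?_
      ring
    have e4 : ∑ d, w a * w b * w c * w d * (lin τ (code3 (t a d) (t b d) (t c d)) : ℝ)
        = w a * w b * w c * ∑ d, w d * (lin τ (f d) : ℝ) := e3
    rw [e4]
    have := mul_nonneg hw3 hn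
    nlinarith [this]
  calc _ ≤ ∑ a, ∑ b, ∑ c, (w a * w b * w c * (base (code3 (t a b) (t a c) (t b c)) : ℝ)
        - 2 * ∑ d, w a * w b * w c * w d *
        (lin (code3 (t a b) (t a c) (t b c)) (code3 (t a d) (t b d) (t c d)) : ℝ)) := by
        refine sum_le_sum fun a _ => sum_le_sum fun b _ => sum_le_sum fun c _ => ?_
        exact key a b c
    _ = _ := by
        simp only [sum_sub_distrib, mul_sum]

theorem wsum_F15_nonneg (hw : ∀ v, 0 ≤ w v) :
    0 ≤ ∑ x : Fin 5 → V, (∏ i, w (x i)) * (F15 t rows1 x : ℝ) := by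
  rw [wsum_five]
  refine sum_nonneg fun a _ => ?_
  have h := wdot_nonneg (fun p : V × V => w p.1 * w p.2)
    (fun p : V × V => rows1 (code3 (t a p.1) (t a p.2) (t p.1 p.2)))
  simp only [Fintype.sum_prod_type] at h
  have h2 := mul_nonneg (hw a) h
  simp_rw [mul_sum] at h2
  refine h2.trans_eq ?_
  refine sum_congr rfl fun b _ => sum_congr rfl fun c _ =>
    sum_congr rfl fun d _ => sum_congr rfl fun e _ => ?_
  have : F15 t rows1 ![a, b, c, d, e] = dot (rows1 (code3 (t a b) (t a c) (t b c)))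
    (rows1 (code3 (t a d) (t a e) (t d e))) := rfl
  rw [this]
  ring

theorem wbase_nonneg (hw : ∀ v, 0 ≤ w v) (h1 : ∑ v, w v = 1)
    (h : ∀ x : Fin 5 → V, 0 ≤ symF (fun y => G60 t base rows3 lin y - F15 t rows1 y) x) :
    0 ≤ ∑ a, ∑ b, ∑ c, w a * w b * w c * (base (code3 (t a b) (t a c) (t b c)) : ℝ)
      - 2 * ∑ a, ∑ b, ∑ c, ∑ d, w a * w b * w c * w d *
        (lin (code3 (t a b) (t a c) (t b c)) (code3 (t a d) (t b d) (t c d)) : ℝ) := by
  have h2 := wsum_nonneg_of_symF w hw _ h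
  have h3 := wsum_G60_le w t base rows3 lin hw h1
  have h4 := wsum_F15_nonneg w t rows1 hw
  have e : ∑ x : Fin 5 → V, (∏ i, w (x i)) * ((G60 t base rows3 lin x - F15 t rows1 x : ℤ) : ℝ)
      = ∑ x : Fin 5 → V, (∏ i, w (x i)) * (G60 t base rows3 lin x : ℝ)
        - ∑ x : Fin 5 → V, (∏ i, w (x i)) * (F15 t rows1 x : ℝ) := by
    rw [← sum_sub_distrib]
    refine sum_congr rfl fun x _ => ?_
    push_cast
    ring
  rw [e] at h2
  linarith

end Main

section Local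

variable {V : Type*} (t : V → V → ℕ) (base : ℕ → ℤ) (rows3 : ℕ → ℕ → List ℤ)
  (rows1 : ℕ → List ℤ) (lin : ℕ → ℕ → ℤ)

/-- Local type-3 term in terms of a digit function `T`. -/
def u60 (base : ℕ → ℤ) (rows3 : ℕ → ℕ → List ℤ) (lin : ℕ → ℕ → ℤ) (T : ℕ → ℕ → ℕ)
    (p : ℕ × ℕ × ℕ × ℕ × ℕ) : ℤ :=
  w60 base rows3 T p
    - lin (code3 (T p.1 p.2.1) (T p.1 p.2.2.1) (T p.2.1 p.2.2.1))
        (code3 (T p.1 p.2.2.2.1) (T p.2.1 p.2.2.2.1) (T p.2.2.1 p.2.2.2.1))
    - lin (code3 (T p.1 p.2.1) (T p.1 p.2.2.1) (T p.2.1 p.2.2.1))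
        (code3 (T p.1 p.2.2.2.2) (T p.2.1 p.2.2.2.2) (T p.2.2.1 p.2.2.2.2))

theorem G60_s34 (y : Fin 5 → V) : G60 t base rows3 lin (y ∘ s34) = G60 t base rows3 lin y := by
  unfold G60
  rw [F60_s34]
  simp only [s34, toFn, Function.comp]
  exact sub_right_comm _ _ _

theorem symF_evalW (hflip : ∀ u v, t v u = flip3 (t u v)) (hlt : ∀ u v, t u v < 3)
    (hsym : ∀ a < 3, ∀ b < 3, ∀ c < 3, rows1 (code3 a b c) = rows1 (code3 b a (flip3 c)))
    (x : Fin 5 → V) :
    symF (fun y => G60 t base rows3 lin y - F15 t rows1 y) x =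
      2 * (N60.map (u60 base rows3 lin (digs t x))).sum - 8 * (N15.map (w15 rows1 (digs t x))).sum := by
  rw [symF_sub, symF_60 _ (G60_s34 t base rows3 lin),
    symF_15 _ (fun κ hκ y => F15_K8 t rows1 hflip hlt hsym κ hκ y)]
  rfl

theorem symF_nonnegW (hlt : ∀ u v, t u v < 3) (hflip : ∀ u v, t v u = flip3 (t u v))
    (hC : NoC4 t)
    (hsym : ∀ a < 3, ∀ b < 3, ∀ c < 3, rows1 (code3 a b c) = rows1 (code3 b a (flip3 c)))
    (hchk : ∀ r ∈ reps, ∀ e ∈ exts, hasC4 (r + e) = true ∨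
      4 * (N15.map (w15 rows1 (dg (r + e)))).sum ≤ (N60.map (u60 base rows3 lin (dg (r + e)))).sum)
    (x : Fin 5 → V) :
    0 ≤ symF (fun y => G60 t base rows3 lin y - F15 t rows1 y) x := by
  obtain ⟨σ, hσ⟩ := exists_perm t hlt hflip hC x
  rw [← symF_comp _ x σ]
  generalize x ∘ σ = y at hσ
  rw [symF_evalW t base rows3 rows1 lin hflip hlt hsym]
  have hy := pack_gx t hlt hflip y
  have he := E4_mem _ (digs_lt t hlt y 0 4) _ (digs_lt t hlt y 1 4) _ (digs_lt t hlt y 2 4) _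
    (digs_lt t hlt y 3 4)
  have h := hchk _ hσ _ he
  rw [← hy] at h
  rcases h with h | h
  · exfalso
    obtain ⟨i, hi, j, hj, k, hk, l, hl, h1, h2, h3, h4, h5, h6⟩ := hasC4_iff _ h
    rw [dg_gx t hlt y _ _ (by assumption) (by assumption)] at h1 h2 h3 h4 h5 h6
    exact hC _ _ _ _ h1 h2 h3 h4 h5 h6
  · have e1 : N60.map (u60 base rows3 lin (dg (pack (gx t y))))
        = N60.map (u60 base rows3 lin (digs t y)) := by
      apply List.map_congr_left
      intro p hp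
      obtain ⟨p1, p2, p3, p4, p5⟩ := N60_lt p hp
      unfold u60 w60
      rw [dg_gx t hlt y _ _ p1 p2, dg_gx t hlt y _ _ p1 p3, dg_gx t hlt y _ _ p2 p3,
        dg_gx t hlt y _ _ p1 p4, dg_gx t hlt y _ _ p2 p4, dg_gx t hlt y _ _ p3 p4,
        dg_gx t hlt y _ _ p1 p5, dg_gx t hlt y _ _ p2 p5, dg_gx t hlt y _ _ p3 p5]
    have e2 : N15.map (w15 rows1 (dg (pack (gx t y)))) = N15.map (w15 rows1 (digs t y)) := by
      apply List.map_congr_left
      intro p hp
      obtain ⟨p1, p2, p3, p4, p5⟩ := N15_lt p hp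
      unfold w15
      rw [dg_gx t hlt y _ _ p1 p2, dg_gx t hlt y _ _ p1 p3, dg_gx t hlt y _ _ p2 p3,
        dg_gx t hlt y _ _ p1 p4, dg_gx t hlt y _ _ p1 p5, dg_gx t hlt y _ _ p4 p5]
    rw [e1, e2] at h
    linarith

end Local

section Link

variable (bt ctab : ℕ → ℕ) (zlook : ℕ → ℕ → ℕ → ℕ) (rlook : ℕ → ℕ → ℕ) (OFF OFFR C3 : ℕ)
  (rowsTab : List (List (List ℤ))) (rows1Tab : List (List ℤ)) (linT : ℕ → ℕ → ℤ)

/-- The linear term of a type code. -/
def linOf (τ f : ℕ) : ℤ := linT (ctab τ) f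

/-- Table check for one type, with linear term. -/
noncomputable def zOKW (l : List (List ℤ)) (c : ℕ) : Bool :=
  rowT l 0 (fun f u => rowT l 0 (fun g v =>
    decide (Int.add (Int.add (zdot u v) (Int.ofNat (zlook c f g))) (Int.add (linT c f) (linT c g))
      = Int.ofNat OFF)))

theorem zOKW_spec (l : List (List ℤ)) (c : ℕ) (hl : l.length = 27)
    (h : zOKW zlook OFF linT l c = true)
    (f g : ℕ) (hf : f < 27) (hg : g < 27) :
    (zlook c f g : ℤ) = OFF - dot (l.getD f []) (l.getD g []) - linT c f - linT c g := by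
  unfold zOKW at h
  have h1 := rowT_spec _ l 0 h f (by omega)
  have h2 := rowT_spec _ l 0 h1 g (by omega)
  rw [decide_eq_true_eq] at h2
  simp only [Nat.zero_add] at h2
  rw [zdot_eq] at h2
  change (dot (l.getD f []) (l.getD g []) + (zlook c f g : ℤ)) + (linT c f + linT c g) = (OFF : ℤ) at h2
  linarith

theorem patOKW_spec (hlen : rowsTab.length = 7)
    (hz : ∀ c < 7, ∀ f < 27, ∀ g < 27, (zlook c f g : ℤ) =
      OFF - dot ((rowsTab.getD c []).getD f []) ((rowsTab.getD c []).getD g []) - linT c f - linT c g)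
    (hlin : ∀ f, linT 7 f = 0)
    (hct : ∀ τ < 27, ctab τ < 8)
    (hr : ∀ f < 27, ∀ g < 27, (rlook f g : ℤ) = OFFR + dot (rows1Tab.getD f []) (rows1Tab.getD g []))
    (T : ℕ) (hT : ∀ i j, i < 5 → j < 5 → dg T i j < 3)
    (h : patOK bt ctab zlook rlook OFF OFFR C3 T = true) :
    hasC4 T = true ∨
      4 * (N15.map (w15 (rows1Of rows1Tab) (dg T))).sum ≤
        (N60.map (u60 (baseOf bt C3) (rows3Of ctab rowsTab) (linOf ctab linT) (dg T))).sum := by
  unfold patOK at h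
  rw [orB_iff] at h
  rcases h with h | h
  · exact Or.inl h
  right
  have h' : 60 * (C3 + OFF) + 4 * rsum rlook T ≤ qsum bt ctab zlook OFF T + 60 * OFFR :=
    Nat.le_of_ble_eq_true h
  have e1 : (rsum rlook T : ℤ) = (N15.map (w15 (rows1Of rows1Tab) (dg T))).sum + 15 * OFFR := by
    unfold rsum
    rw [sumL_eq, N15c_eq, List.map_map, cast_list_sum]
    have : ∀ p ∈ N15, (((((fun p => p (fun i j k l m =>
        rlook (code3 (dg T i j) (dg T i k) (dg T j k)) (code3 (dg T i l) (dg T i m) (dg T l m)))) ∘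
        (fun (p : ℕ × ℕ × ℕ × ℕ × ℕ) (k : ℕ → ℕ → ℕ → ℕ → ℕ → ℕ) =>
          k p.1 p.2.1 p.2.2.1 p.2.2.2.1 p.2.2.2.2)) p : ℕ) : ℤ))
        = w15 (rows1Of rows1Tab) (dg T) p + OFFR := by
      intro p hp
      obtain ⟨p1, p2, p3, p4, p5⟩ := N15_lt p hp
      simp only [Function.comp]
      rw [hr _ (code3_lt (hT _ _ p1 p2) (hT _ _ p1 p3) (hT _ _ p2 p3)) _
        (code3_lt (hT _ _ p1 p4) (hT _ _ p1 p5) (hT _ _ p4 p5))]
      unfold w15 rows1Of
      ring
    rw [List.map_congr_left this, List.sum_map_add]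
    have hl : N15.length = 15 := by decide +kernel
    rw [List.map_const', List.sum_replicate, hl]
    ring
  have e2 : (qsum bt ctab zlook OFF T : ℤ) =
      (N60.map (u60 (baseOf bt C3) (rows3Of ctab rowsTab) (linOf ctab linT) (dg T))).sum
        + 60 * (C3 + OFF) := by
    unfold qsum
    rw [sumL_eq, N60c_eq, List.map_map, cast_list_sum]
    have : ∀ p ∈ N60, (((((fun p => p (fun i j k l m =>
        forceN (code3 (dg T i j) (dg T i k) (dg T j k))
          (fun τ => qterm bt ctab zlook OFF T τ i j k l m))) ∘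
        (fun (p : ℕ × ℕ × ℕ × ℕ × ℕ) (k : ℕ → ℕ → ℕ → ℕ → ℕ → ℕ) =>
          k p.1 p.2.1 p.2.2.1 p.2.2.2.1 p.2.2.2.2)) p : ℕ) : ℤ))
        = u60 (baseOf bt C3) (rows3Of ctab rowsTab) (linOf ctab linT) (dg T) p + (C3 + OFF) := by
      intro p hp
      obtain ⟨p1, p2, p3, p4, p5⟩ := N60_lt p hp
      simp only [Function.comp]
      rw [forceN_eq]
      have hτ := code3_lt (hT _ _ p1 p2) (hT _ _ p1 p3) (hT _ _ p2 p3)
      have hf := code3_lt (hT _ _ p1 p4) (hT _ _ p2 p4) (hT _ _ p3 p4)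
      have hg := code3_lt (hT _ _ p1 p5) (hT _ _ p2 p5) (hT _ _ p3 p5)
      unfold u60 w60
      generalize code3 (dg T p.1 p.2.1) (dg T p.1 p.2.2.1) (dg T p.2.1 p.2.2.1) = τ at hτ
      unfold qterm
      generalize code3 (dg T p.1 p.2.2.2.1) (dg T p.2.1 p.2.2.2.1) (dg T p.2.2.1 p.2.2.2.1) = f at hf
      generalize code3 (dg T p.1 p.2.2.2.2) (dg T p.2.1 p.2.2.2.2) (dg T p.2.2.1 p.2.2.2.2) = g at hg
      rw [forceN_eq, iteN_eq]
      have hc := hct τ hτ
      unfold baseOf rows3Of linOf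
      by_cases h7 : ctab τ = 7
      · have hn : rowsTab.getD 7 [] = [] := List.getD_eq_default _ _ (by omega)
        rw [h7, hn, hlin, hlin]
        rw [if_pos (by rfl)]
        have : dot (([] : List (List ℤ)).getD f []) (([] : List (List ℤ)).getD g []) = 0 := by
          simp [dot]
        rw [this]
        change ((bt τ + OFF : ℕ) : ℤ) = _
        push_cast
        ring
      · rw [if_neg (by intro hh; exact h7 (Nat.eq_of_beq_eq_true hh))]
        change ((bt τ + zlook (ctab τ) f g : ℕ) : ℤ) = _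
        push_cast
        rw [hz _ (by omega) f hf g hg]
        ring
    rw [List.map_congr_left this, List.sum_map_add]
    have hl : N60.length = 60 := by decide +kernel
    rw [List.map_const', List.sum_replicate, hl]
    ring
  have h'' : (60 * (C3 + OFF) + 4 * (rsum rlook T : ℤ)) ≤ qsum bt ctab zlook OFF T + 60 * OFFR := by
    exact_mod_cast h'
  rw [e1, e2] at h''
  linarith

theorem cert_mainW {V : Type*} [Fintype V] (w : V → ℝ) (hw : ∀ v, 0 ≤ w v) (h1 : ∑ v, w v = 1)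
    (t : V → V → ℕ)
    (hlt : ∀ u v, t u v < 3) (hflip : ∀ u v, t v u = flip3 (t u v)) (hC : NoC4 t)
    (hlen : rowsTab.length = 7)
    (hz : ∀ c < 7, ∀ f < 27, ∀ g < 27, (zlook c f g : ℤ) =
      OFF - dot ((rowsTab.getD c []).getD f []) ((rowsTab.getD c []).getD g []) - linT c f - linT c g)
    (hlin : ∀ f, linT 7 f = 0)
    (hct : ∀ τ < 27, ctab τ < 8)
    (hr : ∀ f < 27, ∀ g < 27, (rlook f g : ℤ) = OFFR + dot (rows1Tab.getD f []) (rows1Tab.getD g []))
    (hsym : ∀ a < 3, ∀ b < 3, ∀ c < 3,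
      rows1Of rows1Tab (code3 a b c) = rows1Of rows1Tab (code3 b a (flip3 c)))
    (hall : allL (repOK bt ctab zlook rlook OFF OFFR C3) reps = true) :
    0 ≤ ∑ a, ∑ b, ∑ c, w a * w b * w c * (baseOf bt C3 (code3 (t a b) (t a c) (t b c)) : ℝ)
      - 2 * ∑ a, ∑ b, ∑ c, ∑ d, w a * w b * w c * w d *
        (linOf ctab linT (code3 (t a b) (t a c) (t b c)) (code3 (t a d) (t b d) (t c d)) : ℝ) := by
  refine wbase_nonneg w t (baseOf bt C3) (rows3Of ctab rowsTab) (rows1Of rows1Tab)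
    (linOf ctab linT) hw h1 ?_
  refine symF_nonnegW t _ _ _ _ hlt hflip hC hsym ?_
  intro r hr' e he
  rw [allL_iff] at hall
  have h1 := hall r hr'
  unfold repOK at h1
  rw [allL_iff] at h1
  have h2 := h1 e he
  rw [forceN_eq] at h2
  exact patOKW_spec bt ctab zlook rlook OFF OFFR C3 rowsTab rows1Tab linT hlen hz hlin hct hr _
    (fun i j hi hj => dg_lt_of_mem r hr' e he i j hi hj) h2

end Link

end Pool.Agent.H5.W
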