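import Mathlib

/-!
# A Young-type inequality for step functions
-/

namespace Pool.Agent.H5.Young

open MeasureTheory Set

/-- The measure of the points of `(ξ, γ]` below `ξ + a`. -/
theorem inner_le (ξ γ a : ℝ) (ha : 0 ≤ a) :
    (∫ s in Ioc ξ γ, (if s ≤ ξ + a then (1 : ℝ) else 0)) ≤ a := by
  have h1 : (∫ s in Ioc ξ γ, (if s ≤ ξ + a then (1 : ℝ) else 0))
      = ∫ s in Ioc ξ γ, (Iic (ξ + a)).indicator (fun _ => (1 : ℝ)) s := by
    refine integral_congr_ae (ae_of_all _ fun s => ?_)
    by_cases h : s ≤ ξ + a <;> simp [h]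
  rw [h1, integral_indicator measurableSet_Iic, Measure.restrict_restrict measurableSet_Iic]
  simp only [integral_const, smul_eq_mul, mul_one, measureReal_restrict_apply_univ]
  have hsub : Iic (ξ + a) ∩ Ioc ξ γ ⊆ Ioc ξ (ξ + a) := by
    intro s hs
    exact ⟨hs.2.1, hs.1⟩
  calc volume.real (Iic (ξ + a) ∩ Ioc ξ γ) ≤ volume.real (Ioc ξ (ξ + a)) :=
        measureReal_mono hsub (by simp)
    _ = a := by
        rw [Real.volume_real_Ioc]
        simp [ha]

theorem int_lin (m γ : ℝ) : (∫ t in m..γ, 2 * (γ - t)) = (γ - m) ^ 2 := by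
  have h : ∀ t ∈ uIcc m γ, HasDerivAt (fun t => -(γ - t) ^ 2) (2 * (γ - t)) t := by
    intro t _
    have h1 : HasDerivAt (fun t : ℝ => γ - t) (-1) t := by
      simpa using (hasDerivAt_id t).const_sub γ
    have h2 : HasDerivAt (fun t => -(γ - t) ^ 2) (-(((2 : ℕ) : ℝ) * (γ - t) ^ (2 - 1) * -1)) t :=
      (h1.pow 2).neg
    exact h2.congr_deriv (by push_cast; ring)
  rw [intervalIntegral.integral_eq_sub_of_hasDerivAt h]
  · ring
  · exact (continuous_const.mul (continuous_const.sub continuous_id)).intervalIntegrable _ _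

theorem one_term (ξ γ u : ℝ) (hξγ : ξ ≤ γ) :
    (∫ t in Ioc ξ γ, 2 * (γ - t) * (if u ≤ t then (1 : ℝ) else 0)) ≤ (max (γ - u) 0) ^ 2 := by
  by_cases hu : γ < u
  · have h0 : (∫ t in Ioc ξ γ, 2 * (γ - t) * (if u ≤ t then (1 : ℝ) else 0))
        = ∫ t in Ioc ξ γ, (0 : ℝ) := by
      refine setIntegral_congr_fun measurableSet_Ioc fun t ht => ?_
      have : ¬ u ≤ t := by
        have := ht.2
        intro h
        linarith
      simp [this]
    rw [h0]
    simp only [integral_zero]
    positivity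
  · push Not at hu
    set m := max ξ u with hm
    have hmγ : m ≤ γ := max_le hξγ hu
    have h1 : (∫ t in Ioc ξ γ, 2 * (γ - t) * (if u ≤ t then (1 : ℝ) else 0))
        = ∫ t in Ioc ξ γ, (Ici u).indicator (fun t => 2 * (γ - t)) t := by
      refine integral_congr_ae (ae_of_all _ fun t => ?_)
      by_cases h : u ≤ t <;> simp [h]
    rw [h1, integral_indicator measurableSet_Ici, Measure.restrict_restrict measurableSet_Ici]
    have hsub : Ici u ∩ Ioc ξ γ ⊆ Icc m γ := by
      intro t ht
      exact ⟨max_le ht.2.1.le ht.1, ht.2.2⟩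
    have hint : IntegrableOn (fun t => 2 * (γ - t)) (Icc m γ) :=
      (continuous_const.mul (continuous_const.sub continuous_id)).continuousOn.integrableOn_Icc
    have h2 : (∫ t in Ici u ∩ Ioc ξ γ, 2 * (γ - t)) ≤ ∫ t in Icc m γ, 2 * (γ - t) := by
      refine setIntegral_mono_set hint ?_ (Filter.Eventually.of_forall hsub)
      refine (ae_restrict_iff' measurableSet_Icc).mpr (ae_of_all _ fun t ht => ?_)
      have := ht.2
      simp only [Pi.zero_apply]
      linarith
    refine h2.trans ?_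
    rw [integral_Icc_eq_integral_Ioc, ← intervalIntegral.integral_of_le hmγ, int_lin]
    have h3 : u ≤ m := le_max_right _ _
    have h4 : γ - m ≤ max (γ - u) 0 := (by linarith : γ - m ≤ γ - u).trans (le_max_left _ _)
    exact pow_le_pow_left₀ (by linarith) h4 2

theorem inner_min (ξ γ s : ℝ) (h1 : ξ ≤ s) (h2 : s ≤ γ) :
    (∫ t in Ioc ξ γ, min (2 * (γ - s)) (2 * (γ - t))) = 2 * (γ - s) * (s - ξ) + (γ - s) ^ 2 := by
  rw [← intervalIntegral.integral_of_le (h1.trans h2)]
  have hc : Continuous fun t => min (2 * (γ - s)) (2 * (γ - t)) :=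
    continuous_const.min (continuous_const.mul (continuous_const.sub continuous_id))
  rw [← intervalIntegral.integral_add_adjacent_intervals (b := s)
    (hc.intervalIntegrable _ _) (hc.intervalIntegrable _ _)]
  have e1 : (∫ t in ξ..s, min (2 * (γ - s)) (2 * (γ - t))) = ∫ _t in ξ..s, 2 * (γ - s) := by
    refine intervalIntegral.integral_congr fun t ht => ?_
    rw [uIcc_of_le h1] at ht
    have := ht.2
    exact min_eq_left (by linarith)
  have e2 : (∫ t in s..γ, min (2 * (γ - s)) (2 * (γ - t))) = ∫ t in s..γ, 2 * (γ - t) := by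
    refine intervalIntegral.integral_congr fun t ht => ?_
    rw [uIcc_of_le h2] at ht
    have := ht.1
    exact min_eq_right (by linarith)
  rw [e1, e2, int_lin, intervalIntegral.integral_const, smul_eq_mul]
  ring

theorem outer_min (ξ γ : ℝ) (h : ξ ≤ γ) :
    (∫ s in Ioc ξ γ, (∫ t in Ioc ξ γ, min (2 * (γ - s)) (2 * (γ - t)))) = 2 / 3 * (γ - ξ) ^ 3 := by
  have e : (∫ s in Ioc ξ γ, (∫ t in Ioc ξ γ, min (2 * (γ - s)) (2 * (γ - t))))
      = ∫ s in Ioc ξ γ, (2 * (γ - s) * (s - ξ) + (γ - s) ^ 2) := by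
    refine setIntegral_congr_fun measurableSet_Ioc fun s hs => ?_
    exact inner_min ξ γ s hs.1.le hs.2
  rw [e, ← intervalIntegral.integral_of_le h]
  have hd : ∀ s ∈ uIcc ξ γ, HasDerivAt
      (fun s => -(γ - s) ^ 2 * (s - ξ) - 2 / 3 * (γ - s) ^ 3) 
      (2 * (γ - s) * (s - ξ) + (γ - s) ^ 2) s := by
    intro s _
    have h1 : HasDerivAt (fun t : ℝ => γ - t) (-1) s := by
      simpa using (hasDerivAt_id s).const_sub γ
    have h2 : HasDerivAt (fun t : ℝ => t - ξ) 1 s := by
      simpa using (hasDerivAt_id s).sub_const ξ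
    have h3 : HasDerivAt (fun s => -(γ - s) ^ 2 * (s - ξ) - 2 / 3 * (γ - s) ^ 3)
        (-(((2 : ℕ) : ℝ) * (γ - s) ^ (2 - 1) * -1) * (s - ξ) + (-(γ - s) ^ 2) * 1
          - 2 / 3 * (((3 : ℕ) : ℝ) * (γ - s) ^ (3 - 1) * -1)) s :=
      ((h1.pow 2).neg.mul h2).sub ((h1.pow 3).const_mul (2 / 3))
    exact h3.congr_deriv (by push_cast; ring)
  rw [intervalIntegral.integral_eq_sub_of_hasDerivAt hd]
  · ring
  · apply Continuous.intervalIntegrable
    fun_prop

variable {V : Type*}

/-- Young-type inequality. -/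
theorem young (X Y : Finset V) (w u : V → ℝ) (hw : ∀ v, 0 ≤ w v) (ξ γ : ℝ) (hξγ : ξ ≤ γ)
    (H : ∀ s t, ξ ≤ s → s ≤ γ → ξ ≤ t → t ≤ γ →
      s - ξ ≤ (∑ x ∈ X, w x * (if u x ≤ t then 1 else 0)) ∨
      t - ξ ≤ (∑ y ∈ Y, w y * (if u y ≤ s then 1 else 0))) :
    2 / 3 * (γ - ξ) ^ 3 ≤ (∑ x ∈ X, w x * (max (γ - u x) 0) ^ 2)
      + ∑ y ∈ Y, w y * (max (γ - u y) 0) ^ 2 := by
  set μ : Measure ℝ := volume.restrict (Ioc ξ γ) with hμ
  set A : ℝ → ℝ := fun t => ∑ x ∈ X, w x * (if u x ≤ t then 1 else 0) with hA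
  set B : ℝ → ℝ := fun s => ∑ y ∈ Y, w y * (if u y ≤ s then 1 else 0) with hB
  have hA0 : ∀ t, 0 ≤ A t := fun t => Finset.sum_nonneg fun x _ =>
    mul_nonneg (hw x) (by split_ifs <;> norm_num)
  have hB0 : ∀ t, 0 ≤ B t := fun t => Finset.sum_nonneg fun x _ =>
    mul_nonneg (hw x) (by split_ifs <;> norm_num)
  have hmeas : ∀ v : V, Measurable (fun t : ℝ => (if u v ≤ t then (1 : ℝ) else 0)) := fun v =>
    Measurable.ite measurableSet_Ici measurable_const measurable_const
  have hAm : Measurable A := Finset.measurable_sum _ fun x _ => (hmeas x).const_mul _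
  have hBm : Measurable B := Finset.measurable_sum _ fun x _ => (hmeas x).const_mul _
  haveI : IsFiniteMeasure μ := by
    rw [hμ]
    infer_instance
  -- the two kernels
  set K₁ : ℝ × ℝ → ℝ := fun z => 2 * (γ - z.2) * (if z.1 ≤ ξ + A z.2 then 1 else 0) with hK₁
  set K₂ : ℝ × ℝ → ℝ := fun z => 2 * (γ - z.1) * (if z.2 ≤ ξ + B z.1 then 1 else 0) with hK₂
  set F : ℝ × ℝ → ℝ := fun z => min (2 * (γ - z.1)) (2 * (γ - z.2)) with hF
  have hI : ∀ᵐ z ∂(μ.prod μ), z.1 ∈ Ioc ξ γ ∧ z.2 ∈ Ioc ξ γ := by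
    rw [hμ, Measure.prod_restrict]
    refine (ae_restrict_iff' (measurableSet_Ioc.prod measurableSet_Ioc)).mpr (ae_of_all _ ?_)
    intro z hz
    exact hz
  have hm1 : Measurable K₁ := by
    refine Measurable.mul (by fun_prop) (Measurable.ite ?_ measurable_const measurable_const)
    exact measurableSet_le measurable_fst (measurable_const.add (hAm.comp measurable_snd))
  have hm2 : Measurable K₂ := by
    refine Measurable.mul (by fun_prop) (Measurable.ite ?_ measurable_const measurable_const)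
    exact measurableSet_le measurable_snd (measurable_const.add (hBm.comp measurable_fst))
  have hmF : Measurable F := by fun_prop
  have hi1 : Integrable K₁ (μ.prod μ) := by
    refine Integrable.of_bound hm1.aestronglyMeasurable (2 * (γ - ξ)) ?_
    filter_upwards [hI] with z hz
    have h1 := hz.2.1
    have h2 := hz.2.2
    rw [hK₁]
    simp only [Real.norm_eq_abs]
    split_ifs
    · rw [mul_one, abs_of_nonneg (by linarith)]
      linarith
    · simp
      linarith
  have hi2 : Integrable K₂ (μ.prod μ) := by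
    refine Integrable.of_bound hm2.aestronglyMeasurable (2 * (γ - ξ)) ?_
    filter_upwards [hI] with z hz
    have h1 := hz.1.1
    have h2 := hz.1.2
    rw [hK₂]
    simp only [Real.norm_eq_abs]
    split_ifs
    · rw [mul_one, abs_of_nonneg (by linarith)]
      linarith
    · simp
      linarith
  have hiF : Integrable F (μ.prod μ) := by
    refine Integrable.of_bound hmF.aestronglyMeasurable (2 * (γ - ξ)) ?_
    filter_upwards [hI] with z hz
    have h1 := hz.1.1
    have h2 := hz.1.2
    have h3 := hz.2.1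
    have h4 := hz.2.2
    rw [hF]
    simp only [Real.norm_eq_abs]
    rw [abs_of_nonneg (le_min (by linarith) (by linarith))]
    exact (min_le_left _ _).trans (by linarith)
  have hle : ∫ z, F z ∂(μ.prod μ) ≤ ∫ z, (K₁ z + K₂ z) ∂(μ.prod μ) := by
    refine integral_mono_ae hiF (hi1.add hi2) ?_
    filter_upwards [hI] with z hz
    obtain ⟨⟨h1, h2⟩, h3, h4⟩ := hz
    have k1 : 0 ≤ K₁ z := by
      rw [hK₁]
      refine mul_nonneg (by linarith) (by split_ifs <;> norm_num)
    have k2 : 0 ≤ K₂ z := by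
      rw [hK₂]
      refine mul_nonneg (by linarith) (by split_ifs <;> norm_num)
    rcases H z.1 z.2 h1.le h2 h3.le h4 with h | h
    · have : K₁ z = 2 * (γ - z.2) := by
        rw [hK₁]
        simp only
        rw [if_pos (by linarith), mul_one]
      have h5 : F z ≤ 2 * (γ - z.2) := min_le_right _ _
      linarith
    · have : K₂ z = 2 * (γ - z.1) := by
        rw [hK₂]
        simp only
        rw [if_pos (by linarith), mul_one]
      have h5 : F z ≤ 2 * (γ - z.1) := min_le_left _ _
      linarith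
  rw [integral_add hi1 hi2] at hle
  have eF : ∫ z, F z ∂(μ.prod μ) = 2 / 3 * (γ - ξ) ^ 3 := by
    rw [integral_prod _ hiF]
    exact outer_min ξ γ hξγ
  -- bound for a one-variable integral
  have key : ∀ (C : ℝ → ℝ) (Z : Finset V), (∀ t, C t = ∑ x ∈ Z, w x * (if u x ≤ t then 1 else 0)) →
      (∫ t in Ioc ξ γ, 2 * (γ - t) * C t) ≤ ∑ x ∈ Z, w x * (max (γ - u x) 0) ^ 2 := by
    intro C Z hC
    have e1 : (∫ t in Ioc ξ γ, 2 * (γ - t) * C t)
        = ∫ t in Ioc ξ γ, ∑ x ∈ Z, w x * (2 * (γ - t) * (if u x ≤ t then (1 : ℝ) else 0)) := by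
      refine integral_congr_ae (ae_of_all _ fun t => ?_)
      simp only
      rw [hC, Finset.mul_sum]
      refine Finset.sum_congr rfl fun x _ => ?_
      ring
    have hint : ∀ x ∈ Z, Integrable
        (fun t => w x * (2 * (γ - t) * (if u x ≤ t then (1 : ℝ) else 0))) μ := by
      intro x _
      refine Integrable.const_mul ?_ _
      refine Integrable.of_bound (Measurable.aestronglyMeasurable
        (Measurable.mul (by fun_prop) (hmeas x))) (2 * (γ - ξ)) ?_
      rw [hμ]
      refine (ae_restrict_iff' measurableSet_Ioc).mpr (ae_of_all _ fun t ht => ?_)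
      have h1 := ht.1
      have h2 := ht.2
      simp only [Real.norm_eq_abs]
      split_ifs
      · rw [mul_one, abs_of_nonneg (by linarith)]
        linarith
      · simp
        linarith
    rw [e1, integral_finsetSum _ hint]
    refine Finset.sum_le_sum fun x _ => ?_
    rw [integral_const_mul]
    exact mul_le_mul_of_nonneg_left (one_term ξ γ (u x) hξγ) (hw x)
  have b1 : ∫ z, K₁ z ∂(μ.prod μ) ≤ ∑ x ∈ X, w x * (max (γ - u x) 0) ^ 2 := by
    rw [integral_prod_symm _ hi1]
    refine le_trans ?_ (key A X fun t => rfl)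
    have e1 : ∀ t, ∫ s, K₁ (s, t) ∂μ
        = 2 * (γ - t) * ∫ s in Ioc ξ γ, (if s ≤ ξ + A t then (1 : ℝ) else 0) := by
      intro t
      rw [← integral_const_mul]
    simp_rw [e1]
    refine integral_mono_ae ?_ ?_ ?_
    · have := hi1.integral_prod_right
      simp_rw [e1] at this
      exact this
    · refine Integrable.of_bound (Measurable.aestronglyMeasurable
        (Measurable.mul (by fun_prop) hAm)) (2 * (γ - ξ) * ∑ x ∈ X, w x) ?_
      rw [hμ]
      refine (ae_restrict_iff' measurableSet_Ioc).mpr (ae_of_all _ fun t ht => ?_)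
      have h1 := ht.1
      have h2 := ht.2
      have h3 : A t ≤ ∑ x ∈ X, w x := by
        rw [hA]
        refine Finset.sum_le_sum fun x _ => ?_
        have := hw x
        split_ifs <;> linarith
      rw [Real.norm_eq_abs, abs_of_nonneg (mul_nonneg (by linarith) (hA0 t))]
      exact mul_le_mul (by linarith) h3 (hA0 t) (by linarith)
    · rw [hμ]
      refine (ae_restrict_iff' measurableSet_Ioc).mpr (ae_of_all _ fun t ht => ?_)
      have h2 := ht.2
      exact mul_le_mul_of_nonneg_left (inner_le ξ γ (A t) (hA0 t)) (by linarith)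
  have b2 : ∫ z, K₂ z ∂(μ.prod μ) ≤ ∑ x ∈ Y, w x * (max (γ - u x) 0) ^ 2 := by
    rw [integral_prod _ hi2]
    refine le_trans ?_ (key B Y fun t => rfl)
    have e1 : ∀ s, ∫ t, K₂ (s, t) ∂μ
        = 2 * (γ - s) * ∫ t in Ioc ξ γ, (if t ≤ ξ + B s then (1 : ℝ) else 0) := by
      intro s
      rw [← integral_const_mul]
    simp_rw [e1]
    refine integral_mono_ae ?_ ?_ ?_
    · have := hi2.integral_prod_left
      simp_rw [e1] at this
      exact this
    · refine Integrable.of_bound (Measurable.aestronglyMeasurable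
        (Measurable.mul (by fun_prop) hBm)) (2 * (γ - ξ) * ∑ x ∈ Y, w x) ?_
      rw [hμ]
      refine (ae_restrict_iff' measurableSet_Ioc).mpr (ae_of_all _ fun t ht => ?_)
      have h1 := ht.1
      have h2 := ht.2
      have h3 : B t ≤ ∑ x ∈ Y, w x := by
        rw [hB]
        refine Finset.sum_le_sum fun x _ => ?_
        have := hw x
        split_ifs <;> linarith
      rw [Real.norm_eq_abs, abs_of_nonneg (mul_nonneg (by linarith) (hB0 t))]
      exact mul_le_mul (by linarith) h3 (hB0 t) (by linarith)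
    · rw [hμ]
      refine (ae_restrict_iff' measurableSet_Ioc).mpr (ae_of_all _ fun t ht => ?_)
      have h2 := ht.2
      exact mul_le_mul_of_nonneg_left (inner_le ξ γ (B t) (hB0 t)) (by linarith)
  linarith

end Pool.Agent.H5.Young
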