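import Pool.Agent.H5.Ptw
import Pool.Agent.H5.Bip
import Pool.Agent.H5.Young

/-!
# Forced variance of the out-degrees and the final contradiction
-/

namespace Pool.Agent.H5

open Finset Bip Young

namespace Sys

variable {V : Type*} [Fintype V] (S : Sys V) (c : V → Fin 3)

/-- Out-weight into part `j`. -/
noncomputable def o (j : Fin 3) (v : V) : ℝ := S.E fun b => I c j b * S.O v b

/-- Inner weight of part `i`. -/
noncomputable def pin (i : Fin 3) : ℝ := S.E fun x => S.E fun y => I c i x * I c i y * S.A x y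

theorem o_nonneg (j : Fin 3) (v : V) : 0 ≤ S.o c j v :=
  S.E_nonneg fun b => mul_nonneg (I_nonneg c j b) (S.O_nonneg v b)

theorem o_le (j : Fin 3) (v : V) : S.o c j v ≤ S.a c j := by
  unfold o a
  refine S.E_mono fun b => ?_
  have := S.O_le v b
  have := I_nonneg c j b
  nlinarith

theorem dp_eq (v : V) : S.dp v = S.o c 0 v + S.o c 1 v + S.o c 2 v := by
  unfold dp o
  exact S.E_part c (fun b => S.O v b)

theorem pin_nonneg (i : Fin 3) : 0 ≤ S.pin c i :=
  S.E_nonneg fun x => S.E_nonneg fun y =>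
    mul_nonneg (mul_nonneg (I_nonneg c i x) (I_nonneg c i y)) (S.A_nonneg x y)

theorem pin_sum : S.pin c 0 + S.pin c 1 + S.pin c 2 = S.E (S.p c) := by
  unfold pin p
  rw [← S.E_add, ← S.E_add]
  refine S.E_congr fun x => ?_
  rw [← S.E_add, ← S.E_add]
  refine S.E_congr fun y => ?_
  rw [sm_eq]
  ring

theorem pin_half (i : Fin 3) : S.E (fun x => I c i x * S.o c i x) = S.pin c i / 2 := by
  have h1 : S.E (fun x => I c i x * S.o c i x)
      = S.E (fun x => S.E fun y => I c i x * I c i y * S.O x y) := by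
    refine S.E_congr fun x => ?_
    unfold o
    rw [← S.E_mulL]
    refine S.E_congr fun y => ?_
    ring
  have h2 : S.pin c i = S.E (fun x => S.E fun y => I c i x * I c i y * S.O x y)
      + S.E (fun x => S.E fun y => I c i x * I c i y * S.O y x) := by
    unfold pin
    rw [← S.E_add]
    refine S.E_congr fun x => ?_
    rw [← S.E_add]
    refine S.E_congr fun y => ?_
    unfold A
    ring
  have h3 : S.E (fun x => S.E fun y => I c i x * I c i y * S.O y x)
      = S.E (fun x => S.E fun y => I c i x * I c i y * S.O x y) := by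
    rw [S.E_comm]
    refine S.E_congr fun x => S.E_congr fun y => ?_
    ring
  rw [h1]
  linarith

/-- Lower bound for the squared deficit of a vertex. -/
theorem gsq (i j k : Fin 3) (hij : i ≠ j) (hik : i ≠ k) (hjk : j ≠ k) (hk : S.a c k ≤ 1 / 3)
    (v : V) : max (1 / 3 - S.a c k - S.o c j v) 0 ^ 2 - 2 * (1 / 3 - S.a c k) * S.o c i v
      ≤ S.g v ^ 2 := by
  have h1 := S.dp_eq c v
  rw [perm3 (fun i => S.o c i v) hij hik hjk] at h1
  beta_reduce at h1
  have h2 := S.o_le c k v
  have h3 := S.o_nonneg c i v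
  have h4 := S.o_nonneg c j v
  have hg : 1 / 3 - S.a c k - S.o c j v - S.o c i v ≤ S.g v := by unfold g; linarith
  set γ := 1 / 3 - S.a c k with hγ
  have hγ0 : 0 ≤ γ := by linarith
  set z := γ - S.o c j v with hz
  have hzγ : z ≤ γ := by linarith
  rcases le_total z 0 with h | h
  · rw [max_eq_right h]
    nlinarith [sq_nonneg (S.g v), mul_nonneg hγ0 h3]
  · rw [max_eq_left h]
    rcases le_total (S.o c i v) z with h' | h'
    · have h5 : (z - S.o c i v) ^ 2 ≤ S.g v ^ 2 := pow_le_pow_left₀ (by linarith) hg 2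
      nlinarith [mul_nonneg (sub_nonneg.mpr hzγ) h3, sq_nonneg (S.o c i v)]
    · nlinarith [sq_nonneg (S.g v), mul_nonneg h (sub_nonneg.mpr hzγ), mul_nonneg hγ0 (sub_nonneg.mpr h')]

/-- The forced second moment. -/
theorem G_ge (i j k : Fin 3) (hij : i ≠ j) (hik : i ≠ k) (hjk : j ≠ k) (hk : S.a c k ≤ 1 / 3) :
    S.E (fun v => I c i v * max (1 / 3 - S.a c k - S.o c j v) 0 ^ 2)
    + S.E (fun v => I c j v * max (1 / 3 - S.a c k - S.o c i v) 0 ^ 2)
    - (1 / 3 - S.a c k) * (S.pin c i + S.pin c j) ≤ S.G := by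
  have e : S.E (fun v => I c i v * max (1 / 3 - S.a c k - S.o c j v) 0 ^ 2)
    + S.E (fun v => I c j v * max (1 / 3 - S.a c k - S.o c i v) 0 ^ 2)
    - (1 / 3 - S.a c k) * (S.pin c i + S.pin c j)
    = S.E (fun v => I c i v * max (1 / 3 - S.a c k - S.o c j v) 0 ^ 2
      + I c j v * max (1 / 3 - S.a c k - S.o c i v) 0 ^ 2
      - 2 * (1 / 3 - S.a c k) * (I c i v * S.o c i v + I c j v * S.o c j v)) := by
    rw [S.E_sub, S.E_add, S.E_mulL, S.E_add, S.pin_half, S.pin_half]
    ring
  rw [e]
  unfold G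
  refine S.E_mono fun v => ?_
  have g1 := S.gsq c i j k hij hik hjk hk v
  have g2 := S.gsq c j i k hij.symm hjk hik hk v
  by_cases h1 : c v = i
  · have h2 : c v ≠ j := fun h => hij (h1.symm.trans h)
    have i1 : I c i v = 1 := by unfold I; rw [if_pos h1]
    have i2 : I c j v = 0 := by unfold I; rw [if_neg h2]
    rw [i1, i2]
    linarith
  · have i1 : I c i v = 0 := by unfold I; rw [if_neg h1]
    by_cases h2 : c v = j
    · have i2 : I c j v = 1 := by unfold I; rw [if_pos h2]
      rw [i1, i2]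
      linarith
    · have i2 : I c j v = 0 := by unfold I; rw [if_neg h2]
      rw [i1, i2]
      have := sq_nonneg (S.g v)
      linarith

/-- The parts as finite sets. -/
noncomputable def part (i : Fin 3) : Finset V := univ.filter fun v => c v = i

theorem E_part_eq (i : Fin 3) (f : V → ℝ) :
    ∑ v ∈ part c i, S.w v * f v = S.E fun v => I c i v * f v := by
  unfold part E I
  rw [sum_filter]
  refine sum_congr rfl fun v _ => ?_
  beta_reduce
  by_cases h : c v = i
  · rw [if_pos h, if_pos h]; ring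
  · rw [if_neg h, if_neg h]; ring

theorem mu_part (i : Fin 3) : mu S.w (part c i) = S.a c i := by
  have h := S.E_part_eq c i (fun _ => 1)
  unfold mu a
  simp only [mul_one] at h
  exact h

open Classical in
theorem dbl_part (i j : Fin 3) (R : V → V → Prop) :
    dbl S.w R (part c i) (part c j)
      = S.E fun x => I c i x * S.E fun y => I c j y * (if R x y then 1 else 0) := by
  unfold dbl
  rw [S.E_part_eq c i (fun x => mu S.w ((part c j).filter fun y => R x y))]
  refine S.E_congr fun x => ?_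
  congr 1
  have h : mu S.w ((part c j).filter fun y => R x y)
      = ∑ y ∈ part c j, S.w y * (if R x y then 1 else 0) := by
    unfold mu
    rw [sum_filter]
    refine sum_congr rfl fun v _ => ?_
    split_ifs <;> ring
  rw [h]
  exact S.E_part_eq c j (fun y => if R x y then 1 else 0)

/-- Adjacency. -/
def Adj (u v : V) : Prop := S.arc u v ∨ S.arc v u

open Classical in
theorem adj_ind (u v : V) : (if S.Adj u v then (1 : ℝ) else 0) = S.A u v := by
  unfold Adj A
  rcases S.cases3 u v with h | h | h <;> simp [h.1, h.2.1, h.2.2.1, h.2.2.2]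

theorem non_ind (u v : V) (d : Decidable (¬ S.Adj u v)) :
    (@ite ℝ (¬ S.Adj u v) d 1 0) = S.N u v := by
  classical
  unfold N
  rw [← S.adj_ind]
  by_cases h : S.Adj u v <;> simp [h]

theorem dbl_non (i j : Fin 3) :
    dbl S.w (fun u v => ¬ S.Adj u v) (part c i) (part c j) = S.M c i j := by
  rw [S.dbl_part]
  unfold M n
  refine S.E_congr fun x => ?_
  congr 1
  refine S.E_congr fun y => ?_
  rw [S.non_ind]

theorem dbl_adj (i : Fin 3) : dbl S.w S.Adj (part c i) (part c i) = S.pin c i := by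
  rw [S.dbl_part]
  unfold pin
  refine S.E_congr fun x => ?_
  rw [← S.E_mulL]
  refine S.E_congr fun y => ?_
  rw [S.adj_ind]
  ring

open Classical in
/-- One side of the covering alternative. -/
theorem mu_lower (j : Fin 3) (f : V → ℝ) (x : V) (s : ℝ) :
    S.o c j x - (∑ y ∈ part c j, S.w y * (if f y ≤ s then 1 else 0))
      ≤ mu S.w (((part c j).filter fun y => s < f y).filter fun y => S.arc x y) := by
  have h1 : S.o c j x = ∑ y ∈ part c j, S.w y * S.O x y := (S.E_part_eq c j (S.O x)).symm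
  rw [h1, ← sum_sub_distrib]
  unfold mu
  rw [sum_filter, sum_filter]
  refine sum_le_sum fun y _ => ?_
  have hw := S.pos y
  unfold O
  by_cases h2 : f y ≤ s
  · have h3 : ¬ s < f y := not_lt.mpr h2
    rw [if_pos h2, if_neg h3]
    split_ifs <;> linarith
  · have h3 : s < f y := not_le.mp h2
    rw [if_neg h2, if_pos h3]
    split_ifs <;> linarith

/-- The forced variance. -/
theorem forced (i j : Fin 3) (hij : i ≠ j) (γ ξ : ℝ) (hξ : 0 ≤ ξ) (hξγ : ξ ≤ γ)
    (hW : S.M c i j + S.pin c i + S.pin c j ≤ 7 / 18 * ξ ^ 2) (hi : γ ≤ S.a c i)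
    (hj : γ ≤ S.a c j) :
    2 / 3 * (γ - ξ) ^ 3 ≤ S.E (fun v => I c i v * max (γ - S.o c j v) 0 ^ 2)
      + S.E (fun v => I c j v * max (γ - S.o c i v) 0 ^ 2) := by
  classical
  set u : V → ℝ := fun v => if c v = i then S.o c j v else S.o c i v with hu
  have ui : ∀ v ∈ part c i, u v = S.o c j v := by
    intro v hv
    unfold part at hv
    rw [mem_filter] at hv
    simp only [hu]
    rw [if_pos hv.2]
  have uj : ∀ v ∈ part c j, u v = S.o c i v := by
    intro v hv
    unfold part at hv
    rw [mem_filter] at hv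
    simp only [hu]
    rw [if_neg (fun h => hij (h.symm.trans hv.2))]
  have hY := young (part c i) (part c j) S.w u (fun v => (S.pos v).le) ξ γ hξγ ?_
  · rw [← S.E_part_eq c i (fun v => max (γ - S.o c j v) 0 ^ 2),
      ← S.E_part_eq c j (fun v => max (γ - S.o c i v) 0 ^ 2)]
    refine hY.trans_eq ?_
    congr 1
    · refine sum_congr rfl fun v hv => ?_
      rw [ui v hv]
    · refine sum_congr rfl fun v hv => ?_
      rw [uj v hv]
  · intro s t hs1 hs2 ht1 ht2
    by_contra hcon
    push Not at hcon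
    obtain ⟨hα, hβ⟩ := hcon
    set α := ∑ x ∈ part c i, S.w x * (if u x ≤ t then 1 else 0) with hαd
    set β := ∑ y ∈ part c j, S.w y * (if u y ≤ s then 1 else 0) with hβd
    have hα' : α = ∑ x ∈ part c i, S.w x * (if S.o c j x ≤ t then 1 else 0) := by
      rw [hαd]
      refine sum_congr rfl fun x hx => ?_
      rw [ui x hx]
    have hβ' : β = ∑ y ∈ part c j, S.w y * (if S.o c i y ≤ s then 1 else 0) := by
      rw [hβd]
      refine sum_congr rfl fun x hx => ?_
      rw [uj x hx]
    set X' := (part c i).filter fun x => t < S.o c j x with hX'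
    set Y' := (part c j).filter fun y => s < S.o c i y with hY'
    have muX : mu S.w X' = S.a c i - α := by
      have h := mu_filter (w := S.w) (part c i) (fun x => t < S.o c j x)
      rw [S.mu_part] at h
      have h2 : mu S.w ((part c i).filter fun x => ¬ t < S.o c j x) = α := by
        rw [hα']
        unfold mu
        rw [sum_filter]
        refine sum_congr rfl fun x _ => ?_
        by_cases h3 : S.o c j x ≤ t
        · rw [if_pos h3, if_pos (not_lt.mpr h3)]; ring
        · rw [if_neg h3, if_neg (not_not.mpr (not_le.mp h3))]; ring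
      rw [h2] at h
      linarith
    have muY : mu S.w Y' = S.a c j - β := by
      have h := mu_filter (w := S.w) (part c j) (fun x => s < S.o c i x)
      rw [S.mu_part] at h
      have h2 : mu S.w ((part c j).filter fun x => ¬ s < S.o c i x) = β := by
        rw [hβ']
        unfold mu
        rw [sum_filter]
        refine sum_congr rfl fun x _ => ?_
        by_cases h3 : S.o c i x ≤ s
        · rw [if_pos h3, if_pos (not_lt.mpr h3)]; ring
        · rw [if_neg h3, if_neg (not_not.mpr (not_le.mp h3))]; ring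
      rw [h2] at h
      linarith
    have neX : X'.Nonempty := by
      by_contra hne
      rw [not_nonempty_iff_eq_empty] at hne
      rw [hne] at muX
      have : mu S.w ∅ = 0 := by simp [mu]
      linarith
    have neY : Y'.Nonempty := by
      by_contra hne
      rw [not_nonempty_iff_eq_empty] at hne
      rw [hne] at muY
      have : mu S.w ∅ = 0 := by simp [mu]
      linarith
    set ξ' := min (t - β) (s - α) with hξ'
    have hlt : ξ < ξ' := by
      rw [hξ', lt_min_iff]
      constructor <;> linarith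
    have hd := defect_bound S.pos S.arc S.Adj S.asymm (fun _ _ => Iff.rfl) S.c4
      (fun u v => ¬ S.Adj u v) (fun _ _ => Iff.rfl) X' Y' ξ' (lt_of_le_of_lt hξ hlt) ?_ ?_ neX neY
    · have m1 : dbl S.w (fun u v => ¬ S.Adj u v) X' Y' ≤ S.M c i j := by
        rw [← S.dbl_non]
        exact dbl_mono S.pos (filter_subset _ _) (filter_subset _ _) fun _ _ _ _ h => h
      have m2 : dbl S.w S.Adj X' X' ≤ S.pin c i := by
        rw [← S.dbl_adj]
        exact dbl_mono S.pos (filter_subset _ _) (filter_subset _ _) fun _ _ _ _ h => h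
      have m3 : dbl S.w S.Adj Y' Y' ≤ S.pin c j := by
        rw [← S.dbl_adj]
        exact dbl_mono S.pos (filter_subset _ _) (filter_subset _ _) fun _ _ _ _ h => h
      have : ξ ^ 2 < ξ' ^ 2 := pow_lt_pow_left₀ hlt hξ (by norm_num)
      linarith
    · intro y hy
      have hy2 := (mem_filter.mp hy).2
      have := S.mu_lower c i (S.o c j) y t
      rw [← hα'] at this
      exact (min_le_right _ _).trans (by linarith)
    · intro x hx
      have hx2 := (mem_filter.mp hx).2
      have := S.mu_lower c j (S.o c i) x s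
      rw [← hβ'] at this
      exact (min_le_left _ _).trans (by linarith)

variable {S c}

/-- The contradiction. -/
theorem Good.contra (H : S.Good c) (i j k : Fin 3) (hij : i ≠ j) (hik : i ≠ k) (hjk : j ≠ k)
    (hi : 1 / 3 ≤ S.a c i) (hj : 1 / 3 ≤ S.a c j) (hk : S.a c k < 1 / 3)
    (hs : 3 * ((S.a c i - 1 / 3) * (S.a c j - 1 / 3) * (S.a c k - 1 / 3)) + 3 * S.G
      + 173 / 200 * S.E (S.p c) + S.M c i j * (289 / 100 - 6 * S.a c k) < 0) : False := by
  have hsum := S.a_sum c
  rw [perm3 (fun i => S.a c i) hij hik hjk] at hsum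
  beta_reduce at hsum
  have hM := S.M_nonneg c i j
  have hG := S.G_nonneg
  have hP0 := H.P_nonneg
  have hP := H.P_le
  have hpi := S.pin_nonneg c i
  have hpj := S.pin_nonneg c j
  have hpk := S.pin_nonneg c k
  have hps := S.pin_sum c
  rw [perm3 (fun i => S.pin c i) hij hik hjk] at hps
  beta_reduce at hps
  have hdev := a_dev H.S2 k
  have hGge := S.G_ge c i j k hij hik hjk hk.le
  obtain ⟨γ, hγ⟩ : ∃ γ, γ = 1 / 3 - S.a c k := ⟨_, rfl⟩
  rw [← hγ] at hGge
  have hak : S.a c k = 1 / 3 - γ := by linarith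
  have hγ0 : 0 < γ := by linarith
  have hprod : (S.a c i - 1 / 3) * (S.a c j - 1 / 3) ≤ γ ^ 2 / 4 := by
    have : γ = (S.a c i - 1 / 3) + (S.a c j - 1 / 3) := by linarith
    rw [this]
    nlinarith [sq_nonneg ((S.a c i - 1 / 3) - (S.a c j - 1 / 3))]
  have hprod3 : (S.a c i - 1 / 3) * (S.a c j - 1 / 3) * γ ≤ γ ^ 2 / 4 * γ :=
    mul_le_mul_of_nonneg_right hprod hγ0.le
  have hMg : 0 ≤ S.M c i j * γ := mul_nonneg hM hγ0.le
  have h1 : 3 * S.G + 173 / 200 * (S.E (S.p c) + S.M c i j) < 3 / 4 * γ ^ 3 := by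
    rw [hak] at hs
    nlinarith
  rw [hak] at hdev
  have hγ2 : γ ^ 2 ≤ 2 / 3 * (0.012789 + S.E (S.p c)) := by
    have : (1 / 3 - γ - 1 / 3) ^ 2 = γ ^ 2 := by ring
    rw [this] at hdev
    exact hdev
  have hγa : γ ≤ 0.1027 := by
    by_contra hc
    push Not at hc
    norm_num at hc hγ2 hP
    nlinarith
  have hP2 : S.E (S.p c) ≤ 0.000940 := by
    have h2 : γ ^ 3 ≤ 0.1027 * (2 / 3 * (0.012789 + 0.003)) := by
      have : γ ^ 3 = γ * γ ^ 2 := by ring
      rw [this]
      refine mul_le_mul hγa ?_ (sq_nonneg _) (by norm_num)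
      linarith
    norm_num at h2 ⊢
    linarith
  have hγb : γ ≤ 0.0957 := by
    by_contra hc
    push Not at hc
    norm_num at hc hγ2 hP2
    nlinarith
  obtain ⟨W, hW⟩ : ∃ W, W = S.M c i j + S.pin c i + S.pin c j := ⟨_, rfl⟩
  have hW0 : 0 ≤ W := by linarith
  obtain ⟨ξ, hξ⟩ : ∃ ξ, ξ = Real.sqrt (18 / 7 * W) := ⟨_, rfl⟩
  have hξ0 : 0 ≤ ξ := by rw [hξ]; exact Real.sqrt_nonneg _
  have hξ2 : 7 / 18 * ξ ^ 2 = W := by
    rw [hξ, Real.sq_sqrt (by positivity)]
    ring
  have hγc : 0.865 - 3 * γ ≥ 0.5779 := by norm_num at hγb ⊢; linarith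
  rcases le_total ξ γ with hle | hle
  · have hf := S.forced c i j hij γ ξ hξ0 hle (by rw [hξ2, hW]) (by norm_num at hγb; linarith)
      (by norm_num at hγb; linarith)
    have h3 : 2 * (γ - ξ) ^ 3 + (0.865 - 3 * γ) * W < 3 / 4 * γ ^ 3 := by
      have h4 : (0.865 - 3 * γ) * W ≤ 173 / 200 * (S.E (S.p c) + S.M c i j)
          - 3 * (γ * (S.pin c i + S.pin c j)) := by
        rw [hW]
        norm_num
        nlinarith
      linarith
    have h5 : 2.3 * γ * ξ ^ 2 ≤ (0.865 - 3 * γ) * W := by
      rw [← hξ2]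
      have : 2.3 * γ * (18 / 7) ≤ 0.865 - 3 * γ := by norm_num at hγb hγc ⊢; linarith
      have h6 := mul_le_mul_of_nonneg_right this (by positivity : 0 ≤ 7 / 18 * ξ ^ 2)
      refine le_trans (le_of_eq ?_) h6
      ring
    have h7 : 3 / 4 * γ ^ 3 ≤ 2 * (γ - ξ) ^ 3 + 2.3 * γ * ξ ^ 2 := by
      have h8 : 0 ≤ (6.59 * γ - 2 * ξ) * (ξ - 0.4275 * γ) ^ 2 := by
        refine mul_nonneg ?_ (sq_nonneg _)
        norm_num
        linarith
      have h9 : ξ * γ ^ 2 ≤ γ * γ ^ 2 := mul_le_mul_of_nonneg_right hle (sq_nonneg _)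
      have h10 : 0 ≤ γ ^ 3 := by positivity
      norm_num at h8 ⊢
      nlinarith
    linarith
  · have h3 : γ ^ 2 ≤ ξ ^ 2 := pow_le_pow_left₀ hγ0.le hle 2
    have h4 : W ≤ S.E (S.p c) + S.M c i j := by linarith
    have h5 : 3 / 4 * γ ^ 3 ≤ 0.08 * γ ^ 2 := by
      have h6 : 0.75 * γ ≤ 0.08 := by norm_num at hγb ⊢; linarith
      have := mul_le_mul_of_nonneg_right h6 (sq_nonneg γ)
      refine le_trans (le_of_eq ?_) this
      norm_num
      ring
    norm_num at h5
    nlinarith

theorem Good.elim (H : S.Good c) : False := by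
  have h0 := S.star c H.hp H.hn
  have hh := H.hh
  have a0 := H.a_bd 0
  have a1 := H.a_bd 1
  have a2 := H.a_bd 2
  norm_num at a0 a1 a2
  have hsum := S.a_sum c
  have m01 := S.M_nonneg c 0 1
  have m02 := S.M_nonneg c 0 2
  have m12 := S.M_nonneg c 1 2
  have t01 : 0 ≤ S.M c 0 1 * (289 / 100 - 6 * S.a c 2) := mul_nonneg m01 (by linarith)
  have t02 : 0 ≤ S.M c 0 2 * (289 / 100 - 6 * S.a c 1) := mul_nonneg m02 (by linarith)
  have t12 : 0 ≤ S.M c 1 2 * (289 / 100 - 6 * S.a c 0) := mul_nonneg m12 (by linarith)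
  have hG := S.G_nonneg
  have hP := H.P_nonneg
  have hneg : (S.a c 0 - 1 / 3) * (S.a c 1 - 1 / 3) * (S.a c 2 - 1 / 3) < 0 := by linarith
  -- find the small part
  rcases lt_or_ge (S.a c 2) (1 / 3) with h2 | h2
  · rcases lt_or_ge (S.a c 1) (1 / 3) with h1 | h1
    · exfalso
      have : 0 < S.a c 0 - 1 / 3 := by linarith
      have h3 : 0 < (S.a c 1 - 1 / 3) * (S.a c 2 - 1 / 3) :=
        mul_pos_of_neg_of_neg (by linarith) (by linarith)
      have := mul_pos this h3
      linarith
    · rcases lt_or_ge (S.a c 0) (1 / 3) with h3 | h3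
      · exfalso
        have h4 : 0 < (S.a c 0 - 1 / 3) * (S.a c 2 - 1 / 3) :=
          mul_pos_of_neg_of_neg (by linarith) (by linarith)
        have := mul_nonneg (sub_nonneg.mpr h1) h4.le
        linarith
      · exact H.contra 0 1 2 (by decide) (by decide) (by decide) h3 h1 h2 (by linarith)
  · rcases lt_or_ge (S.a c 1) (1 / 3) with h1 | h1
    · rcases lt_or_ge (S.a c 0) (1 / 3) with h3 | h3
      · exfalso
        have h4 : 0 < (S.a c 0 - 1 / 3) * (S.a c 1 - 1 / 3) :=
          mul_pos_of_neg_of_neg (by linarith) (by linarith)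
        have := mul_nonneg h4.le (sub_nonneg.mpr h2)
        linarith
      · refine H.contra 0 2 1 (by decide) (by decide) (by decide) h3 h2 h1 ?_
        have : (S.a c 0 - 1 / 3) * (S.a c 2 - 1 / 3) * (S.a c 1 - 1 / 3)
          = (S.a c 0 - 1 / 3) * (S.a c 1 - 1 / 3) * (S.a c 2 - 1 / 3) := by ring
        rw [this]
        linarith
    · rcases lt_or_ge (S.a c 0) (1 / 3) with h3 | h3
      · refine H.contra 1 2 0 (by decide) (by decide) (by decide) h1 h2 h3 ?_
        have : (S.a c 1 - 1 / 3) * (S.a c 2 - 1 / 3) * (S.a c 0 - 1 / 3)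
          = (S.a c 0 - 1 / 3) * (S.a c 1 - 1 / 3) * (S.a c 2 - 1 / 3) := by ring
        rw [this]
        linarith
      · exfalso
        have := mul_nonneg (mul_nonneg (sub_nonneg.mpr h3) (sub_nonneg.mpr h1))
          (sub_nonneg.mpr h2)
        linarith

variable (S)

/-- At an optimal weighting the edge density is at least `4/9`. -/
theorem four_ninths (hF : ∀ v, S.lk v = S.h) : 4 / 9 ≤ S.h := by
  by_contra hc
  push Not at hc
  obtain ⟨c, hmin⟩ := S.exists_min
  exact Good.elim ⟨hc, hF, hmin⟩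

end Sys

end Pool.Agent.H5
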