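import Mathlib

/-!
# Minimizers of a symmetric cubic form on the simplex
-/

namespace Pool.Agent.H5.Opt

open Finset

variable {V : Type*} [Fintype V]

/-- Trilinear form. -/
noncomputable def T (F : V → V → V → ℝ) (x y z : V → ℝ) : ℝ :=
  ∑ a, ∑ b, ∑ c, x a * y b * z c * F a b c

/-- Cubic form. -/
noncomputable def H (F : V → V → V → ℝ) (w : V → ℝ) : ℝ := T F w w w

/-- Partial derivative (up to the factor 3). -/
noncomputable def L (F : V → V → V → ℝ) (w : V → ℝ) (a : V) : ℝ :=
  ∑ b, ∑ c, w b * w c * F a b c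

theorem T_swap12 (F : V → V → V → ℝ) (s12 : ∀ a b c, F b a c = F a b c) (x y z : V → ℝ) :
    T F x y z = T F y x z := by
  unfold T
  rw [sum_comm]
  refine sum_congr rfl fun a _ => sum_congr rfl fun b _ => sum_congr rfl fun c _ => ?_
  rw [s12]
  ring

theorem T_swap23 (F : V → V → V → ℝ) (s23 : ∀ a b c, F a c b = F a b c) (x y z : V → ℝ) :
    T F x y z = T F x z y := by
  unfold T
  refine sum_congr rfl fun a _ => ?_
  rw [sum_comm]
  refine sum_congr rfl fun b _ => sum_congr rfl fun c _ => ?_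
  rw [s23]
  ring

theorem H_eq (F : V → V → V → ℝ) (w : V → ℝ) : H F w = ∑ a, w a * L F w a := by
  unfold H T L
  refine sum_congr rfl fun a _ => ?_
  rw [mul_sum]
  refine sum_congr rfl fun b _ => ?_
  rw [mul_sum]
  refine sum_congr rfl fun c _ => ?_
  ring

theorem T_eq (F : V → V → V → ℝ) (x w : V → ℝ) : T F x w w = ∑ a, x a * L F w a := by
  unfold T L
  refine sum_congr rfl fun a _ => ?_
  rw [mul_sum]
  refine sum_congr rfl fun b _ => ?_
  rw [mul_sum]
  refine sum_congr rfl fun c _ => ?_
  ring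

theorem H_expand (F : V → V → V → ℝ) (s12 : ∀ a b c, F b a c = F a b c)
    (s23 : ∀ a b c, F a c b = F a b c) (w d : V → ℝ) (t : ℝ) :
    H F (fun a => w a + t * d a) = H F w + 3 * t * T F d w w + 3 * t ^ 2 * T F d d w
      + t ^ 3 * T F d d d := by
  have e : H F (fun a => w a + t * d a) = T F w w w + t * T F d w w + t * T F w d w
      + t * T F w w d + t ^ 2 * T F d d w + t ^ 2 * T F d w d + t ^ 2 * T F w d d
      + t ^ 3 * T F d d d := by
    unfold H T
    simp only [mul_sum, ← sum_add_distrib]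
    refine sum_congr rfl fun a _ => sum_congr rfl fun b _ => sum_congr rfl fun c _ => ?_
    ring
  rw [e]
  have e1 : T F w d w = T F d w w := T_swap12 F s12 w d w
  have e2 : T F w w d = T F d w w := by rw [T_swap23 F s23, e1]
  have e3 : T F d w d = T F d d w := T_swap23 F s23 d w d
  have e4 : T F w d d = T F d d w := by rw [T_swap12 F s12, e3]
  rw [e1, e2, e3, e4]
  unfold H
  ring

theorem exists_opt [Nonempty V] (F : V → V → V → ℝ) (s12 : ∀ a b c, F b a c = F a b c)
    (s23 : ∀ a b c, F a c b = F a b c) :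
    ∃ w : V → ℝ, (∀ v, 0 ≤ w v) ∧ ∑ v, w v = 1 ∧
      (∀ w' : V → ℝ, (∀ v, 0 ≤ w' v) → ∑ v, w' v = 1 → H F w ≤ H F w') ∧
      (∀ v, 0 < w v → L F w v = H F w) := by
  classical
  have hcont : Continuous (H F) := by
    unfold H T
    fun_prop
  have hne : (stdSimplex ℝ V).Nonempty := by
    obtain ⟨v⟩ := ‹Nonempty V›
    exact ⟨Pi.single v 1, single_mem_stdSimplex ℝ v⟩
  obtain ⟨w, hw, hmin⟩ := (isCompact_stdSimplex ℝ V).exists_isMinOn hne hcont.continuousOn
  have hmin' : ∀ w' : V → ℝ, (∀ v, 0 ≤ w' v) → ∑ v, w' v = 1 → H F w ≤ H F w' :=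
    fun w' h1 h2 => hmin ⟨h1, h2⟩
  have hw0 : ∀ v, 0 ≤ w v := hw.1
  have hw1 : ∑ v, w v = 1 := hw.2
  refine ⟨w, hw0, hw1, hmin', ?_⟩
  have hge : ∀ v, H F w ≤ L F w v := by
    intro v
    by_contra hc
    push Not at hc
    set d : V → ℝ := fun a => (if a = v then 1 else 0) - w a with hd
    have hTd : T F d w w = L F w v - H F w := by
      rw [T_eq, H_eq]
      simp only [hd, sub_mul, sum_sub_distrib]
      congr 1
      simp
    set A := L F w v - H F w with hA
    set B := T F d d w
    set C := T F d d d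
    have hA0 : A < 0 := by linarith
    set t : ℝ := min 1 (-A / (|B| + |C| + 1)) with ht
    have hden : 0 < |B| + |C| + 1 := by positivity
    have ht0 : 0 < t := by
      rw [ht]
      refine lt_min one_pos (div_pos (by linarith) hden)
    have ht1 : t ≤ 1 := min_le_left _ _
    have ht2 : t * (|B| + |C| + 1) ≤ -A := by
      have : t ≤ -A / (|B| + |C| + 1) := min_le_right _ _
      rwa [le_div_iff₀ hden] at this
    have hH := hmin' (fun a => w a + t * d a) ?_ ?_
    · rw [H_expand F s12 s23, hTd] at hH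
      have hB := le_abs_self B
      have hC := le_abs_self C
      have hC0 := abs_nonneg C
      have hB0 := abs_nonneg B
      have k1 : t ^ 3 * C ≤ t ^ 2 * |C| := by
        have : t ^ 3 * C ≤ t ^ 3 * |C| := mul_le_mul_of_nonneg_left hC (by positivity)
        have h2 : t ^ 3 * |C| ≤ t ^ 2 * |C| := by
          refine mul_le_mul_of_nonneg_right ?_ hC0
          nlinarith [sq_nonneg t]
        linarith
      have k2 : 3 * t ^ 2 * B ≤ 3 * t ^ 2 * |B| := mul_le_mul_of_nonneg_left hB (by positivity)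
      have k3 : t * (t * (|B| + |C| + 1)) ≤ t * (-A) := mul_le_mul_of_nonneg_left ht2 ht0.le
      have k4 : 0 < t ^ 2 := by positivity
      have k5 : 0 ≤ t ^ 2 * |C| := by positivity
      nlinarith
    · intro a
      simp only [hd]
      have h1 := hw0 a
      split_ifs
      · nlinarith
      · nlinarith
    · simp only [hd]
      rw [sum_add_distrib, ← mul_sum, sum_sub_distrib, hw1]
      simp
  have hz : ∑ v, w v * (L F w v - H F w) = 0 := by
    have : ∑ v, w v * (L F w v - H F w) = ∑ v, w v * L F w v - (∑ v, w v) * H F w := by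
      rw [sum_mul, ← sum_sub_distrib]
      exact sum_congr rfl fun v _ => by ring
    rw [this, ← H_eq, hw1]
    ring
  have hz' := (sum_eq_zero_iff_of_nonneg (fun v _ => mul_nonneg (hw0 v)
    (sub_nonneg.mpr (hge v)))).mp hz
  intro v hv
  have := hz' v (mem_univ v)
  rcases mul_eq_zero.mp this with h | h
  · linarith
  · linarith

end Pool.Agent.H5.Opt
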