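import Pool.Agent.H5.Forced
import Pool.Agent.H5.Opt
import Pool.Agent.H5.FDFCount

/-!
# From oriented graphs to weighted systems
-/

namespace Pool.Agent.H5

open Finset

theorem hv_swap12 : ∀ a < 3, ∀ b < 3, ∀ c < 3, hv (flip3 a) c b = hv a b c := by decide

theorem hv_swap23 : ∀ a < 3, ∀ b < 3, ∀ c < 3, hv b a (flip3 c) = hv a b c := by decide

theorem sum_support {V : Type*} [Fintype V] (w : V → ℝ) (hw : ∀ v, 0 ≤ w v) (f : V → ℝ) :
    ∑ v : {v // 0 < w v}, w v.1 * f v.1 = ∑ v, w v * f v := by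
  classical
  have h1 : ∑ v ∈ univ.filter (fun v => 0 < w v), w v * f v
      = ∑ v : {v // 0 < w v}, w v.1 * f v.1 :=
    sum_subtype _ (fun v => by simp) (fun v => w v * f v)
  rw [← h1, sum_filter]
  refine sum_congr rfl fun v _ => ?_
  split_ifs with h
  · rfl
  · have : w v = 0 := le_antisymm (not_lt.mp h) (hw v)
    rw [this, zero_mul]

namespace Orgraph

variable {n : ℕ} (Γ : Orgraph n)

/-- Real pattern value. -/
noncomputable def F (a b c : Fin n) : ℝ := (Γ.hval a b c : ℝ)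

theorem F_swap12 (a b c : Fin n) : Γ.F b a c = Γ.F a b c := by
  unfold F hval
  rw [Γ.code_flip a b, hv_swap12 _ (Γ.code_lt a b) _ (Γ.code_lt a c) _ (Γ.code_lt b c)]

theorem F_swap23 (a b c : Fin n) : Γ.F a c b = Γ.F a b c := by
  unfold F hval
  rw [Γ.code_flip b c, hv_swap23 _ (Γ.code_lt a b) _ (Γ.code_lt a c) _ (Γ.code_lt b c)]

/-- The weighted system on the support of a weighting. -/
noncomputable def sys (hC : Γ.NoInducedC4) (w : Fin n → ℝ) (hw : ∀ v, 0 ≤ w v)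
    (h1 : ∑ v, w v = 1) : Sys {v // 0 < w v} where
  w v := w v.1
  pos v := v.2
  one := by
    have := sum_support w hw (fun _ => 1)
    simpa [h1] using this
  arc u v := Γ.arc u.1 v.1
  asymm u v := Γ.asymm u.1 v.1
  c4 a b c d h1 h2 h3 h4 := hC a.1 b.1 c.1 d.1 h1 h2 h3 h4

theorem sys_code (hC : Γ.NoInducedC4) (w : Fin n → ℝ) (hw : ∀ v, 0 ≤ w v)
    (h1 : ∑ v, w v = 1) (u v : {v // 0 < w v}) :
    (Γ.sys hC w hw h1).code u v = Γ.code u.1 v.1 := by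
  unfold Sys.code Orgraph.code
  rfl

theorem sys_hR (hC : Γ.NoInducedC4) (w : Fin n → ℝ) (hw : ∀ v, 0 ≤ w v)
    (h1 : ∑ v, w v = 1) (a b c : {v // 0 < w v}) :
    (Γ.sys hC w hw h1).hR a b c = Γ.F a.1 b.1 c.1 := by
  rw [← Sys.hv_eq, sys_code, sys_code, sys_code]
  rfl

theorem sys_E (hC : Γ.NoInducedC4) (w : Fin n → ℝ) (hw : ∀ v, 0 ≤ w v)
    (h1 : ∑ v, w v = 1) (f : Fin n → ℝ) :
    (Γ.sys hC w hw h1).E (fun v => f v.1) = ∑ v, w v * f v :=
  sum_support w hw f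

theorem sys_lk (hC : Γ.NoInducedC4) (w : Fin n → ℝ) (hw : ∀ v, 0 ≤ w v)
    (h1 : ∑ v, w v = 1) (a : {v // 0 < w v}) :
    (Γ.sys hC w hw h1).lk a = Opt.L Γ.F w a.1 := by
  unfold Sys.lk
  simp_rw [sys_hR]
  have e1 : ∀ b : {v // 0 < w v}, (Γ.sys hC w hw h1).E (fun c => Γ.F a.1 b.1 c.1)
      = ∑ c, w c * Γ.F a.1 b.1 c := fun b => Γ.sys_E hC w hw h1 (fun c => Γ.F a.1 b.1 c)
  simp_rw [e1]
  rw [Γ.sys_E hC w hw h1 (fun b => ∑ c, w c * Γ.F a.1 b c)]
  unfold Opt.L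
  refine sum_congr rfl fun b _ => ?_
  rw [mul_sum]
  exact sum_congr rfl fun c _ => by ring

theorem sys_h (hC : Γ.NoInducedC4) (w : Fin n → ℝ) (hw : ∀ v, 0 ≤ w v)
    (h1 : ∑ v, w v = 1) : (Γ.sys hC w hw h1).h = Opt.H Γ.F w := by
  have : (Γ.sys hC w hw h1).h = (Γ.sys hC w hw h1).E (fun a => (Γ.sys hC w hw h1).lk a) := rfl
  rw [this]
  simp_rw [sys_lk]
  rw [Γ.sys_E hC w hw h1 (fun a => Opt.L Γ.F w a), Opt.H_eq]

/-- The weighted edge density of an oriented graph without induced directed 4-cycle is at least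
`4/9`, for every weighting. -/
theorem weighted (hC : Γ.NoInducedC4) (w : Fin n → ℝ) (hw : ∀ v, 0 ≤ w v)
    (h1 : ∑ v, w v = 1) : 4 / 9 ≤ Opt.H Γ.F w := by
  have hne : Nonempty (Fin n) := by
    by_contra hc
    rw [not_nonempty_iff] at hc
    simp at h1
  obtain ⟨w₀, p0, p1, p2, p3⟩ := Opt.exists_opt Γ.F Γ.F_swap12 Γ.F_swap23
  refine le_trans ?_ (p2 w hw h1)
  rw [← Γ.sys_h hC w₀ p0 p1]
  apply Sys.four_ninths
  intro v
  rw [Γ.sys_h, Γ.sys_lk]
  exact p3 v.1 v.2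

/-- Ordered triples with repetitions. -/
theorem triples_ge (hC : Γ.NoInducedC4) : (4 / 9 : ℝ) * (n : ℝ) ^ 3 ≤ Γ.triples.card := by
  rcases Nat.eq_zero_or_pos n with rfl | hn
  · simp
  have hn0 : (0 : ℝ) < n := by exact_mod_cast hn
  have h1 := Γ.weighted hC (fun _ => 1 / (n : ℝ)) (fun _ => by positivity) (by
    rw [sum_const, card_univ, Fintype.card_fin, nsmul_eq_mul]
    field_simp)
  have h2 : Opt.H Γ.F (fun _ => 1 / (n : ℝ)) = (1 / (n : ℝ)) ^ 3 * Γ.triples.card := by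
    have h3 : (Γ.triples.card : ℝ) = ∑ a, ∑ b, ∑ c, (Γ.hval a b c : ℝ) := by
      have := Γ.triples_card
      exact_mod_cast this
    rw [h3]
    unfold Opt.H Opt.T
    rw [mul_sum]
    refine sum_congr rfl fun a _ => ?_
    rw [mul_sum]
    refine sum_congr rfl fun b _ => ?_
    rw [mul_sum]
    refine sum_congr rfl fun c _ => ?_
    unfold F
    ring
  rw [h2] at h1
  have h4 : (n : ℝ) ^ 3 * (4 / 9) ≤ (n : ℝ) ^ 3 * ((1 / (n : ℝ)) ^ 3 * Γ.triples.card) :=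
    mul_le_mul_of_nonneg_left h1 (by positivity)
  have h5 : (n : ℝ) ^ 3 * ((1 / (n : ℝ)) ^ 3 * Γ.triples.card) = Γ.triples.card := by
    field_simp
  rw [h5] at h4
  linarith

end Orgraph

end Pool.Agent.H5
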