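import Pool.Agent.H5.Loc

/-!
# Pointwise bounds at an optimal weighting
-/

namespace Pool.Agent.H5

open Finset

theorem perm3 (f : Fin 3 → ℝ) {i j k : Fin 3} (hij : i ≠ j) (hik : i ≠ k) (hjk : j ≠ k) :
    f 0 + f 1 + f 2 = f i + f j + f k := by
  revert hij hik hjk
  fin_cases i <;> fin_cases j <;> fin_cases k <;> intro h1 h2 h3 <;>
  first
  | exact absurd rfl h1
  | exact absurd rfl h2
  | exact absurd rfl h3
  | (simp only [Fin.zero_eta, Fin.mk_one, Fin.reduceFinMk] <;> ring)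

theorem third : ∀ i j : Fin 3, i ≠ j → ∃ k, i ≠ k ∧ j ≠ k := by decide

namespace Sys

variable {V : Type*} [Fintype V] (S : Sys V) (c : V → Fin 3)

/-- The standing assumptions. -/
structure Good : Prop where
  hh : S.h < 4 / 9
  hF : ∀ v, S.lk v = S.h
  hmin : ∀ c', S.E (S.p c) ≤ S.E (S.p c')

variable {S c}

theorem Good.s_lt (H : S.Good c) : 2 / 3 - S.e < 0.012789 := by
  have h1 := S.cert1
  have h2 := H.hh
  norm_num at h1 h2 ⊢
  linarith

theorem Good.G_lt (H : S.Good c) : S.G < 0.0003531 := by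
  have h1 := S.cert2
  have h2 := H.hh
  have h3 := S.eta_nonneg
  have h4 := S.k4_nonneg
  norm_num at h1 h2 ⊢
  linarith

theorem Good.eta_k4 (H : S.Good c) : 2 * S.eta + S.k4 < 0.001883 := by
  have h1 := S.cert2
  have h2 := H.hh
  have h3 := S.eta_nonneg
  have h4 := S.G_nonneg
  norm_num at h1 h2 ⊢
  linarith

theorem Good.P_nonneg (_ : S.Good c) : 0 ≤ S.E (S.p c) := S.E_nonneg fun v => S.p_nonneg c v

theorem Good.P_le (H : S.Good c) : S.E (S.p c) ≤ 0.003 := by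
  have h1 := S.p_min c H.hmin
  have h2 := H.eta_k4
  have h3 := H.s_lt
  have h4 := H.P_nonneg
  norm_num at h2 h3 ⊢
  nlinarith

theorem Good.loc (H : S.Good c) (v : V) : (S.d0 v - 1 / 3 + 1 / 64) ^ 2
    + 2 * (S.n c 0 v * (S.a c 0 - S.n c 0 v) + S.n c 1 v * (S.a c 1 - S.n c 1 v)
    + S.n c 2 v * (S.a c 2 - S.n c 2 v)) ≤ 0.025425 := by
  have h1 := S.loc H.hh v (H.hF v)
  have h2 := S.R_ge c v
  have h3 := H.G_lt
  have h4 := H.P_le
  norm_num at h1 h3 h4 ⊢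
  linarith

theorem Good.hp (H : S.Good c) (v : V) : S.p c v ≤ 9 / 200 := by
  by_contra hc
  push Not at hc
  have h1 := H.loc v
  have h2 := S.d0_eq c v
  have l0 := S.local_opt c H.hmin v 0
  have l1 := S.local_opt c H.hmin v 1
  have l2 := S.local_opt c H.hmin v 2
  have n0 := S.n_nonneg c 0 v
  have n1 := S.n_nonneg c 1 v
  have n2 := S.n_nonneg c 2 v
  have m0 : 9 / 200 * S.n c 0 v ≤ S.n c 0 v * (S.a c 0 - S.n c 0 v) := by nlinarith
  have m1 : 9 / 200 * S.n c 1 v ≤ S.n c 1 v * (S.a c 1 - S.n c 1 v) := by nlinarith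
  have m2 : 9 / 200 * S.n c 2 v ≤ S.n c 2 v * (S.a c 2 - S.n c 2 v) := by nlinarith
  have h3 : (S.d0 v - 1 / 3 + 1 / 64) ^ 2 + 2 * (9 / 200 * S.d0 v) ≤ 0.025425 := by
    rw [h2] at h1 ⊢
    linarith
  norm_num at h3
  nlinarith [sq_nonneg (S.d0 v - 0.2727)]

/-- Sum of the squares of the part deviations. -/
theorem Good.S2 (H : S.Good c) : (S.a c 0 - 1 / 3) ^ 2 + (S.a c 1 - 1 / 3) ^ 2
    + (S.a c 2 - 1 / 3) ^ 2 ≤ 0.012789 + S.E (S.p c) := by
  have h1 := S.e_eq c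
  have h2 := H.s_lt
  have h3 : 0 ≤ S.E (S.q c) := S.E_nonneg fun v => S.q_nonneg c v
  have h4 := S.a_sum c
  norm_num at h2 ⊢
  nlinarith

theorem a_dev {B : ℝ} (h : (S.a c 0 - 1 / 3) ^ 2 + (S.a c 1 - 1 / 3) ^ 2
    + (S.a c 2 - 1 / 3) ^ 2 ≤ B) (i : Fin 3) : (S.a c i - 1 / 3) ^ 2 ≤ 2 / 3 * B := by
  have h4 := S.a_sum c
  fin_cases i
  · change (S.a c 0 - 1 / 3) ^ 2 ≤ 2 / 3 * B
    have : S.a c 0 = 1 - S.a c 1 - S.a c 2 := by linarith
    rw [this] at h ⊢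
    nlinarith [sq_nonneg (S.a c 1 - S.a c 2)]
  · change (S.a c 1 - 1 / 3) ^ 2 ≤ 2 / 3 * B
    have : S.a c 1 = 1 - S.a c 0 - S.a c 2 := by linarith
    rw [this] at h ⊢
    nlinarith [sq_nonneg (S.a c 0 - S.a c 2)]
  · change (S.a c 2 - 1 / 3) ^ 2 ≤ 2 / 3 * B
    have : S.a c 2 = 1 - S.a c 0 - S.a c 1 := by linarith
    rw [this] at h ⊢
    nlinarith [sq_nonneg (S.a c 0 - S.a c 1)]

theorem Good.a_bd (H : S.Good c) (i : Fin 3) : 0.2307 ≤ S.a c i ∧ S.a c i ≤ 0.436 := by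
  have h1 := a_dev H.S2 i
  have h2 := H.P_le
  norm_num at h1 h2 ⊢
  constructor
  · by_contra hc
    push Not at hc
    nlinarith
  · by_contra hc
    push Not at hc
    nlinarith

theorem Good.hn (H : S.Good c) (v : V) (j : Fin 3) (hj : c v ≠ j) : S.n c j v ≤ 19 / 200 := by
  by_contra hc
  push Not at hc
  obtain ⟨k, hik, hjk⟩ := third (c v) j hj
  have h1 := H.loc v
  have h2 := S.d0_eq c v
  have e1 := perm3 (fun i => S.n c i v * (S.a c i - S.n c i v)) hj hik hjk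
  have e2 := perm3 (fun i => S.n c i v) hj hik hjk
  have e3 := perm3 (fun i => S.a c i) hj hik hjk
  beta_reduce at e1 e2 e3
  rw [e1] at h1
  rw [e2] at h2
  have h4 := S.a_sum c
  rw [e3] at h4
  have hp := H.hp v
  have hp0 := S.p_nonneg c v
  rw [S.p_eq] at hp hp0
  have ai := H.a_bd (c v)
  have aj := H.a_bd j
  have ak := H.a_bd k
  have ni := S.n_nonneg c (c v) v
  have nk := S.n_nonneg c k v
  have nj' := S.n_le c j v
  have nk' := S.n_le c k v
  set xi := S.n c (c v) v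
  set xj := S.n c j v
  set xk := S.n c k v
  set Ai := S.a c (c v)
  set Aj := S.a c j
  set Ak := S.a c k
  have t1 : 0 ≤ xi * (Ai - xi) := mul_nonneg ni hp0
  have t3 : 0 ≤ xk * (Ak - xk) := mul_nonneg nk (by linarith)
  norm_num at h1 hp ai aj ak hc
  have hyj : Aj - xj ≤ 0.095 := by
    by_contra hcc
    push Not at hcc
    norm_num at hcc
    nlinarith [sq_nonneg (S.d0 v - 1 / 3 + 1 / 64), mul_pos (sub_pos.mpr hc) (sub_pos.mpr hcc)]
  norm_num at hyj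
  set Y := (Ai - xi) + (Aj - xj) with hY
  have hD : 0.2462 - Y ≤ S.d0 v - 1 / 3 + 1 / 64 := by
    rw [h2, hY]
    norm_num
    linarith
  have hY1 : Y ≤ 0.14 := by rw [hY]; norm_num; linarith
  have hY0 : 0 ≤ Y := by rw [hY]; linarith
  have hsq : (0.2462 - Y) ^ 2 ≤ (S.d0 v - 1 / 3 + 1 / 64) ^ 2 := by
    apply pow_le_pow_left₀ _ hD
    norm_num at hY1 ⊢
    linarith
  have hxi : 0.1857 ≤ xi := by norm_num; linarith
  have hxj : 0.1357 ≤ xj := by norm_num; linarith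
  have hprod : 0.2714 * Y ≤ 2 * (xi * (Ai - xi) + xj * (Aj - xj)) := by
    have u1 : 0.1357 * (Ai - xi) ≤ xi * (Ai - xi) :=
      mul_le_mul_of_nonneg_right (by norm_num at hxi ⊢; linarith) hp0
    have u2 : 0.1357 * (Aj - xj) ≤ xj * (Aj - xj) :=
      mul_le_mul_of_nonneg_right hxj (by linarith)
    rw [hY]
    norm_num at u1 u2 ⊢
    linarith
  norm_num at hsq hprod
  nlinarith [sq_nonneg (Y - 0.1106)]

end Sys

end Pool.Agent.H5
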